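import Pool.Agent.H530Z.FDCover

set_option autoImplicit false
set_option backward.isDefEq.respectTransparency false
set_option linter.style.haveILetI false

universe u

open CategoryTheory AlgebraicGeometry TensorProduct Limits

namespace Pool.Agent.H530Z.FD

open Pool.Agent.H191Z.Gerbe

variable {k : Type} [Field k]

theorem qc_spec {R S : CommRingCat.{0}} (f : R ⟶ S) : QuasiCompact (Spec.map f) :=
  HasAffineProperty.iff_of_isAffine.mpr (by infer_instance)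

section descent

variable {Y : CatOver.{u} (Sch k)} (hY : Y.IsStack (fpqc k)) {S : Sch k} {A : Type} [CommRing A]
  (ε : Spec (CommRingCat.of A) ≅ S.left) {B C : Type} [CommRing B] [Algebra A B] [CommRing C]
  [Algebra A C] [Module.FaithfullyFlat A B] (j : B →ₐ[A] C) {x y : Y.Obj S}
  {z' : Y.Obj (Sp ε C)} (a : Y.Hom z' x) (b : Y.Hom z' y)
  (ha : Y.base a = str ε C) (hb : Y.base b = str ε C)
  (H : ∀ {V : Sch k} {w : Y.Obj V} (α : Y.Hom w x) (β : Y.Hom w y), Y.base α = Y.base β →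
    ∀ g : V ⟶ Sp ε B, g ≫ str ε B = Y.base α →
    ∃! h : Y.Hom w z', Y.comp h a = α ∧ Y.comp h b = β ∧ Y.base h ≫ Sm ε j = g)

include hY ha hb H

omit [Module.FaithfullyFlat A B] in
theorem exists_rho : ∃ ρ : C →ₐ[A] B ⊗[A] C, ρ.comp j = Algebra.TensorProduct.includeLeft ∧
    ∀ {V : Sch k} {w : Y.Obj V} (h₁ h₂ : Y.Hom w z'), Y.comp h₁ a = Y.comp h₂ a →
      Y.comp h₁ b = Y.comp h₂ b → ∀ l : V ⟶ Sp ε (B ⊗[A] C),
      l ≫ Sm ε Algebra.TensorProduct.includeRight = Y.base h₁ →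
      l ≫ Sm ε Algebra.TensorProduct.includeLeft = Y.base h₂ ≫ Sm ε j →
      Y.base h₂ = l ≫ Sm ε ρ := by
  obtain ⟨w₀, e₁, he₁⟩ := hY.fibered.exists_lift
    (Sm ε (Algebra.TensorProduct.includeRight : C →ₐ[A] B ⊗[A] C)) z'
  obtain ⟨e₂, ⟨h1, h2, h3⟩, -⟩ := H (Y.comp e₁ a) (Y.comp e₁ b) (by simp [ha, hb])
    (Sm ε (Algebra.TensorProduct.includeLeft : B →ₐ[A] B ⊗[A] C))
    (by simp [ha, he₁, Sm_str])
  obtain ⟨ρ, hρ⟩ := Sm_surj ε (Y.base e₂) (by
    have := congrArg Y.base h1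
    simpa [ha, he₁, Sm_str] using this)
  refine ⟨ρ, Sm_inj ε (by rw [← Sm_comp, hρ, h3]), ?_⟩
  intro V w h₁ h₂ r1 r2 l l1 l2
  obtain ⟨θ, hθ, hθ'⟩ := hY.fibered.exists_fill h₁ e₁ l (by rw [he₁, l1])
  obtain ⟨h, -, hu⟩ := H (Y.comp h₂ a) (Y.comp h₂ b) (by simp [ha, hb]) (Y.base h₂ ≫ Sm ε j)
    (by simp [ha, Sm_str])
  have k1 : h₂ = h := hu _ ⟨rfl, rfl, rfl⟩
  have k2 : Y.comp θ e₂ = h := hu _ ⟨by rw [Y.assoc, h1, ← Y.assoc, hθ', r1],
    by rw [Y.assoc, h2, ← Y.assoc, hθ', r2], by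
      rw [Y.base_comp, Category.assoc, h3, hθ, l2]⟩
  rw [k1, ← k2, Y.base_comp, hθ, hρ]

theorem exists_model : ∃ (D : Type) (_ : CommRing D) (_ : Algebra A D) (i : D →ₐ[A] C),
    Function.Bijective (mu j i) ∧
    ∀ {V : Sch k} {w : Y.Obj V} (h₁ h₂ : Y.Hom w z'), Y.comp h₁ a = Y.comp h₂ a →
      Y.comp h₁ b = Y.comp h₂ b → Y.base h₁ ≫ Sm ε i = Y.base h₂ ≫ Sm ε i := by
  obtain ⟨ρ, hj, hU⟩ := exists_rho hY ε j a b ha hb H
  set inR : C →ₐ[A] B ⊗[A] C := Algebra.TensorProduct.includeRight with hinR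
  refine ⟨AlgHom.equalizer ρ inR, inferInstance, inferInstance, (AlgHom.equalizer ρ inR).val,
    amitsur j ρ hj ?_ ?_, ?_⟩
  · have := hU (Y.id z') (Y.id z') rfl rfl (Sm ε (mu j (AlgHom.id A C)))
      (by rw [Sm_comp, mu_right, Sm_id, Y.base_id])
      (by rw [Sm_comp, mu_left, Y.base_id, Category.id_comp])
    rw [Y.base_id, Sm_comp, ← Sm_id] at this
    exact (Sm_inj ε this).symm
  · let inR₂ : B ⊗[A] C →ₐ[A] B ⊗[A] (B ⊗[A] C) := Algebra.TensorProduct.includeRight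
    let inL₂ : B →ₐ[A] B ⊗[A] (B ⊗[A] C) := Algebra.TensorProduct.includeLeft
    obtain ⟨w, h₁, e₁⟩ := hY.fibered.exists_lift (Sm ε (inR₂.comp inR)) z'
    obtain ⟨h₁', ⟨p1, p2, p3⟩, -⟩ := H (Y.comp h₁ a) (Y.comp h₁ b) (by simp [ha, hb])
      (Sm ε (inR₂.comp Algebra.TensorProduct.includeLeft)) (by simp [ha, e₁, Sm_str])
    obtain ⟨h₂, ⟨q1, q2, q3⟩, -⟩ := H (Y.comp h₁ a) (Y.comp h₁ b) (by simp [ha, hb])
      (Sm ε inL₂) (by simp [ha, e₁, Sm_str])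
    have e₁' := hU h₁ h₁' p1.symm p2.symm (Sm ε inR₂) (by rw [Sm_comp, e₁])
      (by rw [Sm_comp, p3])
    have m1 := hU h₁ h₂ q1.symm q2.symm (Sm ε (Algebra.TensorProduct.map (AlgHom.id A B) inR))
      (by rw [Sm_comp, e₁]; congr 1) (by rw [Sm_comp, q3]; congr 1)
    have m2 := hU h₁' h₂ (p1.trans q1.symm) (p2.trans q2.symm)
      (Sm ε (Algebra.TensorProduct.map (AlgHom.id A B) ρ))
      (by rw [Sm_comp, e₁', Sm_comp]; congr 1) (by rw [Sm_comp, q3]; congr 1; ext; simp [inL₂])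
    rw [m1, Sm_comp, Sm_comp] at m2
    exact (Sm_inj ε m2).symm
  · intro V w h₁ h₂ r1 r2
    obtain ⟨l, l1, l2⟩ := over_lift (isPullback_tens ε (D := B) (E := C))
      (Y.base h₂ ≫ Sm ε j) (Y.base h₁) (by
        have := congrArg Y.base r1
        simp only [Y.base_comp, ha] at this
        rw [Category.assoc, Sm_str, this])
    rw [hU h₁ h₂ r1 r2 l l2 l1, ← l2, Category.assoc, Category.assoc, Sm_comp, Sm_comp]
    congr 2
    ext d
    exact ((AlgHom.mem_equalizer _ _ _).mp d.2).symm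

theorem descend_isom (hj : j.toRingHom.Finite) :
    ∃ (P : Sch k) (z : Y.Obj P) (a₀ : Y.Hom z x) (b₀ : Y.Hom z y),
      IsFinite (Y.base a₀).left ∧ Y.IsIsom a₀ b₀ := by
  obtain ⟨D, _, _, i, hbij, hK⟩ := exists_model hY ε j a b ha hb H
  have hfin : Module.Finite A D := finite_descent j i hbij hj
  have hpb := isPullback_mu ε j i hbij
  have hB := (flat_and_surjective_SpecMap_iff (CommRingCat.ofHom (algebraMap A B))).mpr
    (RingHom.faithfullyFlat_algebraMap_iff.mpr inferInstance)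
  have hB1 : Flat (str ε B).left := by
    have := hB.1
    rw [str_left]; infer_instance
  have hB2 : Surjective (str ε B).left := by
    have := hB.2
    rw [str_left]; infer_instance
  have hB3 : QuasiCompact (str ε B).left := by
    have := qc_spec (CommRingCat.ofHom (algebraMap A B))
    rw [str_left]; infer_instance
  have hn1 : Flat (Sm ε i).left := MorphismProperty.of_isPullback (P := @Flat) hpb hB1
  have hn2 : Surjective (Sm ε i).left := MorphismProperty.of_isPullback (P := @Surjective) hpb hB2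
  have hn3 : QuasiCompact (Sm ε i).left := qc_spec _
  obtain ⟨z, a₀, ha₀⟩ := hY.fibered.exists_lift (str ε D) x
  obtain ⟨zy, b₁, hb₁⟩ := hY.fibered.exists_lift (str ε D) y
  obtain ⟨e, he, hea⟩ := hY.fibered.exists_fill a a₀ (Sm ε i) (by rw [ha₀, Sm_str, ha])
  obtain ⟨e', he', heb'⟩ := hY.fibered.exists_fill b b₁ (Sm ε i) (by rw [hb₁, Sm_str, hb])
  obtain ⟨ψ, hψ, heψ⟩ := hY.descend_hom (generate_mem_fpqc (Sm ε i)) e he e' he' (by
    intro V w h₁ h₂ h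
    have r0 : Y.base h₁ ≫ Sm ε i = Y.base h₂ ≫ Sm ε i := by
      have := congrArg Y.base h
      simpa [he] using this
    have r1 : Y.comp h₁ a = Y.comp h₂ a := by rw [← hea, ← Y.assoc, h, Y.assoc]
    obtain ⟨h', ⟨p1, p2, p3⟩, -⟩ := H (Y.comp h₁ a) (Y.comp h₁ b) (by simp [ha, hb])
      (Y.base h₂ ≫ Sm ε j) (by rw [r1]; simp [ha, Sm_str])
    have r2 : Y.base h' = Y.base h₂ :=
      over_ext hpb p3 ((hK h' h₁ p1 p2).trans r0)
    have r3 : h' = h₂ := hY.fibered.ext a r2 (p1.trans r1)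
    refine hY.fibered.ext b₁ (by simp [he', r0]) ?_
    rw [Y.assoc, Y.assoc, heb', ← r3, p2])
  have heb : Y.comp e (Y.comp ψ b₁) = b := by rw [← Y.assoc, heψ, heb']
  have hb₀ : Y.base (Y.comp ψ b₁) = str ε D := by simp [hψ, hb₁]
  generalize Y.comp ψ b₁ = b₀ at heb hb₀
  refine ⟨Sp ε D, z, a₀, b₀, ?_, ha₀.trans hb₀.symm, ?_⟩
  · have : IsFinite (Spec.map (CommRingCat.ofHom (algebraMap A D))) := by
      rw [IsFinite.SpecMap_iff]
      exact RingHom.finite_algebraMap.mpr hfin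
    rw [ha₀, str_left]
    infer_instance
  intro V w α β hαβ
  let V' : Sch k := Over.mk (pullback.fst (Y.base α).left (str ε B).left ≫ V.hom)
  let p₁ : V' ⟶ V := Over.homMk (pullback.fst (Y.base α).left (str ε B).left)
  let p₂ : V' ⟶ Sp ε B := Over.homMk (pullback.snd (Y.base α).left (str ε B).left) (by
    change _ = pullback.fst (Y.base α).left (str ε B).left ≫ V.hom
    rw [← Over.w (str ε B), ← pullback.condition_assoc, Over.w])
  have hp : p₂ ≫ str ε B = p₁ ≫ Y.base α := by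
    ext1; exact pullback.condition.symm
  have hp1 : Flat p₁.left :=
    inferInstanceAs (Flat (pullback.fst (Y.base α).left (str ε B).left))
  have hp2 : Surjective p₁.left :=
    inferInstanceAs (Surjective (pullback.fst (Y.base α).left (str ε B).left))
  have hp3 : QuasiCompact p₁.left :=
    inferInstanceAs (QuasiCompact (pullback.fst (Y.base α).left (str ε B).left))
  have hepi : ∀ {W : Sch k} (f g : V ⟶ W), p₁ ≫ f = p₁ ≫ g → f = g := by
    intro W f g h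
    ext1
    have h2 : p₁.left ≫ f.left = p₁.left ≫ g.left := congrArg (fun m => m.left) h
    exact (cancel_epi _).mp h2
  obtain ⟨w', φ, hφ⟩ := hY.fibered.exists_lift p₁ w
  obtain ⟨κ, ⟨c1, c2, c3⟩, hκ⟩ := H (Y.comp φ α) (Y.comp φ β) (by simp [hαβ]) p₂
    (by simp [hφ, hp])
  have hdesc : ∀ {Z : Scheme} (g₁ g₂ : Z ⟶ V'.left), g₁ ≫ p₁.left = g₂ ≫ p₁.left →
      g₁ ≫ (Y.base κ ≫ Sm ε i).left = g₂ ≫ (Y.base κ ≫ Sm ε i).left := by
    intro Z g₁ g₂ hg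
    let Z' : Sch k := Over.mk (g₁ ≫ V'.hom)
    let γ₁ : Z' ⟶ V' := Over.homMk g₁
    let γ₂ : Z' ⟶ V' := Over.homMk g₂ (by
      change _ = g₁ ≫ V'.hom
      rw [← Over.w p₁, ← reassoc_of% hg])
    have hγ : γ₂ ≫ p₁ = γ₁ ≫ p₁ := by ext1; exact hg.symm
    obtain ⟨w'', ψ₁, hψ₁⟩ := hY.fibered.exists_lift γ₁ w'
    obtain ⟨ψ₂, hψ₂, hψ₂'⟩ := hY.fibered.exists_fill (Y.comp ψ₁ φ) φ γ₂ (by simp [hφ, hψ₁, hγ])
    have := hK (Y.comp ψ₁ κ) (Y.comp ψ₂ κ)
      (by rw [Y.assoc, Y.assoc, c1, ← Y.assoc, ← Y.assoc, hψ₂'])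
      (by rw [Y.assoc, Y.assoc, c2, ← Y.assoc, ← Y.assoc, hψ₂'])
    rw [Y.base_comp, Y.base_comp, hψ₁, hψ₂, Category.assoc, Category.assoc] at this
    exact congrArg (fun m => m.left) this
  let η₀ : V.left ⟶ (Sp ε D).left := EffectiveEpi.desc p₁.left (Y.base κ ≫ Sm ε i).left hdesc
  have hη₀ : p₁.left ≫ η₀ = (Y.base κ ≫ Sm ε i).left := EffectiveEpi.fac _ _ _
  let η : V ⟶ Sp ε D := Over.homMk η₀ (by
    rw [← cancel_epi p₁.left, reassoc_of% hη₀, Over.w, Over.w])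
  have hη : p₁ ≫ η = Y.base κ ≫ Sm ε i := by ext1; exact hη₀
  have hκa : Y.base κ ≫ str ε C = p₁ ≫ Y.base α := by
    have := congrArg Y.base c1
    simpa [ha, hφ] using this
  have hηs : η ≫ str ε D = Y.base α :=
    hepi _ _ (by rw [reassoc_of% hη, Sm_str, hκa])
  obtain ⟨h, hh, hh'⟩ := hY.fibered.exists_fill α a₀ η (by rw [ha₀, hηs])
  have hφh : Y.comp φ h = Y.comp κ e :=
    hY.fibered.ext a₀ (by simp [hφ, hh, he, hη]) (by rw [Y.assoc, Y.assoc, hh', hea, c1])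
  refine ⟨h, ⟨hh', ?_⟩, ?_⟩
  · refine hY.cancel_cover (generate_mem_fpqc p₁) φ hφ (by simp [hh, hb₀, hηs, hαβ]) ?_
    rw [← Y.assoc, hφh, Y.assoc, heb, c2]
  · rintro h' ⟨k1, k2⟩
    have hs' : Y.base h' ≫ str ε D = Y.base α := by
      rw [← k1, Y.base_comp, ha₀]
    obtain ⟨l, l1, l2⟩ := over_lift hpb p₂ (p₁ ≫ Y.base h') (by rw [hp, Category.assoc, hs'])
    obtain ⟨κ', hκ', hκ''⟩ := hY.fibered.exists_fill (Y.comp φ h') e l (by simp [he, l2, hφ])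
    have : κ' = κ := hκ _ ⟨by rw [← hea, ← Y.assoc, hκ'', Y.assoc, k1],
      by rw [← heb, ← Y.assoc, hκ'', Y.assoc, k2], by rw [hκ', l1]⟩
    refine hY.fibered.ext a₀ (hepi _ _ ?_) (by rw [k1, hh'])
    rw [hh, hη, ← this, hκ', l2]

end descent

theorem finiteDiagonal {k : Type} [Field k]
    (Y : Pool.Agent.H191Z.Gerbe.CatOver.{u} (Pool.Agent.H191Z.Gerbe.Sch k))
    (hY : Pool.Agent.H191Z.Gerbe.IsFiniteStack Y) : Pool.Agent.H191Z.Gerbe.HasFiniteDiagonal Y := by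
  obtain ⟨hst, U, R, u, r, s, t, hU, hR, -, -, hr, hloc⟩ := hY
  intro S hS x y
  obtain ⟨T, π, hT, hπ1, hπ2, Hx, Hy⟩ := exists_cover hst hloc x y
  let ε : Spec (CommRingCat.of Γ(S.left, ⊤)) ≅ S.left := S.left.isoSpec.symm
  obtain ⟨B, _, _, eB, heB⟩ := exists_Sp ε π
  have hff : Module.FaithfullyFlat Γ(S.left, ⊤) B := by
    have e : Spec.map (CommRingCat.ofHom (algebraMap Γ(S.left, ⊤) B)) =
        eB.hom.left ≫ π.left ≫ ε.inv := by
      rw [← Category.assoc, ← Over.comp_left, heB, str_left, Category.assoc, Iso.hom_inv_id,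
        Category.comp_id]
    refine RingHom.faithfullyFlat_algebraMap_iff.mp
      ((flat_and_surjective_SpecMap_iff (CommRingCat.ofHom (algebraMap Γ(S.left, ⊤) B))).mp ?_)
    rw [e]
    exact ⟨inferInstance, inferInstance⟩
  obtain ⟨x', c, hc⟩ := hst.fibered.exists_lift π x
  obtain ⟨y', c', hc'⟩ := hst.fibered.exists_lift π y
  obtain ⟨p⟩ := Hx x' c hc
  obtain ⟨q⟩ := Hy y' c' hc'
  obtain ⟨P, z₁, a₁, b₁, hfin, hab, hI⟩ := isom_local hst.fibered s t hU hR hr p q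
  have hP : IsAffine P.left := isAffine_of_isAffineHom (Y.base a₁).left
  obtain ⟨C, _, _, eC, heC⟩ := exists_Sp ε (Y.base a₁ ≫ π)
  obtain ⟨j, hj⟩ := Sm_surj ε (eC.hom ≫ Y.base a₁ ≫ eB.inv) (by
    rw [← heB, ← heC]; simp)
  obtain ⟨z', ζ, hζ⟩ := hst.fibered.exists_lift eC.hom z₁
  refine descend_isom hst ε j (Y.comp ζ (Y.comp a₁ c)) (Y.comp ζ (Y.comp b₁ c'))
    (by simp [hζ, hc, heC]) (by simp [hζ, hc', ← hab, heC]) ?_ ?_
  · intro V w α β hαβ g hg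
    obtain ⟨α', hα', hα''⟩ := hst.fibered.exists_fill α c (g ≫ eB.hom)
      (by rw [hc, Category.assoc, heB, hg])
    obtain ⟨β', hβ', hβ''⟩ := hst.fibered.exists_fill β c' (g ≫ eB.hom)
      (by rw [hc', Category.assoc, heB, hg, hαβ])
    obtain ⟨h₁, ⟨k1, k2⟩, hu⟩ := hI α' β' (hα'.trans hβ'.symm)
    obtain ⟨h, hh, hh'⟩ := hst.fibered.exists_fill h₁ ζ (Y.base h₁ ≫ eC.inv) (by simp [hζ])
    refine ⟨h, ⟨?_, ?_, ?_⟩, ?_⟩
    · rw [← Y.assoc, hh', ← Y.assoc, k1, hα'']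
    · rw [← Y.assoc, hh', ← Y.assoc, k2, hβ'']
    · have : Y.base h₁ ≫ Y.base a₁ = g ≫ eB.hom := by rw [← Y.base_comp, k1, hα']
      rw [hh, hj]
      simp [reassoc_of% this]
    · rintro h' ⟨m1, m2, m3⟩
      have m4 : Y.base h' ≫ eC.hom ≫ Y.base a₁ = g ≫ eB.hom := by
        rw [← m3, hj]; simp
      have m5 : Y.comp h' ζ = h₁ := hu _
        ⟨hst.fibered.ext c (by simp [hζ, m4, hα']) (by rw [hα'', ← m1]; simp),
          hst.fibered.ext c' (by simp [hζ, ← hab, m4, hβ']) (by rw [hβ'', ← m2]; simp)⟩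
      refine hst.fibered.ext ζ ?_ (by rw [m5, hh'])
      rw [hh, ← m5]
      simp [hζ]
  · have : IsFinite (Sm ε j).left := by
      rw [hj, Over.comp_left, Over.comp_left]
      infer_instance
    rw [Sm_left, IsFinite.SpecMap_iff] at this
    exact this

end Pool.Agent.H530Z.FD
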