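import Mathlib
import Pool.Agent.H953Z.St

/-! Loop words and their weights. -/

set_option autoImplicit false

open scoped ENNReal
open Finset Pool.Agent.H953Z

namespace Pool.Agent.H530Z.Code

noncomputable def ex (y : ℝ) : ℝ≥0∞ := ENNReal.ofReal (Real.exp y)

lemma ex_add (a b : ℝ) : ex (a + b) = ex a * ex b := by
  unfold ex; rw [Real.exp_add, ENNReal.ofReal_mul (Real.exp_pos _).le]

lemma ex_mono {a b : ℝ} (h : a ≤ b) : ex a ≤ ex b :=
  ENNReal.ofReal_le_ofReal (Real.exp_le_exp.2 h)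

lemma ex_zero : ex 0 = 1 := by simp [ex]

lemma ex_log {a : ℝ} (h : 0 < a) : ex (Real.log a) = ENNReal.ofReal a := by
  unfold ex; rw [Real.exp_log h]

lemma ex_sum {ι : Type} (s : Finset ι) (f : ι → ℝ) : ex (∑ i ∈ s, f i) = ∏ i ∈ s, ex (f i) := by
  classical
  induction s using Finset.induction_on with
  | empty => simp [ex_zero]
  | insert a s ha ih => rw [sum_insert ha, prod_insert ha, ex_add, ih]

lemma exists_push {D N : Type} (f : D → N) (wt : D → ℝ≥0∞) :
    ∃ W : N → ℝ≥0∞, ∑' n, W n = ∑' d, wt d ∧ ∀ d, wt d ≤ W (f d) := by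
  classical
  refine ⟨fun n => ∑' d, if n = f d then wt d else 0, ?_, fun d => ?_⟩
  · rw [ENNReal.tsum_comm]
    exact tsum_congr fun d => tsum_ite_eq (f d) (fun _ => wt d)
  · refine le_trans ?_ (ENNReal.le_tsum d)
    simp

lemma tsum_mul_prod {A B : Type} (f : A → ℝ≥0∞) (g : B → ℝ≥0∞) :
    ∑' p : A × B, f p.1 * g p.2 = (∑' a, f a) * ∑' b, g b := by
  rw [ENNReal.tsum_prod']
  simp only [ENNReal.tsum_mul_left, ENNReal.tsum_mul_right]

lemma tsum_le_of_injOn {D N : Type} (φ : D → N) (wt : D → ℝ≥0∞) (W : N → ℝ≥0∞)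
    (hinj : ∀ d d', wt d ≠ 0 → wt d' ≠ 0 → φ d = φ d' → d = d')
    (hle : ∀ d, wt d ≠ 0 → wt d ≤ W (φ d)) : ∑' d, wt d ≤ ∑' n, W n := by
  have e : ∑' d : Function.support wt, wt d = ∑' d, wt d := by
    rw [tsum_subtype (Function.support wt) wt, Set.indicator_support]
  rw [← e]
  refine le_trans (ENNReal.tsum_le_tsum fun d => hle d d.2) ?_
  exact ENNReal.tsum_comp_le_tsum_of_injective
    (f := fun d : Function.support wt => φ d)
    (fun d d' h => Subtype.ext (hinj _ _ d.2 d'.2 h)) W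

lemma le_one_of_pow_le {z : ℝ≥0∞} {N : ℕ} (h : ∀ k : ℕ, z ^ k ≤ (k * N + 1 : ℕ)) : z ≤ 1 := by
  by_contra hz
  push Not at hz
  have hfin : z ≠ ⊤ := by
    have := h 1
    rw [pow_one] at this
    exact ne_top_of_le_ne_top (ENNReal.natCast_ne_top _) this
  have hr : 1 < z.toReal := by
    rw [← ENNReal.toReal_one]; exact ENNReal.toReal_strict_mono hfin hz
  have h1 := (tendsto_pow_const_div_const_pow_of_one_lt 1 hr).const_mul ((N : ℝ) + 1)
  rw [mul_zero] at h1
  obtain ⟨k, hk, hk1⟩ := ((h1.eventually (gt_mem_nhds zero_lt_one)).and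
    (Filter.eventually_ge_atTop 1)).exists
  have h2 : z.toReal ^ k ≤ (k * N + 1 : ℕ) := by
    rw [← ENNReal.toReal_pow, ← ENNReal.toReal_natCast]
    exact ENNReal.toReal_mono (ENNReal.natCast_ne_top _) (h k)
  rw [pow_one, ← mul_div_assoc, div_lt_one (by positivity)] at hk
  have h3 : (1 : ℝ) ≤ k := by exact_mod_cast hk1
  push_cast at h2
  nlinarith

/-- `w` followed by `v` is a loop at `v`, and `w` has `m` letters `v` -/
def Lp (E : Set (ℕ × ℕ)) (v m : ℕ) (w : List ℕ) : Prop :=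
  (w ++ [v]).head? = some v ∧ List.IsChain (fun a b => (a, b) ∈ E) (w ++ [v]) ∧ w.count v = m

variable {E : Set (ℕ × ℕ)} {v : ℕ} {h : ℝ}

lemma Lp.nil : Lp E v 0 [] := ⟨rfl, by simp, rfl⟩

lemma Lp.append {m m' : ℕ} {a b : List ℕ} (ha : Lp E v m a) (hb : Lp E v m' b) :
    Lp E v (m + m') (a ++ b) := by
  obtain ⟨r, hr⟩ : ∃ r, b ++ [v] = v :: r := ⟨_, List.eq_cons_of_mem_head? hb.1⟩
  refine ⟨?_, ?_, by rw [List.count_append, ha.2.2, hb.2.2]⟩
  · rw [List.append_assoc, hr]
    have := ha.1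
    cases a <;> simp_all
  · rw [List.append_assoc, hr, List.isChain_split, ← hr]
    exact ⟨ha.2.1, hb.2.1⟩

lemma Lp.inj_aux {m m' : ℕ} {a c b' : List ℕ} (ha : Lp E v m a) (ha' : Lp E v m (a ++ c))
    (hb : Lp E v m' (c ++ b')) : c = [] := by
  have h1 : c.count v = 0 := by
    have := ha'.2.2
    rw [List.count_append, ha.2.2] at this
    omega
  cases c with
  | nil => rfl
  | cons x c =>
    have h2 : x = v := by simpa using hb.1
    simp [h2] at h1

lemma Lp.inj {m m' : ℕ} {a b a' b' : List ℕ} (ha : Lp E v m a) (hb : Lp E v m' b)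
    (ha' : Lp E v m a') (hb' : Lp E v m' b') (e : a ++ b = a' ++ b') : a = a' ∧ b = b' := by
  rcases List.append_eq_append_iff.1 e with ⟨c, rfl, rfl⟩ | ⟨c, rfl, rfl⟩
  · obtain rfl := Lp.inj_aux ha ha' hb
    simp
  · obtain rfl := Lp.inj_aux ha' ha hb'
    simp

open Classical in
/-- the weight of loop words -/
noncomputable def PB (E : Set (ℕ × ℕ)) (v : ℕ) (h : ℝ) (m : ℕ) (w : List ℕ) : ℝ≥0∞ :=
  if Lp E v m w then ex (-h * w.length) else 0

lemma PB_of {m : ℕ} {w : List ℕ} (hw : Lp E v m w) : PB E v h m w = ex (-h * w.length) := by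
  simp [PB, hw]

lemma Lp_of_PB {m : ℕ} {w : List ℕ} (hw : PB E v h m w ≠ 0) : Lp E v m w := by
  by_contra hn
  simp [PB, hn] at hw

lemma len_le_one (hL : LoopBound E h) (m n : ℕ) :
    ∑' w : List ℕ, (if w.length = n then PB E v h m w else 0) ≤ 1 := by
  classical
  rw [ENNReal.tsum_eq_iSup_sum]
  refine iSup_le fun s => ?_
  set t := s.filter fun w => w.length = n ∧ Lp E v m w with ht
  have e1 : ∑ w ∈ s, (if w.length = n then PB E v h m w else 0) = #t * ex (-h * n) := by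
    rw [← nsmul_eq_mul, ← sum_const, ht, sum_filter]
    refine sum_congr rfl fun w _ => ?_
    by_cases h1 : w.length = n <;> by_cases h2 : Lp E v m w <;> simp [PB, h1, h2]
  let φ : List ℕ → Fin (n + 1) → ℕ := fun w i => (w ++ [v]).getD i 0
  have hinj : Set.InjOn φ t := by
    intro w hw w' hw' e
    have l1 := (mem_filter.1 hw).2.1
    have l2 := (mem_filter.1 hw').2.1
    refine List.ext_getElem (l1.trans l2.symm) fun i h1 h2 => ?_
    have := congrFun e ⟨i, by omega⟩
    simpa [φ, List.getElem?_append_left h1, List.getElem?_append_left h2,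
      List.getElem?_eq_getElem h1, List.getElem?_eq_getElem h2] using this
  have hb := hL v n (t.image φ) (by
    intro f hf
    obtain ⟨w, hw, rfl⟩ := mem_image.1 hf
    obtain ⟨l1, h1, h2, -⟩ := (mem_filter.1 hw).2
    refine ⟨?_, ?_, fun i => ?_⟩
    · simp only [φ, Fin.val_zero, List.getD_eq_getElem?_getD, ← List.head?_eq_getElem?, h1]
      rfl
    · simp [φ, ← l1]
    · have hi : (i : ℕ) + 1 < (w ++ [v]).length := by simp [l1]
      have := List.isChain_iff_getElem.1 h2 i hi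
      simp only [φ, Fin.val_castSucc, Fin.val_succ]
      rw [List.getD_eq_getElem _ _ hi, List.getD_eq_getElem _ _ (by omega)]
      exact this)
  rw [card_image_of_injOn hinj] at hb
  rw [e1, ← ex_zero, ← add_neg_cancel (h * n), ex_add, neg_mul]
  gcongr
  rw [← ENNReal.ofReal_natCast]
  exact ENNReal.ofReal_le_ofReal hb

lemma sum_PB_le (hL : LoopBound E h) (m : ℕ) : ∑' w, PB E v h m w ≤ 1 := by
  classical
  let f : ℕ → ℕ → List ℕ → ℝ≥0∞ := fun m N w => if w.length ≤ N then PB E v h m w else 0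
  have hf : ∀ m N w, f m N w ≠ 0 → w.length ≤ N ∧ Lp E v m w := by
    intro m N w hw
    by_cases h1 : w.length ≤ N
    · exact ⟨h1, Lp_of_PB (h := h) (by simpa [f, h1] using hw)⟩
    · simp [f, h1] at hw
  have ha : ∀ m N, ∑' w, f m N w ≤ (N + 1 : ℕ) := by
    intro m N
    calc ∑' w, f m N w
        ≤ ∑' w, ∑ n ∈ range (N + 1), (if w.length = n then PB E v h m w else 0) := by
          refine ENNReal.tsum_le_tsum fun w => ?_
          simp [f]
      _ = ∑ n ∈ range (N + 1), ∑' w : List ℕ, (if w.length = n then PB E v h m w else 0) :=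
          Summable.tsum_finsetSum fun _ _ => ENNReal.summable
      _ ≤ ∑ n ∈ range (N + 1), 1 := sum_le_sum fun n _ => len_le_one hL m n
      _ = _ := by simp
  have hb : ∀ m N m' N', (∑' w, f m N w) * ∑' w, f m' N' w ≤ ∑' w, f (m + m') (N + N') w := by
    intro m N m' N'
    rw [← tsum_mul_prod]
    refine tsum_le_of_injOn (fun p => p.1 ++ p.2) _ _ (fun d d' h1 h2 e => ?_) fun d h1 => ?_
    · obtain ⟨a1, a2⟩ := mul_ne_zero_iff.1 h1
      obtain ⟨b1, b2⟩ := mul_ne_zero_iff.1 h2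
      have := Lp.inj (hf _ _ _ a1).2 (hf _ _ _ a2).2 (hf _ _ _ b1).2 (hf _ _ _ b2).2 e
      exact Prod.ext this.1 this.2
    · obtain ⟨a1, a2⟩ := mul_ne_zero_iff.1 h1
      obtain ⟨l1, p1⟩ := hf _ _ _ a1
      obtain ⟨l2, p2⟩ := hf _ _ _ a2
      have l3 : (d.1 ++ d.2).length ≤ N + N' := by rw [List.length_append]; omega
      simp only [f, if_pos l1, if_pos l2, if_pos l3, PB_of p1, PB_of p2, PB_of (p1.append p2)]
      rw [← ex_add, List.length_append]
      exact ex_mono (by push_cast; linarith)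
  have hc : ∀ N k : ℕ, (∑' w, f m N w) ^ k ≤ ∑' w, f (k * m) (k * N) w := by
    intro N k
    induction k with
    | zero =>
      refine le_trans ?_ (ENNReal.le_tsum [])
      simp [f, PB_of Lp.nil, ex_zero]
    | succ k ih =>
      rw [pow_succ, add_mul, add_mul, one_mul, one_mul]
      exact le_trans (by gcongr) (hb _ _ _ _)
  rw [ENNReal.tsum_eq_iSup_sum]
  refine iSup_le fun s => ?_
  refine le_trans ?_ (le_one_of_pow_le (z := ∑' w, f m (s.sup List.length) w)
    fun k => (hc _ k).trans (ha _ _))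
  refine le_trans (le_of_eq ?_) (ENNReal.sum_le_tsum s)
  exact sum_congr rfl fun w hw => by simp [f, le_sup (f := List.length) hw]

/-- weights on blocks with a gain on the blocks along which `G` moves like a clock -/
lemma exists_QB (hL : LoopBound E h) {Q : ℕ} (G : List ℕ → ZMod Q) {a0 : List ℕ}
    (ha0 : Lp E v 1 a0) (hQ : (a0.length : ZMod Q) ≠ 0) (m : ℕ) :
    ∃ (s : ℕ) (QB : List ℕ → ℝ≥0∞), ∑' w, QB w ≤ 1 ∧ ∀ w1 mid w2, Lp E v m w1 → Lp E v s mid →
      Lp E v m w2 → ex (-h * (w1 ++ mid ++ w2).length - Real.log 2) ≤ QB (w1 ++ mid ++ w2) ∧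
      (G w2 = G w1 + w1.length + mid.length →
        ex (-h * (w1 ++ mid ++ w2).length + Real.log (1 + Real.exp (-h * a0.length) / 2)) ≤
          QB (w1 ++ mid ++ w2)) := by
  classical
  let P : ℕ → List ℕ × List ℕ × List ℕ → ℝ≥0∞ := fun s d =>
    PB E v h m d.1 * (PB E v h s d.2.1 * PB E v h m d.2.2)
  let good : List ℕ × List ℕ × List ℕ → Prop := fun d =>
    G d.2.2 = G d.1 + d.1.length + d.2.1.length
  have hP : ∀ s, ∑' d, P s d ≤ 1 := by
    intro s
    rw [tsum_mul_prod (PB E v h m) fun d : List ℕ × List ℕ => PB E v h s d.1 * PB E v h m d.2,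
      tsum_mul_prod]
    exact mul_le_one' (sum_PB_le hL m) (mul_le_one' (sum_PB_le hL s) (sum_PB_le hL m))
  let Z : ℕ → ℝ≥0∞ := fun s => ∑' d, if good d then P s d else 0
  set p0 := Real.exp (-h * a0.length) with hp0
  have p0pos : 0 < p0 := Real.exp_pos _
  have key : ENNReal.ofReal p0 * Z 0 + Z 1 ≤ 1 := by
    have h1 : ENNReal.ofReal p0 * Z 0 ≤ ∑' d, if good d then 0 else P 1 d := by
      rw [← ENNReal.tsum_mul_left]
      have hmid : ∀ d, ENNReal.ofReal p0 * (if good d then P 0 d else 0) ≠ 0 →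
          good d ∧ d.2.1 = [] := by
        intro d hd
        by_cases hg : good d
        · refine ⟨hg, ?_⟩
          rw [if_pos hg] at hd
          have := Lp_of_PB (mul_ne_zero_iff.1 (mul_ne_zero_iff.1 (mul_ne_zero_iff.1 hd).2).2).1
          exact Lp.inj_aux (a := []) (b' := []) Lp.nil this (by simpa using this)
        · simp [hg] at hd
      refine tsum_le_of_injOn (fun d => (d.1, a0, d.2.2)) _ _ (fun d d' h1 h2 e => ?_) fun d h1 => ?_
      · simp only [Prod.mk.injEq, true_and] at e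
        exact Prod.ext e.1 (Prod.ext ((hmid d h1).2.trans (hmid d' h2).2.symm) e.2)
      · obtain ⟨hg, hm⟩ := hmid d h1
        have hng : ¬ good (d.1, a0, d.2.2) := by
          intro hg'
          simp only [good, hm, List.length_nil, Nat.cast_zero, add_zero] at hg hg'
          rw [hg] at hg'
          exact hQ (by simpa using hg')
        rw [if_pos hg, if_neg hng]
        simp only [P, hm, PB_of Lp.nil, PB_of ha0, List.length_nil, Nat.cast_zero, mul_zero,
          ex_zero, one_mul]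
        exact le_of_eq (by rw [ex, ← hp0]; ring)
    refine le_trans (add_le_add h1 le_rfl) (le_trans (le_of_eq ?_) (hP 1))
    rw [← ENNReal.tsum_add]
    exact tsum_congr fun d => by by_cases hg : good d <;> simp [hg]
  obtain ⟨s, hs⟩ : ∃ s, (ENNReal.ofReal p0 + 1) * Z s ≤ 1 := by
    rcases le_total (Z 0) (Z 1) with h01 | h01
    · exact ⟨0, le_trans (by rw [add_mul, one_mul]; gcongr) key⟩
    · exact ⟨1, le_trans (by rw [add_mul, one_mul]; gcongr) key⟩
  obtain ⟨QB, hQ1, hQ2⟩ := exists_push (fun d : List ℕ × List ℕ × List ℕ => d.1 ++ d.2.1 ++ d.2.2)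
    (fun d => 2⁻¹ * P s d + 2⁻¹ * ((ENNReal.ofReal p0 + 1) * if good d then P s d else 0))
  have half : (2⁻¹ : ℝ≥0∞) = ENNReal.ofReal (1 / 2) := by
    rw [one_div, ENNReal.ofReal_inv_of_pos two_pos]; simp
  refine ⟨s, QB, ?_, fun w1 mid w2 h1 h2 h3 => ?_⟩
  · rw [hQ1, ENNReal.tsum_add, ENNReal.tsum_mul_left, ENNReal.tsum_mul_left, ENNReal.tsum_mul_left]
    exact (add_le_add (mul_le_of_le_one_right' (hP s)) (mul_le_of_le_one_right' hs)).trans
      ENNReal.inv_two_add_inv_two.le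
  · have e : P s (w1, mid, w2) = ex (-h * (w1 ++ mid ++ w2).length) := by
      simp only [P, PB_of h1, PB_of h2, PB_of h3, ← ex_add, List.length_append]
      congr 1; push_cast; ring
    have := hQ2 (w1, mid, w2)
    refine ⟨le_trans ?_ (le_trans le_self_add this), fun hg => le_trans ?_ this⟩
    · rw [e, sub_eq_add_neg, ex_add, mul_comm, ← Real.log_inv, ex_log (by norm_num), half, one_div]
    · have hg' : good (w1, mid, w2) := hg
      rw [if_pos hg', e, ex_add, ex_log (by positivity), ← mul_assoc, ← add_mul, mul_comm]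
      refine le_of_eq ?_
      congr 1
      rw [half, ← ENNReal.ofReal_one, ← ENNReal.ofReal_add p0pos.le zero_le_one,
        ← ENNReal.ofReal_mul (by norm_num), ← ENNReal.ofReal_add (by norm_num) (by positivity)]
      congr 1; ring

lemma exists_W {QB : List ℕ → ℝ≥0∞} (hQ : ∑' w, QB w ≤ 1) :
    ∃ W : ℕ → List ℕ → ℝ≥0∞, (∀ j, ∑' w, W j w ≤ 1) ∧ 1 ≤ W 0 [] ∧
      ∀ j a b, W j a * QB b ≤ W (j + 1) (a ++ b) := by
  classical
  choose F hF1 hF2 using fun V : List ℕ → ℝ≥0∞ =>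
    exists_push (fun p : List ℕ × List ℕ => p.1 ++ p.2) fun p => V p.1 * QB p.2
  refine ⟨fun j => F^[j] fun w => if w = [] then 1 else 0, fun j => ?_, by simp, fun j a b => ?_⟩
  · induction j with
    | zero => simp
    | succ j ih =>
      simp only [Function.iterate_succ_apply']
      rw [hF1, tsum_mul_prod]
      exact mul_le_one' ih hQ
  · simp only [Function.iterate_succ_apply']
    exact hF2 _ (a, b)

lemma exists_V {W : ℕ → List ℕ → ℝ≥0∞} (hW : ∀ j, ∑' w, W j w ≤ 1) (n : ℕ) :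
    ∃ V : ℕ × List ℕ → ℝ≥0∞, ∑' d, V d ≤ 1 ∧ ∀ j ≤ n, ∀ s ≤ n, ∀ w,
      ex (-2 * Real.log (n + 1)) * W j w ≤ V (s, w) := by
  have hc : ex (-Real.log (n + 1)) * ((n + 1 : ℕ) : ℝ≥0∞) = 1 := by
    rw [← ENNReal.ofReal_natCast, ← ex_log (by positivity), ← ex_add]
    simp [ex_zero]
  obtain ⟨V, h1, h2⟩ := exists_push
    (fun d : Fin (n + 1) × (Σ _ : Fin (n + 1), List ℕ) => ((d.1 : ℕ), d.2.2))
    (fun d => ex (-Real.log (n + 1)) * (ex (-Real.log (n + 1)) * W d.2.1 d.2.2))
  refine ⟨V, ?_, fun j hj s hs w => ?_⟩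
  · rw [h1, tsum_mul_prod (fun _ : Fin (n + 1) => ex (-Real.log (n + 1)))
      fun d : (Σ _ : Fin (n + 1), List ℕ) => ex (-Real.log (n + 1)) * W d.1 d.2,
      ENNReal.tsum_sigma' ]
    refine mul_le_one' (le_of_eq ?_) ?_
    · rw [tsum_fintype, sum_const, card_univ, Fintype.card_fin, nsmul_eq_mul, mul_comm, hc]
    · simp only [ENNReal.tsum_mul_left]
      rw [← hc]
      gcongr
      rw [tsum_fintype]
      exact (sum_le_sum (g := fun _ => 1) fun (j : Fin (n + 1)) _ => hW j).trans (by simp)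
  · refine le_trans (le_of_eq ?_) (h2 (⟨s, by omega⟩, ⟨⟨j, by omega⟩, w⟩))
    rw [← mul_assoc, ← ex_add]
    congr 2; ring

open Classical in
lemma exists_names {D : Type} {V : D → ℝ≥0∞} (hV : ∑' d, V d ≤ 1) {n k : ℕ}
    (pr : D → Fin n → Fin k) {η Λ : ℝ} (hΛ : ex (-η) + k * ex (-η - Λ) ≤ 1) :
    ∃ Q : (Fin n → Fin k) → ℝ≥0∞, ∑ w, Q w ≤ 1 ∧ ∀ d w,
      V d * ex (∑ u : Fin n, (-η - if pr d u = w u then 0 else Λ)) ≤ Q w := by
  refine ⟨fun w => ∑' d, V d * ex (∑ u : Fin n, (-η - if pr d u = w u then 0 else Λ)), ?_,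
    fun d w => ENNReal.le_tsum d⟩
  rw [← Summable.tsum_finsetSum fun _ _ => ENNReal.summable]
  refine le_trans (ENNReal.tsum_le_tsum fun d => ?_) hV
  rw [← mul_sum]
  refine mul_le_of_le_one_right' ?_
  simp only [ex_sum]
  rw [← Fintype.piFinset_univ,
    ← prod_univ_sum (fun _ => univ) fun u b => ex (-η - if pr d u = b then 0 else Λ)]
  refine prod_le_one' fun u _ => le_trans ?_ hΛ
  calc ∑ b, ex (-η - if pr d u = b then 0 else Λ)
      ≤ ∑ b : Fin k, ((if pr d u = b then ex (-η) else 0) + ex (-η - Λ)) := by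
        refine sum_le_sum fun b _ => ?_
        by_cases hb : pr d u = b <;> simp [hb]
    _ = _ := by simp [sum_add_distrib]

end Pool.Agent.H530Z.Code
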