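import Mathlib
import Pool.Agent.H530Z.CodeA

/-! Cutting a path into blocks. -/

set_option autoImplicit false

open scoped ENNReal
open Finset Pool.Agent.H953Z

namespace Pool.Agent.H530Z.Code

def seg (y : ℕ → ℕ) (a b : ℕ) : List ℕ := (List.range' a (b - a)).map y

def cnt (y : ℕ → ℕ) (v n : ℕ) : ℕ := Nat.count (fun i => y i = v) n

variable {E : Set (ℕ × ℕ)} {v : ℕ} {h : ℝ} {y : ℕ → ℕ}

lemma seg_length (a b : ℕ) : (seg y a b).length = b - a := by simp [seg]

lemma seg_append {a b c : ℕ} (h1 : a ≤ b) (h2 : b ≤ c) : seg y a b ++ seg y b c = seg y a c := by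
  obtain ⟨p, rfl⟩ := Nat.exists_eq_add_of_le h1
  obtain ⟨q, rfl⟩ := Nat.exists_eq_add_of_le h2
  simp only [seg, ← List.map_append, Nat.add_sub_cancel_left, List.range'_append_1]
  rw [Nat.add_assoc, Nat.add_sub_cancel_left]

lemma seg_self (a : ℕ) : seg y a a = [] := by simp [seg]

lemma seg_succ {a b : ℕ} (h1 : a ≤ b) : seg y a (b + 1) = seg y a b ++ [y b] := by
  rw [← seg_append h1 (Nat.le_succ b)]
  simp [seg]

lemma seg_drop {a u b : ℕ} (h1 : a ≤ u) (h2 : u ≤ b) : (seg y a b).drop (u - a) = seg y u b := by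
  rw [← seg_append h1 h2, List.drop_left' (seg_length a u)]

lemma seg_getD {a b i : ℕ} (hi : a + i < b) : (seg y a b).getD i 0 = y (a + i) := by
  have : i < (seg y a b).length := by rw [seg_length]; omega
  rw [List.getD_eq_getElem _ _ this]
  simp [seg]

lemma seg_count {a b : ℕ} (h1 : a ≤ b) : cnt y v a + (seg y a b).count v = cnt y v b := by
  induction b, h1 using Nat.le_induction with
  | base => simp [seg_self]
  | succ b hb ih =>
    rw [seg_succ hb, List.count_append, ← add_assoc, ih, cnt, cnt, Nat.count_succ]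
    by_cases e : y b = v <;> simp [e]

lemma cnt_mono {a b : ℕ} (h1 : a ≤ b) : cnt y v a ≤ cnt y v b := Nat.count_monotone _ h1

lemma cnt_eq (n : ℕ) : (cnt y v n : ℝ) = ∑ u ∈ range n, if y u = v then 1 else 0 := by
  simp [cnt, Nat.count_eq_card_filter_range]

lemma seg_Lp (hy : ∀ i, (y i, y (i + 1)) ∈ E) {a b m : ℕ} (h1 : a ≤ b) (ha : y a = v)
    (hb : y b = v) (hm : cnt y v a + m = cnt y v b) : Lp E v m (seg y a b) := by
  have e : seg y a b ++ [v] = seg y a (b + 1) := by rw [seg_succ h1, hb]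
  refine ⟨?_, ?_, ?_⟩
  · rw [e, seg, show b + 1 - a = (b - a) + 1 by omega, List.range'_succ]
    simp [ha]
  · rw [e, List.isChain_iff_getElem]
    intro i hi
    simpa [seg, add_assoc] using hy (a + i)
  · have := seg_count (y := y) (v := v) h1
    omega

lemma sum_offsets (φ : ℕ → ℝ) (M j : ℕ) :
    ∑ o ∈ range M, ∑ i ∈ range j, φ (o + i * M) = ∑ i ∈ range (j * M), φ i := by
  induction j with
  | zero => simp
  | succ j ih =>
    simp only [sum_range_succ, sum_add_distrib, ih, add_mul, one_mul, sum_range_add]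
    simp only [add_comm]

open Classical in
lemma word (hy : ∀ i, (y i, y (i + 1)) ∈ E) (hinf : {i | y i = v}.Infinite) (hh : 0 ≤ h)
    {Q : ℕ} {G : List ℕ → ZMod Q} {m s : ℕ} (hm : 0 < m) {γ : ℝ} (hγ : 0 ≤ γ)
    {QB : List ℕ → ℝ≥0∞}
    (hQB : ∀ w1 mid w2, Lp E v m w1 → Lp E v s mid → Lp E v m w2 →
      ex (-h * (w1 ++ mid ++ w2).length - Real.log 2) ≤ QB (w1 ++ mid ++ w2) ∧
      (G w2 = G w1 + w1.length + mid.length →
        ex (-h * (w1 ++ mid ++ w2).length + γ) ≤ QB (w1 ++ mid ++ w2)))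
    {W : ℕ → List ℕ → ℝ≥0∞} (hW0 : 1 ≤ W 0 [])
    (hW : ∀ j a b, W j a * QB b ≤ W (j + 1) (a ++ b)) {err : ℕ → Prop} {c : ZMod Q}
    (hG : ∀ u u', ¬ err u → u + m ≤ u' → G (seg y u u') = c + u) (n : ℕ) :
    ∃ c0 c1 j, c0 ≤ c1 ∧ c1 ≤ n ∧ j ≤ n ∧ cnt y v c0 < 2 * (m + s + m) ∧
      cnt y v n < cnt y v c1 + 2 * (m + s + m) ∧
      ex (-h * n + γ / (m + s + m : ℕ) * cnt y v n - 2 * γ - 2 * (γ + Real.log 2) / (m + s + m : ℕ) *
        ∑ u ∈ range n, if err u then 1 else 0) ≤ W j (seg y c0 c1) := by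
  set M := m + s + m with hM
  have M0 : 0 < M := by omega
  have M0' : (0 : ℝ) < M := by exact_mod_cast M0
  have l2 : 0 ≤ Real.log 2 := Real.log_nonneg one_le_two
  set I : ℕ → ℝ := fun u => if err u then 1 else 0 with hI
  have I0 : ∀ u, 0 ≤ I u := fun u => by simp only [hI]; split_ifs <;> norm_num
  set S := ∑ u ∈ range n, I u with hS
  have S0 : 0 ≤ S := sum_nonneg fun u _ => I0 u
  set K := cnt y v n with hK
  by_cases hKM : K < M
  · refine ⟨0, 0, 0, le_rfl, n.zero_le, n.zero_le, by simp [cnt]; omega, by omega, ?_⟩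
    rw [seg_self]
    refine le_trans ?_ hW0
    rw [← ex_zero]
    refine ex_mono ?_
    have h1 : γ / M * K ≤ γ := by
      rw [div_mul_eq_mul_div, div_le_iff₀ M0']
      exact mul_le_mul_of_nonneg_left (by exact_mod_cast hKM.le) hγ
    have h2 : 0 ≤ 2 * (γ + Real.log 2) / M * S := by positivity
    have h3 : 0 ≤ h * n := by positivity
    linarith
  set t := Nat.nth fun i => y i = v with ht
  have tm : StrictMono t := Nat.nth_strictMono hinf
  have tv : ∀ i, y (t i) = v := Nat.nth_mem_of_infinite hinf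
  have tc : ∀ i, cnt y v (t i) = i := Nat.count_nth_of_infinite hinf
  have tn : ∀ i, i < K → t i < n := fun i hi => Nat.nth_lt_of_lt_count hi
  have tl : ∀ i d, Lp E v d (seg y (t i) (t (i + d))) := fun i d =>
    seg_Lp hy (tm.monotone (by omega)) (tv _) (tv _) (by rw [tc, tc])
  have tg : ∀ i d, t i + d ≤ t (i + d) := fun i d => by
    have := tm.add_le_nat d i
    rwa [add_comm d i, add_comm d] at this
  let φ : ℕ → ℝ := fun i => γ - (γ + Real.log 2) * (I (t i) + I (t (i + (m + s))))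
  have block : ∀ i, ex (-h * ((t (i + M) : ℝ) - t i) + φ i) ≤ QB (seg y (t i) (t (i + M))) := by
    intro i
    have a1 : t i ≤ t (i + m) := tm.monotone (by omega)
    have a2 : t (i + m) ≤ t (i + m + s) := tm.monotone (by omega)
    have a3 : t (i + m + s) ≤ t (i + m + s + m) := tm.monotone (by omega)
    obtain ⟨b1, b2⟩ := hQB _ _ _ (tl i m) (tl (i + m) s) (tl (i + m + s) m)
    rw [seg_append a1 a2, seg_append (a1.trans a2) a3, seg_length (t i) (t (i + m + s + m)),
      Nat.cast_sub ((a1.trans a2).trans a3)] at b1 b2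
    rw [show i + M = i + m + s + m by omega]
    by_cases e1 : err (t i) ∨ err (t (i + (m + s)))
    · refine le_trans (ex_mono ?_) b1
      have : 1 ≤ I (t i) + I (t (i + (m + s))) := by
        have i1 := I0 (t i)
        have i2 := I0 (t (i + (m + s)))
        rcases e1 with e | e
        · have : I (t i) = 1 := if_pos e
          linarith
        · have : I (t (i + (m + s))) = 1 := if_pos e
          linarith
      have := mul_le_mul_of_nonneg_left this (add_nonneg hγ l2)
      simp only [φ]; linarith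
    · push Not at e1
      refine le_trans (ex_mono ?_) (b2 ?_)
      · simp [φ, hI, e1.1, e1.2]
      · rw [hG _ _ e1.1 (tg _ _), hG _ _ (by rw [add_assoc]; exact e1.2) (tg _ _), seg_length,
          seg_length, Nat.cast_sub a1, Nat.cast_sub a2]
        ring
  have chain : ∀ o j, ex (-h * ((t (o + j * M) : ℝ) - t o) + ∑ i ∈ range j, φ (o + i * M)) ≤
      W j (seg y (t o) (t (o + j * M))) := by
    intro o j
    induction j with
    | zero => simpa [seg_self, ex_zero] using hW0
    | succ j ih =>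
      rw [show o + (j + 1) * M = o + j * M + M by ring,
        ← seg_append (b := t (o + j * M)) (tm.monotone (by omega)) (tm.monotone (by omega))]
      refine le_trans ?_ (le_trans (mul_le_mul' ih (block _)) (hW _ _ _))
      rw [← ex_add, sum_range_succ]
      exact ex_mono (by linarith)
  obtain ⟨j, hj1, hj2⟩ : ∃ j, j * M + M ≤ K ∧ K < j * M + 2 * M := by
    have h1 := Nat.div_add_mod K M
    have h2 := Nat.mod_lt K M0
    obtain ⟨j, hj⟩ : ∃ j, K / M = j + 1 :=
      Nat.exists_eq_succ_of_ne_zero (Nat.div_pos (not_lt.1 hKM) M0).ne'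
    rw [hj] at h1
    rw [mul_add, mul_one, mul_comm] at h1
    exact ⟨j, by omega, by omega⟩
  have hI1 : ∀ d, d ≤ M → ∑ i ∈ range (j * M), I (t (i + d)) ≤ S := by
    intro d hd
    rw [← sum_image (g := fun i => t (i + d)) (f := I)
      fun a _ b _ e => by simpa using tm.injective e]
    refine sum_le_sum_of_subset_of_nonneg (fun u hu => ?_) fun u _ _ => I0 u
    obtain ⟨i, hi, rfl⟩ := mem_image.1 hu
    exact mem_range.2 (tn _ (by have := mem_range.1 hi; omega))
  have tot : (j * M : ℕ) * γ - 2 * (γ + Real.log 2) * S ≤ ∑ i ∈ range (j * M), φ i := by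
    simp only [φ, sum_sub_distrib, sum_const, card_range, nsmul_eq_mul, ← mul_sum, sum_add_distrib]
    have h1 := hI1 0 M.zero_le
    have h2 := hI1 (m + s) (by omega)
    simp only [add_zero] at h1
    have := mul_le_mul_of_nonneg_left (add_le_add h1 h2) (add_nonneg hγ l2)
    linarith
  obtain ⟨o, ho, hle⟩ := exists_le_of_sum_le (s := range M) (nonempty_range_iff.2 M0.ne')
    (f := fun _ => ((j * M : ℕ) * γ - 2 * (γ + Real.log 2) * S) / M)
    (g := fun o => ∑ i ∈ range j, φ (o + i * M))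
    (by rw [sum_offsets, sum_const, card_range, nsmul_eq_mul, mul_div_cancel₀ _ M0'.ne']; exact tot)
  have ho' := mem_range.1 ho
  have c1n : t (o + j * M) ≤ n := (tn _ (by omega)).le
  have Kn : K ≤ n := Nat.count_le _
  refine ⟨t o, t (o + j * M), j, tm.monotone (by omega), c1n, by nlinarith, by rw [tc]; omega,
    by rw [tc]; omega, le_trans (ex_mono ?_) (chain o j)⟩
  have h1 : h * ((t (o + j * M) : ℝ) - t o) ≤ h * n := by
    refine mul_le_mul_of_nonneg_left ?_ hh
    have : (t (o + j * M) : ℝ) ≤ n := by exact_mod_cast c1n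
    have : (0 : ℝ) ≤ t o := Nat.cast_nonneg _
    linarith
  have h2 : γ / M * K - 2 * γ - 2 * (γ + Real.log 2) / M * S ≤
      ((j * M : ℕ) * γ - 2 * (γ + Real.log 2) * S) / M := by
    rw [le_div_iff₀ M0']
    have h3 : (K : ℝ) ≤ (j * M : ℕ) + 2 * M := by exact_mod_cast hj2.le
    have h4 := mul_le_mul_of_nonneg_left h3 hγ
    have e : (γ / M * K - 2 * γ - 2 * (γ + Real.log 2) / M * S) * M =
        γ * K - 2 * γ * M - 2 * (γ + Real.log 2) * S := by field_simp
    rw [e]; linarith
  linarith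

open Classical in
lemma mism {k n c0 c1 r R M : ℕ} {q' : List ℕ → Fin k} {nm : ℕ → Fin k} {err' lone : ℕ → Prop}
    (h0 : cnt y v c0 < M) (h1 : cnt y v n < cnt y v c1 + M)
    (hq : ∀ u u', ¬ err' u → u + r ≤ u' → q' (seg y u u') = nm u)
    (hl : ∀ u, ¬ lone u → cnt y v u + M ≤ cnt y v (u + R)) {Λ : ℝ} (hΛ : 0 ≤ Λ) :
    ∑ u : Fin n, (if q' ((seg y c0 c1).drop (u - c0)) = nm u then 0 else Λ) ≤
      Λ * (2 * R + r) + ∑ u ∈ range n, (Λ * (if err' u then 1 else 0) +
        Λ * (if lone u then 1 else 0)) := by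
  let X := Ico (c0 - R) c0 ∪ Ico (c1 - r) c1 ∪ Ico (n - R) n
  have hX : #X ≤ 2 * R + r := by
    have a1 := card_union_le (Ico (c0 - R) c0 ∪ Ico (c1 - r) c1) (Ico (n - R) n)
    have a2 := card_union_le (Ico (c0 - R) c0) (Ico (c1 - r) c1)
    simp only [Nat.card_Ico] at a1 a2
    simp only [X]; omega
  rw [Fin.sum_univ_eq_sum_range
    (fun u => if q' ((seg y c0 c1).drop (u - c0)) = nm u then 0 else Λ) n]
  have a3 : ∑ u ∈ range n, Λ * (if u ∈ X then 1 else 0) ≤ Λ * (2 * R + r) := by
    rw [← mul_sum]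
    refine mul_le_mul_of_nonneg_left ?_ hΛ
    rw [sum_boole]
    have : #{u ∈ range n | u ∈ X} ≤ 2 * R + r :=
      (card_le_card fun u hu => (mem_filter.1 hu).2).trans hX
    exact_mod_cast this
  refine le_trans ?_ (add_le_add a3 le_rfl)
  rw [← sum_add_distrib]
  refine sum_le_sum fun u hu => ?_
  have un := mem_range.1 hu
  by_cases e1 : err' u
  · simp only [e1, if_true]; split_ifs <;> linarith
  by_cases e2 : lone u
  · simp only [e2, if_true]; split_ifs <;> linarith
  by_cases e3 : u ∈ X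
  · simp only [e3, if_true]; split_ifs <;> linarith
  have b1 := hl u e2
  simp only [X, mem_union, mem_Ico, not_or, not_and, not_lt] at e3
  have b2 : c0 ≤ u := by
    by_contra hc
    have := cnt_mono (y := y) (v := v) (show u + R ≤ c0 by omega)
    omega
  have b3 : u + r ≤ c1 := by
    by_contra hc
    have := cnt_mono (y := y) (v := v) (show u + R ≤ n by omega)
    have := cnt_mono (y := y) (v := v) (show c1 ≤ u by omega)
    omega
  rw [seg_drop b2 (by omega), hq u c1 e1 b3, if_pos rfl]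
  positivity

end Pool.Agent.H530Z.Code
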