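import Mathlib
import Pool.Agent.H530Z.CodeB

/-! The coding theorem: a measure with unbounded phases on a Markov shift has small entropy. -/

set_option autoImplicit false

open scoped ENNReal symmDiff
open Finset Pool.Agent.H953Z MeasureTheory Filter Topology

namespace Pool.Agent.H530Z.Code

def nat (x : ℤ → ℕ) : ℕ → ℕ := fun i => x i

lemma iter (n : ℕ) (x : ℤ → ℕ) (i : ℤ) : shift^[n] x i = x (i + n) := by
  induction n generalizing x with
  | zero => simp
  | succ n ih => rw [Function.iterate_succ_apply, ih]; simp [shift, add_assoc]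

variable {μ : Measure (ℤ → ℕ)}

lemma approx [IsFiniteMeasure μ] (hT : MeasurePreserving shift μ μ) {A : Type} [Fintype A]
    (f : (ℤ → ℕ) → A) (hf : MeasF f) {ε : ℝ} (hε : 0 < ε) :
    ∃ (r0 r : ℕ) (f' : List ℕ → A) (Err : Set (ℤ → ℕ)), 0 < r ∧ MeasurableSet Err ∧
      μ.real Err ≤ ε ∧ ∀ x u u', shift^[u] x ∉ Err → u + r ≤ u' →
        f' (seg (nat x) u u') = f (shift^[r0] (shift^[u] x)) := by
  classical
  have hε' : 0 < ε / (Fintype.card A + 1) := by positivity
  have h1 : ∀ a, ∃ t ∈ measurableCylinders (fun _ : ℤ => ℕ),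
      μ (t ∆ (f ⁻¹' {a})) < ENNReal.ofReal (ε / (Fintype.card A + 1)) := fun a =>
    exists_measure_symmDiff_lt_of_generateFrom_isSetRing isSetRing_measurableCylinders
      ⟨{Set.univ}, Set.countable_singleton _,
        Set.singleton_subset_iff.2 (univ_mem_measurableCylinders _), by simp⟩
      generateFrom_measurableCylinders.symm (hf a) (ENNReal.ofReal_pos.2 hε')
  choose C hC hCμ using h1
  choose s S hS hCs using fun a => (mem_measurableCylinders _).1 (hC a)
  let r0 : ℕ := (univ.biUnion s).sup Int.natAbs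
  have loc : ∀ a (z z' : ℤ → ℕ), (∀ i : ℤ, i.natAbs ≤ r0 → z i = z' i) → (z ∈ C a ↔ z' ∈ C a) := by
    intro a z z' hz
    have : (s a).restrict z = (s a).restrict z' := funext fun i =>
      hz _ (le_sup (f := Int.natAbs) (mem_biUnion.2 ⟨a, mem_univ _, i.2⟩))
    rw [hCs, mem_cylinder, mem_cylinder, this]
  have hm : MeasurableSet (⋃ a, C a ∆ (f ⁻¹' {a})) :=
    MeasurableSet.iUnion fun a => (MeasurableSet.of_mem_measurableCylinders (hC a)).symmDiff (hf a)
  let F : (ℤ → ℕ) → A := fun z => if h : ∃ a, z ∈ C a then h.choose else f z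
  refine ⟨r0, 2 * r0 + 1, fun w => F fun i => w.getD (i + r0).toNat 0,
    shift^[r0] ⁻¹' ⋃ a, C a ∆ (f ⁻¹' {a}), by omega, (hT.iterate r0).measurable hm, ?_, ?_⟩
  · rw [(hT.iterate r0).measureReal_preimage hm.nullMeasurableSet]
    refine (measureReal_iUnion_fintype_le _).trans ?_
    refine (sum_le_sum (g := fun _ => ε / (Fintype.card A + 1)) fun a _ =>
      ENNReal.toReal_le_of_le_ofReal hε'.le (hCμ a).le).trans ?_
    rw [sum_const, card_univ, nsmul_eq_mul, ← mul_div_assoc, div_le_iff₀ (by positivity)]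
    nlinarith
  · intro x u u' hx hu
    set z := shift^[r0] (shift^[u] x) with hz
    have key : ∀ a, (fun i : ℤ => (seg (nat x) u u').getD (i + r0).toNat 0) ∈ C a ↔ f z = a := by
      intro a
      rw [loc a _ z fun i hi => ?_]
      · have : z ∉ C a ∆ (f ⁻¹' {a}) := fun h => hx (Set.mem_iUnion.2 ⟨a, h⟩)
        simp only [Set.mem_symmDiff, Set.mem_preimage, Set.mem_singleton_iff] at this
        tauto
      · rw [seg_getD (by omega), hz, iter, iter, nat]
        congr 1; omega
    have he : ∃ a, (fun i : ℤ => (seg (nat x) u u').getD (i + r0).toNat 0) ∈ C a :=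
      ⟨_, (key _).2 rfl⟩
    simp only [F, dif_pos he]
    exact ((key _).1 he.choose_spec).symm

lemma meas_at (i : ℤ) (v : ℕ) : MeasurableSet {x : ℤ → ℕ | x i = v} :=
  measurableSet_eq_fun (measurable_pi_apply i) measurable_const

lemma meas_V (v : ℕ) : MeasurableSet {x : ℤ → ℕ | x 0 = v} := meas_at 0 v

lemma recur [IsProbabilityMeasure μ] (hT : Ergodic shift μ) {v : ℕ} (hv : μ {x | x 0 = v} ≠ 0) :
    ∀ᵐ x ∂μ, {i | nat x i = v}.Infinite := by
  let S : Set (ℤ → ℕ) := {x | ∃ᶠ n in atTop, shift^[n] x ∈ {x : ℤ → ℕ | x 0 = v}}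
  have hS : MeasurableSet S := by
    have : S = ⋂ a : ℕ, ⋃ b : ℕ, ⋃ _ : a ≤ b, shift^[b] ⁻¹' {x : ℤ → ℕ | x 0 = v} := by
      ext x; simp [S, frequently_atTop]
    rw [this]
    exact MeasurableSet.iInter fun a => MeasurableSet.iUnion fun b => MeasurableSet.iUnion fun _ =>
      (hT.toMeasurePreserving.iterate b).measurable (meas_V v)
  have hinv : shift ⁻¹' S = S := by
    ext x
    simp only [S, frequently_atTop, Set.mem_preimage, Set.mem_ofPred_eq]
    refine ⟨fun h a => ?_, fun h a => ?_⟩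
    · obtain ⟨b, hb, e⟩ := h a
      exact ⟨b + 1, by omega, e⟩
    · obtain ⟨b, hb, e⟩ := h (a + 1)
      obtain ⟨b, rfl⟩ : ∃ c, b = c + 1 := ⟨b - 1, by omega⟩
      exact ⟨b, by omega, e⟩
  rcases hT.ae_mem_or_ae_notMem hS hinv with h | h
  · refine h.mono fun x hx => Nat.frequently_atTop_iff_infinite.1 (hx.mono fun n hn => ?_)
    simpa [iter, nat] using hn
  · refine absurd (measure_eq_zero_iff_ae_notMem.2 ?_) hv
    filter_upwards [h, hT.toMeasurePreserving.conservative.ae_mem_imp_frequently_image_mem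
      (meas_V v).nullMeasurableSet] with x h1 h2 h3
    exact h1 (h2 h3)

lemma meas_cnt (v R : ℕ) : Measurable fun x : ℤ → ℕ => cnt (nat x) v R := by
  induction R with
  | zero => simp [cnt]
  | succ R ih =>
    simp only [cnt, Nat.count_succ]
    exact ih.add (Measurable.ite (meas_at R v) measurable_const measurable_const)

lemma lonely [IsProbabilityMeasure μ] {v : ℕ} (hrec : ∀ᵐ x ∂μ, {i | nat x i = v}.Infinite)
    (M : ℕ) {δ : ℝ} (hδ : 0 < δ) : ∃ (R : ℕ) (L : Set (ℤ → ℕ)), MeasurableSet L ∧ μ.real L ≤ δ ∧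
      ∀ x u, shift^[u] x ∉ L → cnt (nat x) v u + M ≤ cnt (nat x) v (u + R) := by
  let L : ℕ → Set (ℤ → ℕ) := fun R => {x | cnt (nat x) v R < M}
  have hL : ∀ R, MeasurableSet (L R) := fun R => measurableSet_lt (meas_cnt v R) measurable_const
  have h1 := tendsto_measure_iInter_atTop (μ := μ) (fun R => (hL R).nullMeasurableSet)
    (fun a b hab x hx => lt_of_le_of_lt (cnt_mono hab) hx) ⟨0, measure_ne_top _ _⟩
  have h2 : μ (⋂ R, L R) = 0 := by
    refine measure_eq_zero_iff_ae_notMem.2 (hrec.mono fun x hx h => ?_)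
    exact (Nat.count_nth_of_infinite hx M).not_lt
      (Set.mem_iInter.1 h (Nat.nth (fun i => nat x i = v) M))
  rw [h2] at h1
  obtain ⟨R, hR⟩ := (h1.eventually (gt_mem_nhds (ENNReal.ofReal_pos.2 hδ))).exists
  refine ⟨R, L R, hL R, ENNReal.toReal_le_of_le_ofReal hδ.le hR.le, fun x u hx => ?_⟩
  have e : nat (shift^[u] x) = fun k => nat x (u + k) := by
    funext k; simp [nat, iter, add_comm]
  have h3 : ¬ cnt (nat (shift^[u] x)) v R < M := hx
  rw [e] at h3
  simp only [cnt] at h3 ⊢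
  rw [Nat.count_add]
  omega

lemma meas_names {k n : ℕ} {q : (ℤ → ℕ) → Fin k} (hq : MeasF q) (hT : Measurable (shift (α := ℕ)))
    (w : Fin n → Fin k) : MeasurableSet {z | ∀ i : Fin n, q (shift^[(i : ℕ)] z) = w i} := by
  rw [Set.ofPred_forall]
  exact MeasurableSet.iInter fun i => hT.iterate _ (hq _)

lemma exists_n {C ρ : ℝ} (hρ : 0 < ρ) : ∃ n : ℕ, C + 2 * Real.log (n + 1) < n * ρ := by
  have h1 := Real.isLittleO_log_id_atTop.bound (show 0 < ρ / 4 by positivity)
  have h2 : Tendsto (fun n : ℕ => (n : ℝ) + 1) atTop atTop :=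
    tendsto_atTop_add_const_right _ _ tendsto_natCast_atTop_atTop
  obtain ⟨n, hn, hn'⟩ := ((h2.eventually h1).and
    (tendsto_natCast_atTop_atTop.eventually_gt_atTop ((C + ρ / 2) / (ρ / 2)))).exists
  rw [div_lt_iff₀ (by positivity)] at hn'
  rw [id, Real.norm_of_nonneg (show (0 : ℝ) ≤ n + 1 by positivity)] at hn
  have := (le_abs_self _).trans hn
  exact ⟨n, by linarith⟩

lemma exists_Lam (k : ℕ) {η : ℝ} (hη : 0 < η) :
    ∃ Λ : ℝ, 0 < Λ ∧ ex (-η) + k * ex (-η - Λ) ≤ 1 := by
  have h1 : Real.exp (-η) < 1 := Real.exp_lt_one_iff.2 (by linarith)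
  have h0 := Real.exp_pos (-η)
  have h2 : 0 < (1 - Real.exp (-η)) / (k + 1) := div_pos (by linarith) (by positivity)
  have h3 : (1 - Real.exp (-η)) / (k + 1) < 1 := by
    rw [div_lt_one (by positivity)]
    have : (0 : ℝ) ≤ k := Nat.cast_nonneg _
    linarith
  refine ⟨-Real.log ((1 - Real.exp (-η)) / (k + 1)), neg_pos.2 (Real.log_neg h2 h3), ?_⟩
  have h4 : ex (-η - -Real.log ((1 - Real.exp (-η)) / (k + 1))) ≤
      ENNReal.ofReal ((1 - Real.exp (-η)) / (k + 1)) := by
    rw [← ex_log h2]; exact ex_mono (by linarith)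
  refine le_trans (add_le_add le_rfl (mul_le_mul' le_rfl h4)) ?_
  rw [ex, ← ENNReal.ofReal_natCast, ← ENNReal.ofReal_mul (Nat.cast_nonneg _),
    ← ENNReal.ofReal_add h0.le (by positivity), ENNReal.ofReal_le_one]
  have : (k : ℝ) * ((1 - Real.exp (-η)) / (k + 1)) ≤ 1 - Real.exp (-η) := by
    rw [← mul_div_assoc, div_le_iff₀ (by positivity)]; nlinarith
  linarith

theorem thm_code : S_gibbs → S_code := by
  classical
  intro hG E h hh hL μ _ hT hP hPh k q hq
  have mp := hT.toMeasurePreserving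
  obtain ⟨v, hv⟩ : ∃ v, μ {x | x 0 = v} ≠ 0 := by
    by_contra hn
    push Not at hn
    have : (⋃ v, {x : ℤ → ℕ | x 0 = v}) = Set.univ := by ext x; simp
    have h2 := measure_iUnion_null hn
    rw [this] at h2
    simp at h2
  set V : Set (ℤ → ℕ) := {x | x 0 = v} with hV
  have a0pos : 0 < μ.real V := ENNReal.toReal_pos hv (measure_ne_top _ _)
  have hrec := recur hT hv
  have hpath : ∀ᵐ x ∂μ, ∀ i, (nat x i, nat x (i + 1)) ∈ E := by
    have hm : MeasurableSet (PathSet E) := by
      rw [PathSet, Set.ofPred_forall]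
      exact MeasurableSet.iInter fun n =>
        ((measurable_pi_apply n).prodMk (measurable_pi_apply (n + 1))) (Set.to_countable E).measurableSet
    have : ∀ᵐ x ∂μ, x ∈ PathSet E := (prob_compl_eq_zero_iff hm).2 hP
    exact this.mono fun x hx i => by simpa [nat] using hx i
  obtain ⟨a0, ha0⟩ : ∃ a0, Lp E v 1 a0 := by
    obtain ⟨x, h1, h2⟩ := (hrec.and hpath).exists
    exact ⟨_, seg_Lp h2 (Nat.nth_monotone h1 zero_le_one) (Nat.nth_mem_of_infinite h1 0)
      (Nat.nth_mem_of_infinite h1 1)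
      ((congrArg (· + 1) (Nat.count_nth_of_infinite h1 0)).trans
        (Nat.count_nth_of_infinite h1 1).symm)⟩
  obtain ⟨Q, hQ, g, hg, hg1⟩ := hPh (a0.length + 1)
  have : NeZero Q := ⟨by omega⟩
  have hQ0 : (a0.length : ZMod Q) ≠ 0 := by
    rw [Ne, ZMod.natCast_eq_zero_iff]
    intro hd
    have h1 : a0.count v ≤ a0.length := List.count_le_length
    rw [ha0.2.2] at h1
    have := Nat.le_of_dvd h1 hd
    omega
  have hadd : ∀ᵐ x ∂μ, ∀ n : ℕ, g (shift^[n] x) = g x + n := by
    have : ∀ᵐ x ∂μ, ∀ n : ℕ, g (shift (shift^[n] x)) = g (shift^[n] x) + 1 :=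
      ae_all_iff.2 fun n => (mp.iterate n).quasiMeasurePreserving.ae hg1
    refine this.mono fun x hx n => ?_
    induction n with
    | zero => simp
    | succ n ih => rw [Function.iterate_succ_apply', hx, ih]; push_cast; ring
  set γ := Real.log (1 + Real.exp (-h * a0.length) / 2) with hγ
  have γ0 : 0 < γ := Real.log_pos (by have := Real.exp_pos (-h * a0.length); linarith)
  have l2 : 0 < Real.log 2 := Real.log_pos one_lt_two
  obtain ⟨r0, m, G, Err, hm, hErr, hErrμ, hGx⟩ := approx mp g hg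
    (ε := γ * μ.real V / (4 * (γ + Real.log 2))) (by positivity)
  obtain ⟨s, QB, hQB1, hQB2⟩ := exists_QB hL G ha0 hQ0 m
  obtain ⟨W, hW1, hW0, hW⟩ := exists_W hQB1
  set M := m + s + m with hM
  have M0 : (0 : ℝ) < M := by exact_mod_cast (show 0 < M by omega)
  set ρ := γ * μ.real V / (8 * M) with hρ
  have ρ0 : 0 < ρ := by positivity
  obtain ⟨Λ, Λ0, hΛ⟩ := exists_Lam k ρ0
  obtain ⟨r1, r, q', Err', -, hErr', hErr'μ, hqx⟩ := approx mp q hq (ε := ρ / Λ) (by positivity)
  obtain ⟨R, L, hLm, hLμ, hLx⟩ := lonely hrec (2 * M) (δ := ρ / Λ) (by positivity)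
  obtain ⟨n, hn⟩ := exists_n (C := 2 * γ + Λ * (2 * R + r)) ρ0
  obtain ⟨VV, hVV1, hVV2⟩ := exists_V hW1 n
  obtain ⟨QQ, hQQ1, hQQ2⟩ := exists_names hVV1
    (fun d (u : Fin n) => q' (d.2.drop (u - d.1))) hΛ
  have fin : ∀ w, QQ w ≠ ⊤ := fun w => ne_top_of_le_ne_top ENNReal.one_ne_top
    ((single_le_sum (f := QQ) (fun _ _ => zero_le) (mem_univ w)).trans hQQ1)
  let ind : Set (ℤ → ℕ) → (ℤ → ℕ) → ℝ := fun A => A.indicator 1
  let F : (ℤ → ℕ) → ℝ := fun x => h + ρ - γ / M * ind V x +
    2 * (γ + Real.log 2) / M * ind Err x + Λ * ind Err' x + Λ * ind L x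
  have hi : ∀ A, MeasurableSet A → Integrable (ind A) μ := fun A hA =>
    (integrable_const 1).indicator hA
  have i1 := (integrable_const (μ := μ) (h + ρ)).sub ((hi V (meas_V v)).const_mul (γ / M))
  have i2 := (hi Err hErr).const_mul (2 * (γ + Real.log 2) / M)
  have i3 := (hi Err' hErr').const_mul Λ
  have i4 := (hi L hLm).const_mul Λ
  have hF : Integrable F μ := ((i1.add i2).add i3).add i4
  have hFi : ∫ x, F x ∂μ ≤ h - ρ := by
    have e : ∫ x, F x ∂μ = h + ρ - γ / M * μ.real V + 2 * (γ + Real.log 2) / M * μ.real Err +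
        Λ * μ.real Err' + Λ * μ.real L := by
      refine (integral_add' ((i1.add i2).add i3) i4).trans ?_
      rw [integral_add' (i1.add i2) i3, integral_add' i1 i2,
        integral_sub' (integrable_const _) ((hi V (meas_V v)).const_mul (γ / M))]
      simp only [integral_const_mul, ind, integral_indicator_one, hErr, hErr', hLm, meas_V v, hV]
      simp
    have b1 : 2 * (γ + Real.log 2) / M * μ.real Err ≤ 4 * ρ := by
      refine (mul_le_mul_of_nonneg_left hErrμ (by positivity)).trans (le_of_eq ?_)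
      rw [hρ]; field_simp; ring
    have b2 : Λ * μ.real Err' ≤ ρ := by rwa [le_div_iff₀' Λ0] at hErr'μ
    have b3 : Λ * μ.real L ≤ ρ := by rwa [le_div_iff₀' Λ0] at hLμ
    have b4 : γ / M * μ.real V = 8 * ρ := by rw [hρ]; field_simp
    linarith
  have hFu : ∀ u : ℕ, Integrable (fun x => F (shift^[u] x)) μ := fun u =>
    (mp.iterate u).integrable_comp_of_integrable hF
  let Y : (ℤ → ℕ) → Fin n → Fin k := fun x u => q (shift^[r1] (shift^[(u : ℕ)] x))
  have hY : ∀ w, Y ⁻¹' {w} = shift^[r1] ⁻¹' {z | ∀ i : Fin n, q (shift^[(i : ℕ)] z) = w i} := by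
    intro w
    ext x
    simp only [Y, Set.mem_preimage, Set.mem_singleton_iff, funext_iff, Set.mem_ofPred_eq,
      ← Function.iterate_add_apply, add_comm]
  have main := hG (ℤ → ℕ) (Fin n → Fin k) μ Y (fun w => (QQ w).toReal)
    (fun x => 2 * γ + Λ * (2 * R + r) + 2 * Real.log (n + 1) + ∑ u ∈ range n, F (shift^[u] x))
    (fun w => by rw [hY]; exact (mp.iterate r1).measurable (meas_names hq mp.measurable w))
    (fun _ => ENNReal.toReal_nonneg)
    (by rw [← ENNReal.toReal_sum fun w _ => fin w]; exact ENNReal.toReal_le_of_le_ofReal zero_le_one (by simpa using hQQ1))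
    ((integrable_const _).add (integrable_finsetSum _ fun u _ => hFu u))
    (by
      filter_upwards [hrec, hpath, hadd] with x h1 h2 h3
      obtain ⟨c0, c1, j, b1, b2, b3, b4, b5, b6⟩ := word h2 h1 hh.le hm γ0.le hQB2 hW0 hW
        (err := fun u => shift^[u] x ∈ Err) (c := g x + r0) (fun u u' e1 e2 => by
          rw [hGx x u u' e1 e2, ← Function.iterate_add_apply, h3]; push_cast; ring) n
      have b7 := mism (n := n) (nm := fun u => q (shift^[r1] (shift^[u] x)))
        (err' := fun u => shift^[u] x ∈ Err') (lone := fun u => shift^[u] x ∈ L) b4 b5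
        (hqx x) (hLx x) Λ0.le
      have b8 := hQQ2 (c0, seg (nat x) c0 c1) (Y x)
      refine (ENNReal.ofReal_le_iff_le_toReal (fin _)).1 (le_trans ?_ b8)
      refine le_trans ?_ (mul_le_mul' (le_trans (mul_le_mul' le_rfl b6)
        (hVV2 j b3 c0 (b1.trans b2) _)) le_rfl)
      rw [← ex_add, ← ex_add]
      refine ex_mono ?_
      have e1 : ∑ u ∈ range n, F (shift^[u] x) = n * (h + ρ) - γ / M * cnt (nat x) v n +
          2 * (γ + Real.log 2) / M * (∑ u ∈ range n, if shift^[u] x ∈ Err then 1 else 0) +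
          ∑ u ∈ range n, (Λ * (if shift^[u] x ∈ Err' then 1 else 0) +
            Λ * (if shift^[u] x ∈ L then 1 else 0)) := by
        have e0 : ∑ u ∈ range n, ind V (shift^[u] x) = cnt (nat x) v n := by
          rw [cnt_eq]
          refine sum_congr rfl fun u _ => ?_
          by_cases e : x u = v <;> simp [ind, hV, iter, nat, e]
        simp only [F, sum_add_distrib, sum_sub_distrib, ← mul_sum, e0]
        simp only [ind, Set.indicator_apply, Pi.one_apply, sum_const, card_range, nsmul_eq_mul]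
        ring
      rw [e1, sum_sub_distrib, sum_const, card_univ, Fintype.card_fin, nsmul_eq_mul]
      simp only [Y]
      linarith)
  refine ⟨n, lt_of_le_of_lt (le_trans (le_of_eq ?_) main) ?_⟩
  · refine sum_congr rfl fun w _ => ?_
    rw [hY, (mp.iterate r1).measure_preimage (meas_names hq mp.measurable w).nullMeasurableSet]
  · rw [integral_add (integrable_const _) (integrable_finsetSum _ fun u _ => hFu u),
      integral_finsetSum _ fun u _ => hFu u]
    have e : ∀ u ∈ range n, ∫ x, F (shift^[u] x) ∂μ = ∫ x, F x ∂μ := fun u _ => by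
      rw [← integral_map (mp.iterate u).measurable.aemeasurable
        (by rw [(mp.iterate u).map_eq]; exact hF.1), (mp.iterate u).map_eq]
    rw [sum_congr rfl e, sum_const, card_range, nsmul_eq_mul]
    have := mul_le_mul_of_nonneg_left hFi (Nat.cast_nonneg (α := ℝ) n)
    simp only [integral_const, probReal_univ, smul_eq_mul, one_mul]
    linarith

end Pool.Agent.H530Z.Code
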