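import Pool.Agent.H191Z.XDefs

set_option autoImplicit false
set_option backward.isDefEq.respectTransparency false
set_option linter.style.haveILetI false

universe u

open CategoryTheory AlgebraicGeometry TensorProduct Limits

namespace Pool.Agent.H530Z.FD

open Pool.Agent.H191Z.Gerbe

section alg
variable {A B C : Type} [CommRing A] [CommRing B] [CommRing C] [Algebra A B] [Algebra A C]

/-- the multiplication map out of the tensor product -/
noncomputable def mu {D : Type} [CommRing D] [Algebra A D] (j : B →ₐ[A] C) (i : D →ₐ[A] C) :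
    B ⊗[A] D →ₐ[A] C :=
  Algebra.TensorProduct.lift j i (fun _ _ => Commute.all _ _)

theorem mu_tmul {D : Type} [CommRing D] [Algebra A D] (j : B →ₐ[A] C) (i : D →ₐ[A] C) (b : B)
    (d : D) : mu j i (b ⊗ₜ d) = j b * i d := rfl

theorem mu_left {D : Type} [CommRing D] [Algebra A D] (j : B →ₐ[A] C) (i : D →ₐ[A] C) :
    (mu j i).comp Algebra.TensorProduct.includeLeft = j := by
  ext b; simp [mu_tmul]

theorem mu_right {D : Type} [CommRing D] [Algebra A D] (j : B →ₐ[A] C) (i : D →ₐ[A] C) :
    (mu j i).comp Algebra.TensorProduct.includeRight = i := by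
  ext b; simp [mu_tmul]

theorem amitsur [Module.Flat A B] (j : B →ₐ[A] C) (ρ : C →ₐ[A] B ⊗[A] C)
    (hj : ρ.comp j = Algebra.TensorProduct.includeLeft)
    (hc : (mu j (AlgHom.id A C)).comp ρ = AlgHom.id A C)
    (ha : (Algebra.TensorProduct.map (AlgHom.id A B) ρ).comp ρ =
      (Algebra.TensorProduct.map (AlgHom.id A B)
        (Algebra.TensorProduct.includeRight : C →ₐ[A] B ⊗[A] C)).comp ρ) :
    Function.Bijective (mu j (AlgHom.equalizer ρ
      (Algebra.TensorProduct.includeRight : C →ₐ[A] B ⊗[A] C)).val) := by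
  set inR : C →ₐ[A] B ⊗[A] C := Algebra.TensorProduct.includeRight with hinR
  have e1 : ∀ x, ρ (mu j (AlgHom.equalizer ρ inR).val x) =
      Algebra.TensorProduct.map (AlgHom.id A B) (AlgHom.equalizer ρ inR).val x := by
    intro x
    induction x with
    | zero => simp
    | add x y hx hy => simp only [map_add, hx, hy]
    | tmul b d =>
      have h1 : ρ (j b) = b ⊗ₜ 1 := congrArg (fun f => f b) hj
      have h2 : ρ d.1 = 1 ⊗ₜ d.1 := d.2
      rw [mu_tmul, map_mul, h1]
      simp [h2]
  have e2 : ∀ x, mu j (AlgHom.id A C)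
      (Algebra.TensorProduct.map (AlgHom.id A B) (AlgHom.equalizer ρ inR).val x) =
      mu j (AlgHom.equalizer ρ inR).val x := by
    intro x
    induction x with
    | zero => simp
    | add x y hx hy => simp only [map_add, hx, hy]
    | tmul b d => simp [mu_tmul]
  constructor
  · intro x y h
    have h1 := congrArg ρ h
    rw [e1, e1, ← AlgHom.coe_tensorEqualizer A B, ← AlgHom.coe_tensorEqualizer A B] at h1
    exact (AlgHom.tensorEqualizerEquiv A B ρ inR).injective (Subtype.ext h1)
  · intro c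
    obtain ⟨x, hx⟩ := (AlgHom.tensorEqualizerEquiv A B ρ inR).surjective
      ⟨ρ c, (AlgHom.mem_equalizer _ _ _).mpr (DFunLike.congr_fun ha c)⟩
    refine ⟨x, ?_⟩
    have h1 : Algebra.TensorProduct.map (AlgHom.id A B) (AlgHom.equalizer ρ inR).val x = ρ c := by
      rw [← AlgHom.coe_tensorEqualizer A B]
      exact congrArg Subtype.val hx
    rw [← e2, h1]
    exact congrArg (fun f => f c) hc

theorem finite_descent [Module.FaithfullyFlat A B] {D : Type} [CommRing D] [Algebra A D]
    (j : B →ₐ[A] C) (i : D →ₐ[A] C) (hb : Function.Bijective (mu j i))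
    (hj : j.toRingHom.Finite) : Module.Finite A D := by
  letI : Algebra B C := j.toRingHom.toAlgebra
  have : Module.Finite B C := hj
  let l : B ⊗[A] D →ₗ[B] C :=
    { toFun := mu j i
      map_add' := map_add _
      map_smul' := fun b x => by
        have : b • x = (b ⊗ₜ[A] (1 : D)) * x := by
          rw [Algebra.smul_def]; rfl
        rw [this, map_mul, mu_tmul, map_one, mul_one]
        rfl }
  have : Module.Finite B (B ⊗[A] D) := Module.Finite.equiv (LinearEquiv.ofBijective l hb).symm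
  exact Module.Finite.of_finite_tensorProduct_of_faithfullyFlat B

end alg

section sp
variable {k : Type} [Field k] {S : Sch k} {A : Type} [CommRing A]
  (ε : Spec (CommRingCat.of A) ≅ S.left)

/-- the spectrum of an `A`-algebra as a `k`-scheme -/
noncomputable def Sp (D : Type) [CommRing D] [Algebra A D] : Sch k :=
  Over.mk (Spec.map (CommRingCat.ofHom (algebraMap A D)) ≫ ε.hom ≫ S.hom)

/-- the structure morphism -/
noncomputable def str (D : Type) [CommRing D] [Algebra A D] : Sp ε D ⟶ S :=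
  Over.homMk (Spec.map (CommRingCat.ofHom (algebraMap A D)) ≫ ε.hom) (by
    change (_ ≫ _) ≫ _ = _ ≫ _ ≫ _
    rw [Category.assoc])

variable {D E F : Type} [CommRing D] [Algebra A D] [CommRing E] [Algebra A E] [CommRing F]
  [Algebra A F]

theorem spec_alg (f : D →ₐ[A] E) :
    Spec.map (CommRingCat.ofHom f.toRingHom) ≫ Spec.map (CommRingCat.ofHom (algebraMap A D)) =
      Spec.map (CommRingCat.ofHom (algebraMap A E)) := by
  rw [← Spec.map_comp, ← CommRingCat.ofHom_comp]
  congr 2
  exact f.comp_algebraMap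

/-- the map of spectra -/
noncomputable def Sm (f : D →ₐ[A] E) : Sp ε E ⟶ Sp ε D :=
  Over.homMk (Spec.map (CommRingCat.ofHom f.toRingHom)) (by
    change Spec.map _ ≫ Spec.map _ ≫ _ = Spec.map _ ≫ _
    rw [← Category.assoc, spec_alg])

theorem Sm_left (f : D →ₐ[A] E) :
    (Sm ε f).left = Spec.map (CommRingCat.ofHom f.toRingHom) := rfl

theorem str_left : (str ε D).left = Spec.map (CommRingCat.ofHom (algebraMap A D)) ≫ ε.hom := rfl

theorem Sm_str (f : D →ₐ[A] E) : Sm ε f ≫ str ε D = str ε E := by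
  ext1
  change Spec.map _ ≫ Spec.map _ ≫ _ = Spec.map _ ≫ _
  rw [← Category.assoc, spec_alg]

theorem Sm_comp (f : D →ₐ[A] E) (g : E →ₐ[A] F) : Sm ε g ≫ Sm ε f = Sm ε (g.comp f) := by
  ext1
  change Spec.map _ ≫ Spec.map _ = Spec.map _
  rw [← Spec.map_comp]
  rfl

theorem Sm_id : Sm ε (AlgHom.id A D) = 𝟙 _ := by
  ext1
  exact Spec.map_id _

theorem Sm_inj {f g : D →ₐ[A] E} (h : Sm ε f = Sm ε g) : f = g := by
  have h1 : Spec.map (CommRingCat.ofHom f.toRingHom) = Spec.map (CommRingCat.ofHom g.toRingHom) :=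
    congrArg (fun m => m.left) h
  have h2 := Spec.map_injective h1
  ext x
  exact congrArg (fun m => m.hom x) h2

theorem Sm_surj (m : Sp ε E ⟶ Sp ε D) (hm : m ≫ str ε D = str ε E) : ∃ f, Sm ε f = m := by
  obtain ⟨φ, hφ⟩ := Spec.map_surjective (R := CommRingCat.of D) (S := CommRingCat.of E) m.left
  have hw : m.left ≫ Spec.map (CommRingCat.ofHom (algebraMap A D)) ≫ ε.hom =
      Spec.map (CommRingCat.ofHom (algebraMap A E)) ≫ ε.hom := congrArg (fun m => m.left) hm
  rw [← Category.assoc, cancel_mono, ← hφ, ← Spec.map_comp] at hw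
  have h2 := Spec.map_injective hw
  refine ⟨⟨φ.hom, fun r => congrArg (fun m => m.hom r) h2⟩, ?_⟩
  ext1
  exact hφ

theorem isPullback_tens :
    IsPullback (Sm ε (Algebra.TensorProduct.includeLeft : D →ₐ[A] D ⊗[A] E)).left
      (Sm ε (Algebra.TensorProduct.includeRight : E →ₐ[A] D ⊗[A] E)).left
      (str ε D).left (str ε E).left := by
  have h := isPullback_SpecMap_of_isPushout _ _ _ _ (CommRingCat.isPushout_tensorProduct A D E)
  refine h.of_iso (Iso.refl _) (Iso.refl _) (Iso.refl _) ε ?_ ?_ ?_ ?_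
  · exact (Category.comp_id _).trans (Category.id_comp _).symm
  · exact (Category.comp_id _).trans (Category.id_comp _).symm
  · exact (Category.id_comp _).symm
  · exact (Category.id_comp _).symm

theorem isPullback_mu (j : D →ₐ[A] F) (i : E →ₐ[A] F) (hb : Function.Bijective (mu j i)) :
    IsPullback (Sm ε j).left (Sm ε i).left (str ε D).left (str ε E).left := by
  have : IsIso (CommRingCat.ofHom (mu j i).toRingHom) :=
    (ConcreteCategory.isIso_iff_bijective _).mpr hb
  have : IsIso (Sm ε (mu j i)).left := by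
    rw [Sm_left]; infer_instance
  refine (isPullback_tens ε (D := D) (E := E)).of_iso (asIso (Sm ε (mu j i)).left).symm
    (Iso.refl _) (Iso.refl _) (Iso.refl _) ?_ ?_ (by simp) (by simp)
  · simp only [Iso.refl_hom, Category.comp_id, Iso.symm_hom, asIso_inv, IsIso.eq_inv_comp]
    rw [← Over.comp_left, Sm_comp, mu_left]
  · simp only [Iso.refl_hom, Category.comp_id, Iso.symm_hom, asIso_inv, IsIso.eq_inv_comp]
    rw [← Over.comp_left, Sm_comp, mu_right]

theorem exists_Sp {T : Sch k} [IsAffine T.left] (g : T ⟶ S) :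
    ∃ (D : Type) (_ : CommRing D) (_ : Algebra A D) (e : Sp ε D ≅ T), e.hom ≫ g = str ε D := by
  obtain ⟨φ, hφ⟩ := Spec.map_surjective (R := CommRingCat.of A) (S := Γ(T.left, ⊤))
    (T.left.isoSpec.inv ≫ g.left ≫ ε.inv)
  letI : Algebra A Γ(T.left, ⊤) := φ.hom.toAlgebra
  refine ⟨Γ(T.left, ⊤), inferInstance, inferInstance, Over.isoMk T.left.isoSpec.symm ?_, ?_⟩
  · change T.left.isoSpec.inv ≫ T.hom = Spec.map φ ≫ ε.hom ≫ S.hom
    rw [hφ, ← Over.w g]
    simp
  · ext1
    change T.left.isoSpec.inv ≫ g.left = Spec.map φ ≫ ε.hom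
    rw [hφ]
    simp

end sp

/-- lifting through a pullback square of underlying schemes -/
theorem over_lift {k : Type} [Field k] {P X Z W : Sch k} {f : P ⟶ X} {g : P ⟶ Z} {p : X ⟶ W}
    {q : Z ⟶ W} (h : IsPullback f.left g.left p.left q.left) {V : Sch k} (a : V ⟶ X) (b : V ⟶ Z)
    (e : a ≫ p = b ≫ q) : ∃ l : V ⟶ P, l ≫ f = a ∧ l ≫ g = b := by
  refine ⟨Over.homMk (h.lift a.left b.left (congrArg (fun m => m.left) e)) ?_, ?_, ?_⟩
  · rw [← Over.w f, IsPullback.lift_fst_assoc, Over.w a]
  · ext1; exact IsPullback.lift_fst _ _ _ _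
  · ext1; exact IsPullback.lift_snd _ _ _ _

theorem over_ext {k : Type} [Field k] {P X Z W : Sch k} {f : P ⟶ X} {g : P ⟶ Z} {p : X ⟶ W}
    {q : Z ⟶ W} (h : IsPullback f.left g.left p.left q.left) {V : Sch k} {l l' : V ⟶ P}
    (e1 : l ≫ f = l' ≫ f) (e2 : l ≫ g = l' ≫ g) : l = l' := by
  ext1
  exact h.hom_ext (congrArg (fun m => m.left) e1) (congrArg (fun m => m.left) e2)

end Pool.Agent.H530Z.FD
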