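import Pool.Agent.H530Z.FDAlg

set_option autoImplicit false
set_option backward.isDefEq.respectTransparency false
set_option linter.style.haveILetI false

universe u

open CategoryTheory AlgebraicGeometry TensorProduct Limits

namespace Pool.Agent.H530Z.FD

open Pool.Agent.H191Z.Gerbe

variable {k : Type} [Field k]

theorem bot_mem {V : Sch k} [IsEmpty V.left] : (⊥ : Sieve V) ∈ fpqc k V := by
  rw [fpqc, GrothendieckTopology.mem_over_iff]
  exact GrothendieckTopology.superset_covering _ bot_le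
    (Scheme.bot_mem_propQCTopology (P := @Flat) V.left)

/-- the disjoint union of a family of `k`-schemes -/
noncomputable def Sig {ι : Type} (T : ι → Sch k) : Sch k :=
  Over.mk (Sigma.desc (fun i => (T i).hom) : (∐ fun i => (T i).left) ⟶ _)

/-- the inclusion of a summand -/
noncomputable def inc {ι : Type} (T : ι → Sch k) (i : ι) : T i ⟶ Sig T :=
  Over.homMk (Sigma.ι (fun i => (T i).left) i) (Sigma.ι_desc _ _)

/-- the map out of the disjoint union -/
noncomputable def dsc {ι : Type} {T : ι → Sch k} {W : Sch k} (f : ∀ i, T i ⟶ W) : Sig T ⟶ W :=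
  Over.homMk (Sigma.desc (fun i => (f i).left)) (by
    refine Sigma.hom_ext _ _ fun i => ?_
    change Sigma.ι _ i ≫ Sigma.desc _ ≫ _ = Sigma.ι _ i ≫ Sigma.desc _
    rw [Sigma.ι_desc_assoc, Sigma.ι_desc, Over.w])

theorem inc_dsc {ι : Type} {T : ι → Sch k} {W : Sch k} (f : ∀ i, T i ⟶ W) (i : ι) :
    inc T i ≫ dsc f = f i := by
  ext1
  exact Sigma.ι_desc _ _

theorem inc_mem {ι : Type} (T : ι → Sch k) :
    Sieve.generate (Presieve.ofArrows T (inc T)) ∈ fpqc k (Sig T) := by
  rw [fpqc, GrothendieckTopology.mem_over_iff]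
  refine GrothendieckTopology.superset_covering _ ?_
    (Scheme.zariskiTopology_le_fpqcTopology _
      (sigmaOpenCover (fun i => (T i).left)).mem_grothendieckTopology)
  rw [Sieve.ofArrows, Sieve.generate_le_iff]
  rintro _ _ ⟨i⟩
  rw [Sieve.overEquiv_iff]
  refine ⟨T i, Over.homMk (𝟙 _) ?_, inc T i, Presieve.ofArrows.mk i, ?_⟩
  · exact (Category.id_comp _).trans (Over.w (inc T i)).symm
  · ext1
    exact Category.id_comp _

theorem glue_sigma {Y : CatOver.{u} (Sch k)} (hY : Y.IsStack (fpqc k)) {ι : Type}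
    {T : ι → Sch k} {U : Sch k} {u : Y.Obj U} (x : Y.Obj (Sig T)) (z : ∀ i, Y.Obj (T i))
    (c : ∀ i, Y.Hom (z i) x) (hc : ∀ i, Y.base (c i) = inc T i) (d : ∀ i, Y.Hom (z i) u) :
    Nonempty (Y.Hom x u) := by
  obtain ⟨u', δ, hδ⟩ := hY.fibered.exists_lift (dsc fun i => Y.base (d i)) u
  have h1 : ∀ i, ∃ d' : Y.Hom (z i) u', Y.base d' = inc T i ∧ Y.comp d' δ = d i := fun i =>
    hY.fibered.exists_fill (d i) δ (inc T i) (by rw [hδ, inc_dsc])
  choose d' hd' _ using h1
  have W : ∀ {V : Sch k} {w : Y.Obj V} (i j : ι) (b : Y.Hom w (z i)) (b' : Y.Hom w (z j)),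
      Y.comp b (c i) = Y.comp b' (c j) → Y.comp b (d' i) = Y.comp b' (d' j) := by
    intro V w i j b b' h
    have hb : Y.base b ≫ inc T i = Y.base b' ≫ inc T j := by
      have := congrArg Y.base h
      simpa [hc] using this
    by_cases hij : i = j
    · subst hij
      have : Y.base b = Y.base b' := by
        ext1
        have h2 : (Y.base b).left ≫ Sigma.ι (fun i => (T i).left) i =
          (Y.base b').left ≫ Sigma.ι (fun i => (T i).left) i := congrArg (fun m => m.left) hb
        exact (cancel_mono _).mp h2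
      rw [hY.fibered.ext (c i) this h]
    · have : IsEmpty V.left :=
        isEmpty_of_commSq_sigmaι_of_ne (g := fun i => (T i).left)
          ⟨congrArg (fun m => m.left) hb⟩ hij
      refine hY.ext_of_cover ⊥ bot_mem (by simp [hd', hb]) ?_
      intro V' z' a ha
      exact ha.elim
  have key : ∀ {V : Sch k} {w : Y.Obj V} (a : Y.Hom w x),
      InSieve (Sieve.generate (Presieve.ofArrows T (inc T))) (Y.base a) →
      ∃ (i : ι) (b : Y.Hom w (z i)), Y.comp b (c i) = a := by
    intro V w a ha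
    obtain ⟨Z, g, f, hf, e⟩ := inSieve_iff.1 ha
    obtain ⟨i⟩ := hf
    obtain ⟨b, -, hb2⟩ := hY.fibered.exists_fill a (c i) g (by rw [hc, e])
    exact ⟨i, b, hb2⟩
  choose i b hb using @key
  obtain ⟨ψ, -, -⟩ := hY.glue_hom _ (inc_mem T) x u' (fun a ha => Y.comp (b a ha) (d' _))
    (fun a ha => by
      conv_rhs => rw [← hb a ha]
      simp [hc, hd'])
    (fun b' a ha hba => by
      rw [← Y.assoc]
      apply W
      rw [hb, Y.assoc, hb])
  exact ⟨Y.comp ψ δ⟩

/-- a covering sieve of an affine scheme contains a finite jointly surjective family of flat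
maps from affine schemes -/
theorem exists_finite_cover {S : Sch k} [IsAffine S.left] {V : Sieve S} (hV : V ∈ fppf k S) :
    ∃ (ι : Type) (_ : Finite ι) (T : ι → Sch k) (f : ∀ i, T i ⟶ S),
      (∀ i, IsAffine (T i).left) ∧ (∀ i, V (f i)) ∧ Flat (dsc f).left ∧
        Surjective (dsc f).left := by
  have h1 : ∀ s : S.left, ∃ (T : Sch k) (f : T ⟶ S), IsAffine T.left ∧ V f ∧ Flat f.left ∧
      IsOpen (Set.range f.left) ∧ s ∈ Set.range f.left := by
    intro s
    obtain ⟨T, f, hf, hfl, hlf, y, hy⟩ := exists_of_mem_fppf hV s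
    obtain ⟨i, y', hy'⟩ := T.left.affineCover.exists_eq y
    let T' : Sch k := Over.mk (T.left.affineCover.f i ≫ T.hom)
    let g : T' ⟶ T := Over.homMk (T.left.affineCover.f i)
    have hg : (g ≫ f).left = T.left.affineCover.f i ≫ f.left := rfl
    refine ⟨T', g ≫ f, inferInstanceAs (IsAffine (T.left.affineCover.X i)),
      V.downward_closed hf g, ?_, ?_, y', ?_⟩
    · rw [hg]; infer_instance
    · rw [hg]
      exact (T.left.affineCover.f i ≫ f.left).isOpenMap.isOpen_range
    · rw [hg, Scheme.Hom.comp_apply]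
      exact (congrArg f.left hy').trans hy
  choose T f hT hf hfl ho hs using h1
  obtain ⟨t, ht⟩ := isCompact_univ.elim_finite_subcover (fun s => Set.range (f s).left) ho
    (fun s _ => Set.mem_iUnion.mpr ⟨s, hs s⟩)
  refine ⟨t, inferInstance, fun i => T i.1, fun i => f i.1, fun i => hT _, fun i => hf _, ?_, ?_⟩
  · have : ∀ i : t, Flat (f i.1).left := fun i => hfl _
    exact inferInstanceAs (Flat (Sigma.desc fun i : t => (f i.1).left))
  · refine Surjective.sigmaDesc_of_union_range_eq_univ (f := fun i : t => (f i.1).left) ?_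
    refine Set.eq_univ_of_forall fun s => ?_
    obtain ⟨i, hi, h⟩ := Set.mem_iUnion₂.mp (ht (Set.mem_univ s))
    exact Set.mem_iUnion.mpr ⟨⟨i, hi⟩, h⟩

theorem exists_cover {Y : CatOver.{u} (Sch k)} (hY : Y.IsStack (fpqc k)) {U : Sch k}
    {u : Y.Obj U}
    (hloc : ∀ {S : Sch k} (x : Y.Obj S), ∃ V ∈ fppf k S, ∀ {T : Sch k} (f : T ⟶ S), InSieve V f →
      ∃ (z : Y.Obj T) (c : Y.Hom z x), Y.base c = f ∧ Nonempty (Y.Hom z u))
    {S : Sch k} [IsAffine S.left] (x y : Y.Obj S) :
    ∃ (T : Sch k) (π : T ⟶ S), IsAffine T.left ∧ Flat π.left ∧ Surjective π.left ∧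
      (∀ (x' : Y.Obj T) (c : Y.Hom x' x), Y.base c = π → Nonempty (Y.Hom x' u)) ∧
      (∀ (y' : Y.Obj T) (c : Y.Hom y' y), Y.base c = π → Nonempty (Y.Hom y' u)) := by
  obtain ⟨V₁, h₁, H₁⟩ := hloc x
  obtain ⟨V₂, h₂, H₂⟩ := hloc y
  obtain ⟨ι, _, T, f, hT, hf, hfl, hs⟩ :=
    exists_finite_cover ((fppf k).intersection_covering h₁ h₂)
  have aux : ∀ (x : Y.Obj S), (∀ i, ∃ (z : Y.Obj (T i)) (c : Y.Hom z x), Y.base c = f i ∧
      Nonempty (Y.Hom z u)) → ∀ (x' : Y.Obj (Sig T)) (c : Y.Hom x' x), Y.base c = dsc f →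
      Nonempty (Y.Hom x' u) := by
    intro x H x' c hc
    choose z a ha d using H
    have h1 : ∀ i, ∃ c' : Y.Hom (z i) x', Y.base c' = inc T i ∧ Y.comp c' c = a i := fun i =>
      hY.fibered.exists_fill (a i) c (inc T i) (by rw [hc, inc_dsc, ha])
    choose c' hc' _ using h1
    exact glue_sigma hY x' z c' hc' (fun i => (d i).some)
  exact ⟨Sig T, dsc f, inferInstanceAs (IsAffine (∐ fun i => (T i).left)), hfl, hs,
    aux x fun i => H₁ _ (inSieve_iff.2 (hf i).1), aux y fun i => H₂ _ (inSieve_iff.2 (hf i).2)⟩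

/-- the sheaf of isomorphisms between objects mapping to `u` is finite -/
theorem isom_local {Y : CatOver.{u} (Sch k)} (hY : Y.IsFiberedInGroupoids) {U R : Sch k}
    {u : Y.Obj U} {r : Y.Obj R} (s t : Y.Hom r u) (hU : IsFinite U.hom) (hR : IsFinite R.hom)
    (hr : ∀ {T : Sch k} {z : Y.Obj T} (a b : Y.Hom z u),
      ∃! h : Y.Hom z r, Y.comp h s = a ∧ Y.comp h t = b)
    {T : Sch k} {x y : Y.Obj T} (p : Y.Hom x u) (q : Y.Hom y u) :
    ∃ (P : Sch k) (z : Y.Obj P) (a : Y.Hom z x) (b : Y.Hom z y),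
      IsFinite (Y.base a).left ∧ Y.IsIsom a b := by
  let st : R.left ⟶ pullback U.hom U.hom :=
    pullback.lift (Y.base s).left (Y.base t).left (by rw [Over.w, Over.w])
  let ab : T.left ⟶ pullback U.hom U.hom :=
    pullback.lift (Y.base p).left (Y.base q).left (by rw [Over.w, Over.w])
  have hst : IsFinite st := by
    have : IsFinite (st ≫ pullback.fst U.hom U.hom ≫ U.hom) := by
      rw [pullback.lift_fst_assoc, Over.w]
      infer_instance
    exact IsFinite.of_comp st (pullback.fst U.hom U.hom ≫ U.hom)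
  let P : Sch k := Over.mk (pullback.snd st ab ≫ T.hom)
  let π : P ⟶ T := Over.homMk (pullback.snd st ab)
  have e1 : pullback.fst st ab ≫ (Y.base s).left = pullback.snd st ab ≫ (Y.base p).left := by
    have := pullback.condition (f := st) (g := ab) =≫ pullback.fst _ _
    simpa [st, ab, pullback.lift_fst] using this
  have e2 : pullback.fst st ab ≫ (Y.base t).left = pullback.snd st ab ≫ (Y.base q).left := by
    have := pullback.condition (f := st) (g := ab) =≫ pullback.snd _ _
    simpa [st, ab, pullback.lift_snd] using this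
  let ρ : P ⟶ R := Over.homMk (pullback.fst st ab) (by
    change _ = pullback.snd st ab ≫ T.hom
    rw [← Over.w (Y.base s), reassoc_of% e1, Over.w])
  have f1 : ρ ≫ Y.base s = π ≫ Y.base p := by ext1; exact e1
  have f2 : ρ ≫ Y.base t = π ≫ Y.base q := by ext1; exact e2
  obtain ⟨z, γ, hγ⟩ := hY.exists_lift ρ r
  obtain ⟨a, ha, ha'⟩ := hY.exists_fill (Y.comp γ s) p π (by simp [hγ, f1])
  obtain ⟨b, hb, hb'⟩ := hY.exists_fill (Y.comp γ t) q π (by simp [hγ, f2])
  refine ⟨P, z, a, b, ?_, ha.trans hb.symm, ?_⟩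
  · rw [ha]
    exact inferInstanceAs (IsFinite (pullback.snd st ab))
  · intro V w α β hαβ
    obtain ⟨η, ⟨h1, h2⟩, hu⟩ := hr (Y.comp α p) (Y.comp β q)
    have g1 : (Y.base η).left ≫ (Y.base s).left = (Y.base α).left ≫ (Y.base p).left := by
      rw [← Over.comp_left, ← Over.comp_left, ← Y.base_comp, h1, Y.base_comp]
    have g2 : (Y.base η).left ≫ (Y.base t).left = (Y.base α).left ≫ (Y.base q).left := by
      rw [← Over.comp_left, ← Over.comp_left, ← Y.base_comp, h2, Y.base_comp, hαβ]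
    let l : V ⟶ P := Over.homMk (pullback.lift (Y.base η).left (Y.base α).left (by
      apply pullback.hom_ext <;> simp [st, ab, g1, g2, pullback.lift_fst, pullback.lift_snd])) (by
        change _ ≫ pullback.snd st ab ≫ T.hom = _
        rw [pullback.lift_snd_assoc, Over.w])
    have l1 : l ≫ ρ = Y.base η := by ext1; exact pullback.lift_fst _ _ _
    have l2 : l ≫ π = Y.base α := by ext1; exact pullback.lift_snd _ _ _
    obtain ⟨h, hh, hh'⟩ := hY.exists_fill η γ l (by rw [hγ, l1])
    refine ⟨h, ⟨?_, ?_⟩, ?_⟩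
    · exact hY.ext p (by simp [hh, ha, l2]) (by rw [Y.assoc, ha', ← Y.assoc, hh', h1])
    · exact hY.ext q (by simp [hh, hb, l2, hαβ]) (by rw [Y.assoc, hb', ← Y.assoc, hh', h2])
    · rintro h' ⟨k1, k2⟩
      have k3 : Y.comp h' γ = η := hu _ ⟨by rw [Y.assoc, ← ha', ← Y.assoc, k1],
        by rw [Y.assoc, ← hb', ← Y.assoc, k2]⟩
      refine hY.ext γ ?_ (by rw [k3, hh'])
      rw [hh]
      have m1 : Y.base h' ≫ ρ = l ≫ ρ := by rw [l1, ← k3, Y.base_comp, hγ]
      have m2 : Y.base h' ≫ π = l ≫ π := by rw [l2, ← k1, Y.base_comp, ha]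
      ext1
      exact pullback.hom_ext (congrArg (fun m => m.left) m1) (congrArg (fun m => m.left) m2)

end Pool.Agent.H530Z.FD
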