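import Mathlib

set_option autoImplicit false

namespace Pool.Agent.H530Z.Indep

/-- The Zariski topology of an abelian group: the solution sets of the equations `n • x = g`
form a subbase of closed sets, i.e. their complements generate the topology. -/
def zariskiTop (G : Type) [AddCommGroup G] : TopologicalSpace G :=
  TopologicalSpace.generateFrom {U | ∃ (n : ℤ) (g : G), U = {x | n • x = g}ᶜ}

/-- `U` is open in the cofinite topology. -/
def CofOpen {X : Type} (U : Set X) : Prop := U = ∅ ∨ Uᶜ.Finite

/-- The Zariski topology of `G` is the cofinite topology. -/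
def ZCofinite (G : Type) [AddCommGroup G] : Prop :=
  ∀ U : Set G, @IsOpen G (zariskiTop G) U ↔ CofOpen U

/-- `τ` is a Hausdorff group topology on `G`. -/
def HausdorffGroupTop (G : Type) [AddCommGroup G] (τ : TopologicalSpace G) : Prop :=
  @IsTopologicalAddGroup G τ _ ∧ @T2Space G τ

/-- The sets open in both topologies are exactly the sets open in the cofinite topology. -/
def Independent {X : Type} (τ₁ τ₂ : TopologicalSpace X) : Prop :=
  ∀ U : Set X, (@IsOpen X τ₁ U ∧ @IsOpen X τ₂ U) ↔ CofOpen U

end Pool.Agent.H530Z.Indep
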