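import Mathlib
import Pool.Agent.H530Z.IndepDefs

set_option autoImplicit false

namespace Pool.Agent.H530Z.Indep

open Cardinal hiding univ
open Set Filter Topology Pointwise

theorem mk_closure_le {X : Type} [TopologicalSpace X] [T2Space X] (S : Set X) :
    #(closure S) ≤ (2 : Cardinal) ^ ((2 : Cardinal) ^ #S) := by
  have h : #(closure S) ≤ #(Set (Set S)) := by
    refine Cardinal.mk_le_of_injective
      (f := fun x : closure S => (comap (Subtype.val : S → X) (𝓝 x.1)).sets) ?_
    intro x y hxy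
    have e : comap (Subtype.val : S → X) (𝓝 x.1) = comap (Subtype.val : S → X) (𝓝 y.1) :=
      Filter.filter_eq hxy
    by_contra hne
    have hne' : x.1 ≠ y.1 := fun h => hne (Subtype.ext h)
    have hd : Disjoint (𝓝 x.1) (𝓝 y.1) := disjoint_nhds_nhds.mpr hne'
    have hd2 : Disjoint (comap (Subtype.val : S → X) (𝓝 x.1))
        (comap (Subtype.val : S → X) (𝓝 y.1)) := Filter.disjoint_comap hd
    rw [← e, disjoint_self] at hd2
    have hb : (comap (Subtype.val : S → X) (𝓝 x.1)).NeBot := mem_closure_iff_comap_neBot.mp x.2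
    exact hb.ne hd2
  simpa using h

variable {G : Type} [AddCommGroup G]

/-- finitely many translates of `R` cover the group -/
def Synd (R : Set G) : Prop := ∃ F : Finset G, ∀ x, ∃ φ ∈ F, x - φ ∈ R

theorem exists_sep [Infinite G] (C : Set G) (hC : #C < #G) (k : ℕ) :
    ∃ t : Fin k → G, ∀ i j, i ≠ j → t i - t j ∉ C := by
  induction k with
  | zero => exact ⟨fun i => i.elim0, fun i => i.elim0⟩
  | succ k ih =>
    obtain ⟨t, ht⟩ := ih
    have hG : ℵ₀ ≤ #G := Cardinal.aleph0_le_mk G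
    let B : Set G := range (fun p : (Fin k × Bool) × C =>
      if p.1.2 then t p.1.1 + p.2.1 else t p.1.1 - p.2.1)
    have hB : #B < #G := by
      refine lt_of_le_of_lt Cardinal.mk_range_le ?_
      rw [Cardinal.mk_prod]
      simp only [Cardinal.lift_id]
      refine Cardinal.mul_lt_of_lt hG ?_ hC
      exact lt_of_lt_of_le (Cardinal.lt_aleph0_of_finite _) hG
    have : ∃ x, x ∉ B := by
      by_contra h
      push Not at h
      have : B = univ := eq_univ_of_forall h
      rw [this] at hB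
      simp at hB
    obtain ⟨x, hx⟩ := this
    refine ⟨Fin.cons x t, ?_⟩
    intro i j hij
    refine Fin.cases ?_ (fun i' => ?_) i hij <;> refine Fin.cases ?_ (fun j' => ?_) j
    · intro h; exact absurd rfl h
    · intro _ h
      simp only [Fin.cons_zero, Fin.cons_succ] at h
      exact hx ⟨((j', true), ⟨_, h⟩), by simp⟩
    · intro _ h
      simp only [Fin.cons_zero, Fin.cons_succ] at h
      exact hx ⟨((i', false), ⟨_, h⟩), by simp⟩
    · intro h
      simp only [Fin.cons_succ]
      exact ht i' j' (fun e => h (by rw [e]))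

theorem step [Infinite G] [TopologicalSpace G] [IsTopologicalAddGroup G] (A : Set G)
    (hA : #(closure (A - A)) < #G) (R : Set G) (hR : Synd R) :
    ∃ U : Set G, IsOpen U ∧ A ⊆ U ∧ Synd (R \ U) := by
  classical
  obtain ⟨F, hF⟩ := hR
  obtain ⟨t, ht⟩ := exists_sep _ hA (F.card + 1)
  -- a neighbourhood `W` of zero with `t i - t j - W` missing `A - A`
  have hW : ∀ᶠ w in 𝓝 (0 : G), ∀ i j, i ≠ j → t i - t j - w ∉ closure (A - A) := by
    rw [Filter.eventually_all]
    intro i
    rw [Filter.eventually_all]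
    intro j
    by_cases hij : i = j
    · exact Filter.Eventually.of_forall fun w h => absurd hij h
    · have hc : Continuous fun w : G => t i - t j - w := continuous_const.sub continuous_id
      have h0 : (closure (A - A))ᶜ ∈ 𝓝 (t i - t j - 0) := by
        rw [sub_zero]
        exact isClosed_closure.isOpen_compl.mem_nhds (ht i j hij)
      filter_upwards [hc.continuousAt.preimage_mem_nhds h0] with w hw _
      exact hw
  have hsub : Tendsto (fun p : G × G => p.1 - p.2) (𝓝 (0 : G) ×ˢ 𝓝 (0 : G)) (𝓝 0) := by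
    have := (continuous_sub (G := G)).tendsto (0, 0)
    rw [nhds_prod_eq] at this
    simpa using this
  have h2 := hsub hW
  rw [Filter.mem_map, Filter.mem_prod_self_iff] at h2
  obtain ⟨V, hV, hVV⟩ := h2
  obtain ⟨V', hV'V, hV'o, hV'0⟩ := mem_nhds_iff.mp hV
  refine ⟨A + V', hV'o.add_left, fun a ha => ⟨a, ha, 0, hV'0, add_zero a⟩, ?_⟩
  refine ⟨Finset.image₂ (fun φ i => φ + t i) F Finset.univ, fun x => ?_⟩
  choose φ hφF hφR using fun i => hF (x - t i)
  obtain ⟨i, j, hij, hφ⟩ := Fintype.exists_ne_map_eq_of_card_lt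
    (fun i => (⟨φ i, hφF i⟩ : F)) (by simp)
  have hφ' : φ i = φ j := congrArg Subtype.val hφ
  by_contra hno
  push Not at hno
  have key : ∀ l, x - t l - φ l ∈ A + V' := by
    intro l
    by_contra hl
    refine hno (φ l + t l) (Finset.mem_image₂_of_mem (hφF l) (Finset.mem_univ l)) ?_
    have e : x - (φ l + t l) = x - t l - φ l := by abel
    rw [e]
    exact ⟨hφR l, hl⟩
  obtain ⟨a, ha, v, hv, e1⟩ := key i
  obtain ⟨b, hb, w, hw, e2⟩ := key j
  have h3 := hVV (show (w, v) ∈ V ×ˢ V from ⟨hV'V hw, hV'V hv⟩) i j hij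
  apply h3
  apply subset_closure
  refine ⟨b, hb, a, ha, ?_⟩
  simp only at e1 e2 ⊢
  rw [hφ'] at e1
  have ea : a = x - t i - φ j - v := by rw [← e1]; abel
  have eb : b = x - t j - φ j - w := by rw [← e2]; abel
  rw [ea, eb]; abel

theorem closed_range {X : Type} [TopologicalSpace X] [T1Space X] (d : ℕ → X) (U : ℕ → Set X)
    (hU : ∀ m, IsOpen (U m)) (hcov : ∀ y, ∃ m, y ∈ U m) (hd : ∀ m n, m < n → d n ∉ U m) :
    IsOpen (range d)ᶜ := by
  rw [isOpen_iff_forall_mem_open]
  intro y hy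
  obtain ⟨m, hm⟩ := hcov y
  refine ⟨U m \ (d '' Iic m), ?_, ?_, hm, ?_⟩
  · rintro z ⟨hz, hz'⟩ ⟨n, rfl⟩
    by_cases h : n ≤ m
    · exact hz' ⟨n, h, rfl⟩
    · exact hd m n (not_le.mp h) hz
  · exact (hU m).sdiff ((finite_Iic m).image d).isClosed
  · rintro ⟨n, -, rfl⟩
    exact hy ⟨n, rfl⟩

theorem not_indep [Uncountable G] (A : ℕ → Set G) (hcov : ∀ y, ∃ m, y ∈ A m)
    (hA : ∀ m, (2 : Cardinal) ^ ((2 : Cardinal) ^ #(A m - A m : Set G)) < #G) (τ₁ τ₂ : TopologicalSpace G)
    (h₁ : HausdorffGroupTop G τ₁) (h₂ : HausdorffGroupTop G τ₂) : ¬ Independent τ₁ τ₂ := by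
  intro hI
  have st : ∀ (m : ℕ) (R : {R : Set G // Synd R}), ∃ p : Set G × Set G × {R : Set G // Synd R},
      @IsOpen G τ₁ p.1 ∧ A m ⊆ p.1 ∧ @IsOpen G τ₂ p.2.1 ∧ A m ⊆ p.2.1 ∧
        p.2.2.1 = (R.1 \ p.1) \ p.2.1 := by
    intro m R
    obtain ⟨U, hU, hAU, hs⟩ := @step G _ _ τ₁ h₁.1 (A m)
      (lt_of_le_of_lt (@mk_closure_le G τ₁ h₁.2 _) (hA m)) R.1 R.2
    obtain ⟨U', hU', hAU', hs'⟩ := @step G _ _ τ₂ h₂.1 (A m)
      (lt_of_le_of_lt (@mk_closure_le G τ₂ h₂.2 _) (hA m)) _ hs
    exact ⟨(U, U', ⟨_, hs'⟩), hU, hAU, hU', hAU', rfl⟩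
  choose p hp using st
  let R : ℕ → {R : Set G // Synd R} := fun n =>
    Nat.rec ⟨univ, {0}, fun x => ⟨0, by simp, mem_univ _⟩⟩ (fun m r => (p m r).2.2) n
  have hRs : ∀ m, (R (m + 1)).1 = ((R m).1 \ (p m (R m)).1) \ (p m (R m)).2.1 :=
    fun m => (hp m (R m)).2.2.2.2
  have hanti : ∀ m n, m ≤ n → (R n).1 ⊆ (R m).1 := by
    intro m n h
    induction h with
    | refl => exact subset_rfl
    | step _ ih =>
      refine subset_trans ?_ ih
      rw [hRs]
      exact fun x hx => hx.1.1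
  have hne : ∀ n, ∃ x, x ∈ (R n).1 := by
    intro n
    obtain ⟨F, hF⟩ := (R n).2
    obtain ⟨φ, -, h⟩ := hF 0
    exact ⟨_, h⟩
  choose d hd using hne
  have hd1 : ∀ m n, m < n → d n ∉ (p m (R m)).1 := by
    intro m n h
    have := hanti (m + 1) n h (hd n)
    rw [hRs] at this
    exact this.1.2
  have hd2 : ∀ m n, m < n → d n ∉ (p m (R m)).2.1 := by
    intro m n h
    have := hanti (m + 1) n h (hd n)
    rw [hRs] at this
    exact this.2
  have c1 : ∀ y, ∃ m, y ∈ (p m (R m)).1 := fun y => (hcov y).imp fun m h => (hp m (R m)).2.1 h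
  have c2 : ∀ y, ∃ m, y ∈ (p m (R m)).2.1 :=
    fun y => (hcov y).imp fun m h => (hp m (R m)).2.2.2.1 h
  have o1 : @IsOpen G τ₁ (range d)ᶜ :=
    @closed_range G τ₁ (@T2Space.t1Space G τ₁ h₁.2) d _ (fun m => (hp m (R m)).1) c1 hd1
  have o2 : @IsOpen G τ₂ (range d)ᶜ :=
    @closed_range G τ₂ (@T2Space.t1Space G τ₂ h₂.2) d _ (fun m => (hp m (R m)).2.2.1) c2 hd2
  rcases (hI _).mp ⟨o1, o2⟩ with h | h
  · rw [compl_empty_iff] at h
    have : (univ : Set G).Countable := h ▸ countable_range d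
    exact not_countable_univ this
  · rw [compl_compl] at h
    choose μ hμ using c1
    obtain ⟨M, hM⟩ := (h.image μ).bddAbove
    have h1 : μ (d (M + 1)) ≤ M := hM ⟨d (M + 1), ⟨M + 1, rfl⟩, rfl⟩
    exact hd1 (μ (d (M + 1))) (M + 1) (by omega) (hμ _)

/-- iterated power sets of `ℕ` -/
def T : ℕ → Type
  | 0 => ℕ
  | n + 1 => Set (T n)

theorem mk_T_succ (n : ℕ) : #(T (n + 1)) = (2 : Cardinal) ^ #(T n) := Cardinal.mk_set

theorem aleph0_le_T (n : ℕ) : ℵ₀ ≤ #(T n) := by
  induction n with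
  | zero => exact Cardinal.aleph0_le_mk ℕ
  | succ n ih => rw [mk_T_succ]; exact ih.trans (Cardinal.cantor _).le

abbrev I : Type := Σ n, T n

theorem T_le_I (n : ℕ) : #(T n) ≤ #I :=
  Cardinal.mk_le_of_injective (f := fun x : T n => (⟨n, x⟩ : I)) sigma_mk_injective

instance : Infinite I := Cardinal.infinite_iff.mpr ((aleph0_le_T 0).trans (T_le_I 0))

abbrev B : Type := I →₀ ZMod 2

theorem mk_B : #B = #I := by
  rw [Cardinal.mk_finsupp_of_infinite]
  exact max_eq_left ((Cardinal.lt_aleph0_of_finite _).le.trans (Cardinal.aleph0_le_mk I))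

theorem uncountable_B : Uncountable B := by
  rw [← Cardinal.aleph0_lt_mk_iff, mk_B]
  refine lt_of_lt_of_le ?_ (T_le_I 1)
  rw [mk_T_succ]
  exact lt_of_le_of_lt (aleph0_le_T 0) (Cardinal.cantor _)

theorem two_smul_B (x : B) : (2 : ℤ) • x = 0 := by
  ext i
  simp only [Finsupp.smul_apply, Finsupp.coe_zero, Pi.zero_apply]
  generalize x i = a
  revert a
  decide

theorem zcof_B : ZCofinite B := by
  intro U
  constructor
  · intro h
    induction h with
    | basic s hs =>
      obtain ⟨n, g, rfl⟩ := hs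
      rcases Int.even_or_odd' n with ⟨k, rfl | rfl⟩
      · have e : ∀ x : B, (2 * k) • x = 0 := fun x => by
          rw [mul_comm, mul_smul, two_smul_B, smul_zero]
        by_cases hg : g = 0
        · left; ext x; simp [e, hg]
        · right
          have : {x : B | (2 * k) • x = g} = ∅ := by
            ext x; simp [e, Ne.symm hg]
          rw [this]; simp
      · have e : ∀ x : B, (2 * k + 1) • x = x := fun x => by
          rw [add_smul, mul_comm, mul_smul, two_smul_B, smul_zero, one_smul, zero_add]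
        right
        have : {x : B | (2 * k + 1) • x = g} = {g} := by
          ext x; simp [e]
        rw [this]; simp
    | univ => right; simp
    | inter s t _ _ hs ht =>
      rcases hs with rfl | hs
      · left; simp
      rcases ht with rfl | ht
      · left; simp
      right; rw [compl_inter]; exact hs.union ht
    | sUnion S _ ih =>
      by_cases h : ∀ s ∈ S, s = ∅
      · left; exact sUnion_eq_empty.mpr h
      · push Not at h
        obtain ⟨s, hs, hne⟩ := h
        rcases ih s hs with h | h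
        · exact absurd h hne.ne_empty
        · right; exact h.subset (compl_subset_compl.mpr (subset_sUnion_of_mem hs))
  · let _ := zariskiTop B
    rintro (rfl | h)
    · exact isOpen_empty
    · have e : U = ⋂ g ∈ Uᶜ, {x : B | (1 : ℤ) • x = g}ᶜ := by
        ext x
        simp only [one_smul, mem_iInter, mem_compl_iff, mem_ofPred_eq]
        constructor
        · rintro hx g hg rfl; exact hg hx
        · intro hx; by_contra hU; exact hx x hU rfl
      rw [e]
      exact h.isOpen_biInter fun g _ => TopologicalSpace.GenerateOpen.basic _ ⟨1, g, rfl⟩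

theorem main : ∃ (G : Type) (_ : AddCommGroup G), Uncountable G ∧ ZCofinite G ∧
    ∀ τ₁ τ₂ : TopologicalSpace G, HausdorffGroupTop G τ₁ → HausdorffGroupTop G τ₂ →
      ¬ Independent τ₁ τ₂ := by
  refine ⟨B, inferInstance, uncountable_B, zcof_B, ?_⟩
  obtain ⟨e⟩ := Cardinal.eq.mp mk_B
  have := uncountable_B
  refine not_indep (fun m => range fun x : T m => e.symm ⟨m, x⟩) (fun y => ?_) (fun m => ?_)
  · exact ⟨(e y).1, (e y).2, by simp⟩
  · have h1 : #(range fun x : T m => e.symm ⟨m, x⟩) ≤ #(T m) := Cardinal.mk_range_le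
    have h2 : #((range fun x : T m => e.symm ⟨m, x⟩) - (range fun x : T m => e.symm ⟨m, x⟩) :
        Set B) ≤ #(T m) := by
      refine (Cardinal.mk_image2_le).trans ?_
      exact (mul_le_mul' h1 h1).trans (Cardinal.mul_eq_self (aleph0_le_T m)).le
    have h3 : (2 : Cardinal) ≠ 0 := two_ne_zero
    refine lt_of_le_of_lt (Cardinal.power_le_power_left h3 (Cardinal.power_le_power_left h3 h2)) ?_
    rw [mk_B, ← mk_T_succ, ← mk_T_succ]
    refine lt_of_lt_of_le ?_ (T_le_I (m + 1 + 1 + 1))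
    rw [mk_T_succ (m + 1 + 1)]
    exact Cardinal.cantor _

end Pool.Agent.H530Z.Indep
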