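import Mathlib

set_option autoImplicit false
set_option linter.unusedSectionVars false

open MeasureTheory Filter Topology

namespace Pool.Agent.H530Z.Levy

variable {L : ℕ → Type} [∀ n, NormedAddCommGroup (L n)]

/-- embeddings and decoders -/
structure Data (L : ℕ → Type) [∀ n, NormedAddCommGroup (L n)] where
  φ : ∀ n, L n →+ L (n + 1)
  δ : ∀ n, L (n + 1) → L n
  hδ : ∀ n y c, δ n (y + φ n c) = δ n y + c
  rob_ne : ∀ n, ∃ y, ∀ a : L (n + 1), ‖a‖ ≤ (n : ℝ) + 1 → δ n (y + a) = 0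

/-- finitely supported sequences -/
def FS (L : ℕ → Type) [∀ n, NormedAddCommGroup (L n)] : AddSubgroup (∀ n, L n) where
  carrier := {c | ∃ M, ∀ n, M ≤ n → c n = 0}
  zero_mem' := ⟨0, fun _ _ => rfl⟩
  add_mem' := by
    rintro a b ⟨M, hM⟩ ⟨M', hM'⟩
    exact ⟨max M M', fun n hn => by
      simp [hM n (le_of_max_le_left hn), hM' n (le_of_max_le_right hn)]⟩
  neg_mem' := by
    rintro a ⟨M, hM⟩
    exact ⟨M, fun n hn => by simp [hM n hn]⟩

theorem mem_FS {c : ∀ n, L n} : c ∈ FS L ↔ ∃ M, ∀ n, M ≤ n → c n = 0 := Iff.rfl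

theorem single_mem_FS (n : ℕ) (y : L n) : (Pi.single n y : ∀ n, L n) ∈ FS L :=
  ⟨n + 1, fun k hk => Pi.single_eq_of_ne (by omega) y⟩

theorem FS_countable [∀ n, Fintype (L n)] : (FS L : Set (∀ n, L n)).Countable := by
  have : (FS L : Set (∀ n, L n)) ⊆ ⋃ M : ℕ, Set.range
      (fun (z : ∀ i : Fin M, L i) => (fun n => if h : n < M then z ⟨n, h⟩ else 0 : ∀ n, L n)) := by
    rintro c ⟨M, hM⟩
    simp only [Set.mem_iUnion, Set.mem_range]
    refine ⟨M, fun i => c i, ?_⟩
    funext n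
    split_ifs with h
    · rfl
    · exact (hM n (by omega)).symm
  exact (Set.countable_iUnion fun M => Set.countable_range _).mono this

instance [∀ n, Fintype (L n)] : Countable (FS L) := FS_countable.to_subtype

theorem memℓp_of_FS {c : ∀ n, L n} (hc : c ∈ FS L) : Memℓp c 1 := by
  obtain ⟨M, hM⟩ := hc
  refine (memℓp_zero ?_).of_exponent_ge zero_le_one
  refine (Set.finite_lt_nat M).subset fun n hn => ?_
  by_contra h
  exact hn (hM n (by simpa using h))

/-- finitely supported sequences as elements of `ℓ¹` -/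
def toA (c : FS L) : lp L 1 := ⟨c.1, memℓp_of_FS c.2⟩

@[simp] theorem coe_toA (c : FS L) : ((toA c : lp L 1) : ∀ n, L n) = c.1 := rfl

namespace Data

variable (T : Data L)

/-- the boundary map -/
def bd (c : ∀ n, L n) : ∀ n, L n
  | 0 => c 0
  | n + 1 => c (n + 1) - T.φ n (c n)

theorem bd_add (c c' : ∀ n, L n) : T.bd (c + c') = T.bd c + T.bd c' := by
  funext n
  cases n with
  | zero => rfl
  | succ n => simp only [bd, Pi.add_apply, map_add]; abel

theorem bd_zero : T.bd 0 = 0 := by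
  funext n
  cases n with
  | zero => rfl
  | succ n => simp [bd]

theorem bd_neg (c : ∀ n, L n) : T.bd (-c) = -T.bd c := by
  have := T.bd_add c (-c)
  rw [add_neg_cancel, bd_zero] at this
  exact (neg_eq_of_add_eq_zero_right this.symm).symm

theorem bd_mem {c : ∀ n, L n} (hc : c ∈ FS L) : T.bd c ∈ FS L := by
  obtain ⟨M, hM⟩ := hc
  refine ⟨M + 1, fun n hn => ?_⟩
  obtain ⟨k, rfl⟩ : ∃ k, n = k + 1 := ⟨n - 1, by omega⟩
  simp [bd, hM (k + 1) (by omega), hM k (by omega)]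

def Gam : AddSubgroup (lp L 1) where
  carrier := {a | ∃ c ∈ FS L, (a : ∀ n, L n) = T.bd c}
  zero_mem' := ⟨0, zero_mem _, by rw [bd_zero]; rfl⟩
  add_mem' := by
    rintro a b ⟨c, hc, ha⟩ ⟨c', hc', hb⟩
    exact ⟨c + c', add_mem hc hc', by rw [bd_add, ← ha, ← hb]; rfl⟩
  neg_mem' := by
    rintro a ⟨c, hc, ha⟩
    exact ⟨-c, neg_mem hc, by rw [bd_neg, ← ha]; rfl⟩

def X0 : Set (∀ n, L n) :=
  {x | ∀ k : ℕ, ∃ M, ∀ n, M ≤ n → ∀ a : L (n + 1), ‖a‖ ≤ k → T.δ n (x (n + 1) + a) = 0}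

def D0 : Set (∀ n, L n) := {x | ∀ n, T.δ n (x (n + 1)) = 0}

def DD : Set (∀ n, L n) := T.D0 ∩ T.X0

theorem X0_add {x : ∀ n, L n} (hx : x ∈ T.X0) (a : lp L 1) : x + (a : ∀ n, L n) ∈ T.X0 := by
  intro k
  obtain ⟨j, hj⟩ := exists_nat_ge ‖a‖
  obtain ⟨M, hM⟩ := hx (k + j)
  refine ⟨M, fun n hn b hb => ?_⟩
  have h1 : ‖a (n + 1)‖ ≤ ‖a‖ := lp.norm_apply_le_norm one_ne_zero a (n + 1)
  have := hM n hn (a (n + 1) + b) ((norm_add_le _ _).trans (by push_cast; linarith))
  simpa [add_assoc] using this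

theorem X0_add_FS {x c : ∀ n, L n} (hx : x ∈ T.X0) (hc : c ∈ FS L) : x + c ∈ T.X0 :=
  T.X0_add hx (toA ⟨c, hc⟩)

theorem exists_carry0 (M : ℕ) : ∀ z : ∀ n, L n, (∀ n, M ≤ n → T.δ n (z (n + 1)) = 0) →
    ∃ c ∈ FS L, z + T.bd c ∈ T.D0 := by
  induction M with
  | zero => intro z hz; exact ⟨0, zero_mem _, by rw [bd_zero, add_zero]; exact fun n => hz n n.zero_le⟩
  | succ M ih =>
    intro z hz
    obtain ⟨c, hc, h⟩ := ih (z + T.bd (Pi.single M (T.δ M (z (M + 1))))) (by
      intro n hn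
      rcases hn.eq_or_lt with rfl | hlt
      · simp only [Pi.add_apply, bd, Pi.single_eq_same]
        rw [Pi.single_eq_of_ne (by omega), zero_sub, ← map_neg, T.hδ, add_neg_cancel]
      · simp only [Pi.add_apply, bd]
        rw [Pi.single_eq_of_ne (by omega), Pi.single_eq_of_ne (by omega), map_zero, sub_zero,
          add_zero]
        exact hz n hlt)
    exact ⟨_ + c, add_mem (single_mem_FS M _) hc, by rwa [bd_add, ← add_assoc]⟩

theorem exists_carry {z : ∀ n, L n} (hz : z ∈ T.X0) : ∃ c ∈ FS L, z + T.bd c ∈ T.DD := by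
  obtain ⟨M, hM⟩ := hz 0
  obtain ⟨c, hc, h⟩ := T.exists_carry0 M z fun n hn => by simpa using hM n hn 0 (by simp)
  exact ⟨c, hc, h, T.X0_add_FS hz (T.bd_mem hc)⟩

theorem carry_zero {x c : ∀ n, L n} (hx : x ∈ T.D0) (hc : c ∈ FS L) (h : x + T.bd c ∈ T.D0) :
    c = 0 := by
  obtain ⟨M, hM⟩ := hc
  have key : ∀ k n, M ≤ n + k → c n = 0 := by
    intro k
    induction k with
    | zero => exact fun n hn => hM n hn
    | succ k ih =>
      intro n hn
      have h1 := ih (n + 1) (by omega)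
      have h2 := h n
      simp only [Pi.add_apply, bd, h1, zero_sub] at h2
      rw [← map_neg, T.hδ, hx n, zero_add] at h2
      exact neg_eq_zero.1 h2
  funext n
  exact key M n (by omega)

theorem carry_unique {z c c' : ∀ n, L n} (hc : c ∈ FS L) (hc' : c' ∈ FS L)
    (h : z + T.bd c ∈ T.D0) (h' : z + T.bd c' ∈ T.D0) : c = c' := by
  have := T.carry_zero h (sub_mem hc' hc) (by
    rw [sub_eq_add_neg, bd_add, bd_neg]
    convert h' using 1; abel)
  exact (sub_eq_zero.1 this).symm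

open Classical in
/-- the retraction to the transversal -/
noncomputable def ret (z : ∀ n, L n) : ∀ n, L n :=
  if h : ∃ c ∈ FS L, z + T.bd c ∈ T.DD then z + T.bd h.choose else z

theorem ret_eq {z c : ∀ n, L n} (hc : c ∈ FS L) (h : z + T.bd c ∈ T.DD) :
    T.ret z = z + T.bd c := by
  have h1 : ∃ c ∈ FS L, z + T.bd c ∈ T.DD := ⟨c, hc, h⟩
  unfold ret
  rw [dif_pos h1, T.carry_unique h1.choose_spec.1 hc h1.choose_spec.2.1 h.1]

theorem ret_spec {z : ∀ n, L n} (hz : z ∈ T.X0) :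
    ∃ c ∈ FS L, T.ret z = z + T.bd c ∧ T.ret z ∈ T.DD := by
  obtain ⟨c, hc, h⟩ := T.exists_carry hz
  exact ⟨c, hc, T.ret_eq hc h, by rwa [T.ret_eq hc h]⟩

theorem ret_of_mem {z : ∀ n, L n} (hz : z ∈ T.DD) : T.ret z = z := by
  have := T.ret_eq (z := z) (zero_mem _) (by rwa [bd_zero, add_zero])
  rwa [bd_zero, add_zero] at this

theorem ret_add_bd {z c : ∀ n, L n} (hz : z ∈ T.X0) (hc : c ∈ FS L) :
    T.ret (z + T.bd c) = T.ret z := by
  obtain ⟨c', hc', h⟩ := T.exists_carry hz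
  have e : z + T.bd c + T.bd (c' - c) = z + T.bd c' := by
    rw [sub_eq_add_neg, bd_add, bd_neg]; abel
  rw [T.ret_eq hc' h, T.ret_eq (sub_mem hc' hc) (by rwa [e]), e]

open Classical in
/-- the action of `ℓ¹` -/
noncomputable def act (a : lp L 1) (x : ∀ n, L n) : ∀ n, L n :=
  if x ∈ T.DD then T.ret (x + (a : ∀ n, L n)) else x

theorem act_of_mem (a : lp L 1) {x : ∀ n, L n} (hx : x ∈ T.DD) :
    T.act a x = T.ret (x + (a : ∀ n, L n)) := if_pos hx

theorem act_of_not_mem (a : lp L 1) {x : ∀ n, L n} (hx : x ∉ T.DD) : T.act a x = x := if_neg hx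

theorem act_mem (a : lp L 1) {x : ∀ n, L n} (hx : x ∈ T.DD) : T.act a x ∈ T.DD := by
  rw [T.act_of_mem a hx]
  exact (T.ret_spec (T.X0_add hx.2 a)).choose_spec.2.2

theorem act_zero (x : ∀ n, L n) : T.act 0 x = x := by
  by_cases hx : x ∈ T.DD
  · rw [T.act_of_mem 0 hx, lp.coeFn_zero, add_zero]
    exact T.ret_of_mem hx
  · exact T.act_of_not_mem 0 hx

theorem act_add (a b : lp L 1) (x : ∀ n, L n) : T.act (a + b) x = T.act a (T.act b x) := by
  by_cases hx : x ∈ T.DD
  · rw [T.act_of_mem a (T.act_mem b hx), T.act_of_mem b hx, T.act_of_mem _ hx]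
    obtain ⟨c, hc, h, -⟩ := T.ret_spec (T.X0_add hx.2 b)
    rw [h, ← T.ret_add_bd (T.X0_add hx.2 (a + b)) hc]
    congr 1
    rw [lp.coeFn_add]; abel
  · rw [T.act_of_not_mem _ hx, T.act_of_not_mem _ hx, T.act_of_not_mem _ hx]

theorem act_Gam {a : lp L 1} (ha : a ∈ T.Gam) (x : ∀ n, L n) : T.act a x = x := by
  by_cases hx : x ∈ T.DD
  · obtain ⟨c, hc, h⟩ := ha
    rw [T.act_of_mem a hx, h, T.ret_add_bd hx.2 hc, T.ret_of_mem hx]
  · exact T.act_of_not_mem _ hx

theorem act_neg_act (a : lp L 1) (x : ∀ n, L n) : T.act (-a) (T.act a x) = x := by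
  rw [← act_add, neg_add_cancel, act_zero]

theorem act_act_neg (a : lp L 1) (x : ∀ n, L n) : T.act a (T.act (-a) x) = x := by
  rw [← act_add, add_neg_cancel, act_zero]

theorem act_inj (a : lp L 1) : Function.Injective (T.act a) :=
  Function.LeftInverse.injective (T.act_neg_act a)

theorem act_of_add_mem (a : lp L 1) {x : ∀ n, L n} (hx : x ∈ T.DD)
    (h : x + (a : ∀ n, L n) ∈ T.DD) : T.act a x = x + (a : ∀ n, L n) := by
  rw [T.act_of_mem a hx, T.ret_of_mem h]

/-- the action of the quotient -/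
noncomputable def actQ (g : lp L 1 ⧸ T.Gam) (x : ∀ n, L n) : ∀ n, L n := T.act g.out x

theorem actQ_mk (a : lp L 1) : T.actQ (a : lp L 1 ⧸ T.Gam) = T.act a := by
  funext x
  obtain ⟨γ, hγ⟩ := QuotientAddGroup.mk_out_eq_add T.Gam a
  unfold actQ
  rw [hγ, act_add, T.act_Gam γ.2]

theorem one_le_norm_Gam {a : lp L 1} (ha : a ∈ T.Gam) (h0 : a ≠ 0) : 1 ≤ ‖a‖ := by
  obtain ⟨c, ⟨M, hM⟩, h⟩ := ha
  by_contra hlt
  push Not at hlt
  have key : ∀ k n, M ≤ n + k → c n = 0 := by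
    intro k
    induction k with
    | zero => exact fun n hn => hM n hn
    | succ k ih =>
      intro n hn
      have h1 := ih (n + 1) (by omega)
      obtain ⟨y, hy⟩ := T.rob_ne n
      have h2 : ‖a (n + 1)‖ ≤ ‖a‖ := lp.norm_apply_le_norm one_ne_zero a (n + 1)
      have h3 := hy (a (n + 1)) (by have : (0 : ℝ) ≤ n := n.cast_nonneg; linarith)
      have h4 := hy 0 (by rw [norm_zero]; positivity)
      rw [h] at h3
      simp only [bd, h1, zero_sub] at h3
      rw [add_zero] at h4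
      rw [← map_neg, T.hδ, h4, zero_add] at h3
      exact neg_eq_zero.1 h3
  have : c = 0 := funext fun n => key M n (by omega)
  rw [this, bd_zero] at h
  exact h0 (Subtype.ext h)

theorem Gam_closed : IsClosed (T.Gam : Set (lp L 1)) := by
  have : DiscreteTopology T.Gam := by
    refine discreteTopology_of_isOpen_singleton_zero ?_
    have : ({0} : Set T.Gam) = Metric.ball 0 1 := by
      ext a
      simp only [Set.mem_singleton_iff, mem_ball_zero_iff]
      constructor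
      · rintro rfl; simp
      · intro h
        by_contra h0
        exact absurd (T.one_le_norm_Gam a.2 (fun h1 => h0 (Subtype.ext h1))) (not_le.2 h)
    rw [this]; exact Metric.isOpen_ball
  exact AddSubgroup.isClosed_of_discrete

section meas

variable [∀ n, Fintype (L n)] [∀ n, MeasurableSpace (L n)] [∀ n, DiscreteMeasurableSpace (L n)]

theorem meas_coord (n : ℕ) (S : Set (L n)) : MeasurableSet {x : ∀ n, L n | x n ∈ S} :=
  measurable_pi_apply n (MeasurableSet.of_discrete)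

theorem D0_meas : MeasurableSet T.D0 := by
  have : T.D0 = ⋂ n, {x : ∀ n, L n | x (n + 1) ∈ {y | T.δ n y = 0}} := by ext x; simp [D0]
  rw [this]; exact MeasurableSet.iInter fun n => meas_coord _ _

theorem X0_meas : MeasurableSet T.X0 := by
  have : T.X0 = ⋂ k : ℕ, ⋃ M : ℕ, ⋂ n, ⋂ _ : M ≤ n, {x : ∀ n, L n | x (n + 1) ∈
      {y | ∀ a : L (n + 1), ‖a‖ ≤ k → T.δ n (y + a) = 0}} := by ext x; simp [X0]
  rw [this]
  exact MeasurableSet.iInter fun k => MeasurableSet.iUnion fun M => MeasurableSet.iInter fun n =>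
    MeasurableSet.iInter fun _ => meas_coord _ _

theorem DD_meas : MeasurableSet T.DD := T.D0_meas.inter T.X0_meas

theorem meas_add_const (c : ∀ n, L n) : Measurable fun z : ∀ n, L n => z + c :=
  measurable_pi_iff.2 fun n =>
    (measurable_of_countable (fun y : L n => y + c n)).comp (measurable_pi_apply n)

theorem ret_meas : Measurable T.ret := by
  intro B hB
  have : T.ret ⁻¹' B = (⋃ c : FS L, (fun z => z + T.bd c) ⁻¹' (T.DD ∩ B)) ∪
      ((⋃ c : FS L, (fun z => z + T.bd c) ⁻¹' T.DD)ᶜ ∩ B) := by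
    ext z
    simp only [Set.mem_preimage, Set.mem_union, Set.mem_iUnion, Set.mem_inter_iff,
      Set.mem_compl_iff]
    by_cases h : ∃ c ∈ FS L, z + T.bd c ∈ T.DD
    · obtain ⟨c, hc, h⟩ := h
      constructor
      · intro h1
        exact Or.inl ⟨⟨c, hc⟩, h, by rwa [T.ret_eq hc h] at h1⟩
      · rintro (⟨c', h1, h2⟩ | ⟨h1, -⟩)
        · rwa [T.ret_eq c'.2 h1]
        · exact absurd ⟨⟨c, hc⟩, h⟩ h1
    · have e : T.ret z = z := by unfold ret; rw [dif_neg h]
      rw [e]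
      constructor
      · intro h1
        exact Or.inr ⟨fun ⟨c, hc⟩ => h ⟨c.1, c.2, hc⟩, h1⟩
      · rintro (⟨c', h1, -⟩ | ⟨-, h2⟩)
        · exact absurd ⟨c'.1, c'.2, h1⟩ h
        · exact h2
  rw [this]
  exact (MeasurableSet.iUnion fun c => meas_add_const _ (T.DD_meas.inter hB)).union
    ((MeasurableSet.iUnion fun c => meas_add_const _ T.DD_meas).compl.inter hB)

theorem act_meas (a : lp L 1) : Measurable (T.act a) := by
  classical
  exact Measurable.ite T.DD_meas (T.ret_meas.comp (meas_add_const _)) measurable_id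

end meas

end Data

end Pool.Agent.H530Z.Levy
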