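import Mathlib

set_option autoImplicit false

open MeasureTheory Filter Topology

/-! Levy groups and spatial nonsingular actions of Polish groups. -/

namespace Pool.Agent.H530Z.Levy

/-- `G` is a Levy group: there are an increasing sequence `K n` of compact subgroups with dense
union and a compatible right-invariant metric `d` such that the `K n`, with `d` and with their
normalised Haar measures `m n` (seen as measures on `G` carried by `K n`), form a Levy family. -/
def IsLevyGroup (G : Type) [Group G] [τ : TopologicalSpace G] [MeasurableSpace G] : Prop :=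
  ∃ (K : ℕ → Subgroup G) (d : MetricSpace G) (m : ℕ → Measure G),
    Monotone K ∧ (∀ n, IsCompact (K n : Set G)) ∧ Dense (⋃ n, (K n : Set G)) ∧
    d.toUniformSpace.toTopologicalSpace = τ ∧ (∀ g h k : G, d.dist (g * k) (h * k) = d.dist g h) ∧
    (∀ n, IsProbabilityMeasure (m n) ∧ m n (K n : Set G)ᶜ = 0 ∧
      ∀ k ∈ K n, (m n).map (fun g => k * g) = m n) ∧
    ∀ A : ℕ → Set G, (∀ n, MeasurableSet (A n) ∧ A n ⊆ K n) →
      0 < liminf (fun n => m n (A n)) atTop →
      ∀ ε : ℝ, 0 < ε → Tendsto (fun n => m n {g | ∃ a ∈ A n, d.dist g a < ε}) atTop (𝓝 1)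

/-- An ergodic spatial nonsingular action: the action map `G × X → X` is Borel, `μ` is a nonzero
non-atomic σ-finite measure, each `g` preserves the class of `μ`, and every invariant Borel set is
null or conull. -/
structure IsErgodicSpatial (G X : Type) [Group G] [MeasurableSpace G] [MeasurableSpace X]
    [MulAction G X] (μ : Measure X) : Prop where
  measurable_action : Measurable fun p : G × X => p.1 • p.2
  sigmaFinite : SigmaFinite μ
  ne_zero : μ ≠ 0
  nonatomic : ∀ x : X, μ {x} = 0
  nonsingular : ∀ g : G, μ.map (fun x => g • x) ≪ μ ∧ μ ≪ μ.map (fun x => g • x)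
  ergodic : ∀ B : Set X, MeasurableSet B → (∀ g : G, (fun x => g • x) ⁻¹' B = B) →
    μ B = 0 ∨ μ Bᶜ = 0

/-- Type III: spatial, ergodic, nonsingular, and no σ-finite invariant measure is equivalent
to `μ`. -/
def IsTypeIII (G X : Type) [Group G] [MeasurableSpace G] [MeasurableSpace X]
    [MulAction G X] (μ : Measure X) : Prop :=
  IsErgodicSpatial G X μ ∧
    ¬ ∃ ρ : Measure X, SigmaFinite ρ ∧ ρ ≪ μ ∧ μ ≪ ρ ∧ ∀ g : G, ρ.map (fun x => g • x) = ρ

/-- Type II∞: spatial, ergodic, and `μ` is invariant with infinite total mass. -/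
def IsTypeIIInf (G X : Type) [Group G] [MeasurableSpace G] [MeasurableSpace X]
    [MulAction G X] (μ : Measure X) : Prop :=
  IsErgodicSpatial G X μ ∧ (∀ g : G, μ.map (fun x => g • x) = μ) ∧ μ Set.univ = ⊤

end Pool.Agent.H530Z.Levy
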