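import Mathlib
import Pool.Agent.H530Z.LevyA
import Pool.Agent.H530Z.LevyDefs

set_option autoImplicit false
set_option linter.unusedSectionVars false

open MeasureTheory Filter Topology
open scoped ENNReal

namespace Pool.Agent.H530Z.Levy

variable {L : ℕ → Type} [∀ n, NormedAddCommGroup (L n)] [∀ n, Fintype (L n)]
  [∀ n, MeasurableSpace (L n)] [∀ n, DiscreteMeasurableSpace (L n)]

/-- truncation -/
def trunc (a : ∀ n, L n) (m : ℕ) : FS L :=
  ⟨fun n => if n < m then a n else 0, m, fun n hn => if_neg (by omega)⟩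

theorem toA_trunc (a : lp L 1) (m : ℕ) :
    toA (trunc (a : ∀ n, L n) m) = ∑ i ∈ Finset.range m, lp.single 1 i (a i) := by
  apply lp.ext
  funext n
  rw [lp.coeFn_sum, Finset.sum_apply]
  simp only [coe_toA, trunc, lp.single_apply]
  rw [Finset.sum_pi_single]
  simp

theorem tendsto_trunc (a : lp L 1) :
    Tendsto (fun m => toA (trunc (a : ∀ n, L n) m)) atTop (𝓝 a) := by
  simp only [toA_trunc]
  exact (lp.hasSum_single ENNReal.one_ne_top a).tendsto_sum_nat

theorem dense_toA : DenseRange (toA : FS L → lp L 1) := fun a =>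
  mem_closure_of_tendsto (tendsto_trunc a) (Eventually.of_forall fun _ => Set.mem_range_self _)

instance : TopologicalSpace.SeparableSpace (lp L 1) :=
  ⟨⟨Set.range toA, Set.countable_range _, dense_toA⟩⟩

instance : SecondCountableTopology (lp L 1) := UniformSpace.secondCountable_of_separable _

/-- uniform measure -/
noncomputable def unif (Y : Type) [Fintype Y] [MeasurableSpace Y] : Measure Y :=
  (Fintype.card Y : ℝ≥0∞)⁻¹ • Measure.count

instance (Y : Type) [Fintype Y] [Nonempty Y] [MeasurableSpace Y] [DiscreteMeasurableSpace Y] :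
    IsProbabilityMeasure (unif Y) := by
  constructor
  simp only [unif, Measure.smul_apply, smul_eq_mul, Measure.count_univ]
  rw [ENat.card_eq_coe_fintype_card, ENat.toENNReal_coe]
  exact ENNReal.inv_mul_cancel (by simp) (by simp)

theorem unif_map_add (n : ℕ) (y : L n) : (unif (L n)).map (fun z => y + z) = unif (L n) := by
  have : MeasurableAdd (L n) :=
    ⟨fun _ => measurable_of_countable _, fun _ => measurable_of_countable _⟩
  unfold unif
  rw [Measure.map_smul, map_add_left_eq_self]

namespace Data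

variable (T : Data L)

instance : IsClosed (T.Gam : Set (lp L 1)) := T.Gam_closed

/-- the group -/
def GG : Type := Multiplicative (lp L 1 ⧸ T.Gam)

noncomputable instance : CommGroup T.GG :=
  inferInstanceAs (CommGroup (Multiplicative (lp L 1 ⧸ T.Gam)))

noncomputable instance : MetricSpace T.GG := inferInstanceAs (MetricSpace (lp L 1 ⧸ T.Gam))

instance : IsTopologicalGroup T.GG :=
  inferInstanceAs (IsTopologicalGroup (Multiplicative (lp L 1 ⧸ T.Gam)))

instance : CompleteSpace T.GG := inferInstanceAs (CompleteSpace (lp L 1 ⧸ T.Gam))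

instance : SecondCountableTopology T.GG :=
  inferInstanceAs (SecondCountableTopology (lp L 1 ⧸ T.Gam))

instance : PolishSpace T.GG := inferInstance

noncomputable instance : MeasurableSpace T.GG := borel _

instance : BorelSpace T.GG := ⟨rfl⟩

/-- projection -/
noncomputable def pr (a : lp L 1) : T.GG := Multiplicative.ofAdd (a : lp L 1 ⧸ T.Gam)

theorem pr_surj : Function.Surjective T.pr := fun g => by
  obtain ⟨a, ha⟩ := QuotientAddGroup.mk_surjective (Multiplicative.toAdd g : lp L 1 ⧸ T.Gam)
  exact ⟨a, congrArg Multiplicative.ofAdd ha⟩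

theorem pr_add (a b : lp L 1) : T.pr (a + b) = T.pr a * T.pr b := rfl

theorem pr_zero : T.pr 0 = 1 := rfl

theorem pr_neg (a : lp L 1) : T.pr (-a) = (T.pr a)⁻¹ := rfl

theorem pr_cont : Continuous T.pr := QuotientAddGroup.continuous_mk

theorem dist_pr_le (a b : lp L 1) : dist (T.pr a) (T.pr b) ≤ ‖a - b‖ := by
  have : dist (T.pr a) (T.pr b) = ‖((a - b : lp L 1) : lp L 1 ⧸ T.Gam)‖ :=
    dist_eq_norm (a : lp L 1 ⧸ T.Gam) (b : lp L 1 ⧸ T.Gam)
  rw [this]
  exact QuotientAddGroup.norm_mk_le_norm

theorem dist_mul_right' (g h k : T.GG) : dist (g * k) (h * k) = dist g h :=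
  dist_add_right (Multiplicative.toAdd g : lp L 1 ⧸ T.Gam) (Multiplicative.toAdd h)
    (Multiplicative.toAdd k)

noncomputable instance : MulAction T.GG (∀ n, L n) where
  smul g x := T.actQ (Multiplicative.toAdd g) x
  one_smul x := by
    show T.actQ ((0 : lp L 1) : lp L 1 ⧸ T.Gam) x = x
    rw [actQ_mk, act_zero]
  mul_smul g h x := by
    obtain ⟨a, rfl⟩ := T.pr_surj g
    obtain ⟨b, rfl⟩ := T.pr_surj h
    show T.actQ ((a + b : lp L 1) : lp L 1 ⧸ T.Gam) x =
      T.actQ (a : lp L 1 ⧸ T.Gam) (T.actQ (b : lp L 1 ⧸ T.Gam) x)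
    rw [actQ_mk, actQ_mk, actQ_mk, act_add]

theorem pr_smul (a : lp L 1) : (fun x : (∀ n, L n) => T.pr a • x) = T.act a := T.actQ_mk a

theorem meas_action : Measurable fun p : T.GG × (∀ n, L n) => p.1 • p.2 := by
  classical
  borelize ↥(lp L 1)
  have h1 : Measurable (Prod.map T.pr id : lp L 1 × (∀ n, L n) → T.GG × (∀ n, L n)) :=
    T.pr_cont.measurable.prodMap measurable_id
  have h2 : Function.Surjective (Prod.map T.pr id : lp L 1 × (∀ n, L n) → T.GG × (∀ n, L n)) :=
    T.pr_surj.prodMap Function.surjective_id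
  rw [← h1.measurable_comp_iff_of_surjective h2]
  have e : ((fun p : T.GG × (∀ n, L n) => p.1 • p.2) ∘ Prod.map T.pr id) =
      fun p : lp L 1 × (∀ n, L n) =>
        if p.2 ∈ T.DD then T.ret (p.2 + (p.1 : ∀ n, L n)) else p.2 := by
    funext p
    exact congrFun (T.pr_smul p.1) p.2
  rw [e]
  refine Measurable.ite (measurable_snd T.DD_meas) (T.ret_meas.comp ?_) measurable_snd
  refine measurable_pi_iff.2 fun n => ?_
  have hB : BorelSpace (L n) := inferInstance
  have c1 : Continuous fun a : lp L 1 => a n :=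
    (continuous_apply n).comp (lp.uniformContinuous_coe (E := L) (p := 1)).continuous
  have m1 : Measurable fun p : lp L 1 × (∀ n, L n) => (p.2 n, p.1 n) :=
    ((measurable_pi_apply n).comp measurable_snd).prodMk (c1.measurable.comp measurable_fst)
  exact (measurable_of_countable (fun z : L n × L n => z.1 + z.2)).comp m1

/-- the level embeddings -/
noncomputable def kap (n : ℕ) : Multiplicative (L n) →* T.GG where
  toFun y := T.pr (lp.single 1 n y.toAdd)
  map_one' := by simp [pr_zero]
  map_mul' y z := by rw [← pr_add, ← lp.single_add]; rfl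

theorem pr_single_succ (n : ℕ) (y : L n) :
    T.pr (lp.single 1 n y) = T.pr (lp.single 1 (n + 1) (T.φ n y)) := by
  unfold pr
  congr 1
  rw [QuotientAddGroup.eq_iff_sub_mem]
  refine ⟨Pi.single n y, single_mem_FS n y, ?_⟩
  rw [lp.coeFn_sub, lp.coeFn_single, lp.coeFn_single]
  funext k
  cases k with
  | zero => simp [bd]
  | succ k =>
    simp only [bd, Pi.sub_apply]
    congr 1
    by_cases h : k = n
    · subst h; simp
    · rw [Pi.single_eq_of_ne (by omega), Pi.single_eq_of_ne h, map_zero]

theorem kap_mono : Monotone fun n => (T.kap n).range := by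
  refine monotone_nat_of_le_succ fun n => ?_
  rintro _ ⟨y, rfl⟩
  exact ⟨Multiplicative.ofAdd (T.φ n y.toAdd), (T.pr_single_succ n _).symm⟩

theorem pr_trunc_mem (a : lp L 1) (m : ℕ) :
    T.pr (toA (trunc (a : ∀ n, L n) m)) ∈ (T.kap m).range := by
  rw [toA_trunc]
  have : ∀ k ≤ m, T.pr (∑ i ∈ Finset.range k, lp.single 1 i (a i)) ∈ (T.kap m).range := by
    intro k
    induction k with
    | zero => intro _; simp [pr_zero]
    | succ k ih =>
      intro hk
      rw [Finset.sum_range_succ, pr_add]
      exact mul_mem (ih (by omega)) (T.kap_mono (by omega : k ≤ m) ⟨Multiplicative.ofAdd (a k), rfl⟩)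
  exact this m le_rfl

theorem isLevy
    (conc : ∀ c : ℝ≥0∞, 0 < c → ∀ ε : ℝ, 0 < ε → ∀ η : ℝ≥0∞, 0 < η → ∀ᶠ n in atTop,
      ∀ S : Set (L n), c ≤ unif (L n) S → unif (L n) {y | ∃ z ∈ S, ‖y - z‖ < ε}ᶜ ≤ η) :
    IsLevyGroup T.GG := by
  have hm : ∀ n, Measurable fun y : L n => T.pr (lp.single 1 n y) :=
    fun n => measurable_of_countable _
  refine ⟨fun n => (T.kap n).range, inferInstance,
    fun n => (unif (L n)).map fun y => T.pr (lp.single 1 n y), T.kap_mono, fun n => ?_, ?_, rfl,
    T.dist_mul_right', fun n => ⟨Measure.isProbabilityMeasure_map (hm n).aemeasurable, ?_, ?_⟩, ?_⟩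
  · exact (Set.finite_range _).isCompact
  · intro g
    obtain ⟨a, rfl⟩ := T.pr_surj g
    exact mem_closure_of_tendsto ((T.pr_cont.tendsto a).comp (tendsto_trunc a))
      (Eventually.of_forall fun m => Set.mem_iUnion.2 ⟨m, T.pr_trunc_mem a m⟩)
  · have hf : ((T.kap n).range : Set T.GG).Finite := Set.finite_range _
    beta_reduce
    rw [Measure.map_apply (hm n) hf.measurableSet.compl]
    convert measure_empty (μ := unif (L n))
    ext y
    simp only [Set.mem_preimage, Set.mem_compl_iff, Set.mem_empty_iff_false, iff_false, not_not]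
    exact ⟨Multiplicative.ofAdd y, rfl⟩
  · rintro _ ⟨y, rfl⟩
    beta_reduce
    rw [Measure.map_map (measurable_const_mul _) (hm n)]
    conv_rhs => rw [← unif_map_add n y.toAdd]
    rw [Measure.map_map (hm n) (measurable_of_countable _)]
    congr 1
    funext z
    show T.pr _ * T.pr _ = T.pr _
    rw [← pr_add, ← lp.single_add]
  · intro A hA hpos ε hε
    obtain ⟨c, hc0, hc⟩ := exists_between hpos
    have h1 := eventually_lt_of_lt_liminf hc
    have hopen : ∀ n, MeasurableSet {g : T.GG | ∃ a ∈ A n, dist g a < ε} := by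
      intro n
      have : {g : T.GG | ∃ a ∈ A n, dist g a < ε} = ⋃ a ∈ A n, Metric.ball a ε := by
        ext g; simp
      rw [this]
      exact (isOpen_biUnion fun a _ => Metric.isOpen_ball).measurableSet
    have key : Tendsto (fun n => ((unif (L n)).map fun y => T.pr (lp.single 1 n y))
        {g : T.GG | ∃ a ∈ A n, dist g a < ε}ᶜ) atTop (𝓝 0) := by
      rw [ENNReal.tendsto_nhds_zero]
      intro η hη
      filter_upwards [h1, conc c hc0 ε hε η hη] with n hn1 hn2
      rw [Measure.map_apply (hm n) (hA n).1] at hn1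
      rw [Measure.map_apply (hm n) (hopen n).compl]
      refine le_trans (measure_mono ?_) (hn2 _ hn1.le)
      intro y hy
      rintro ⟨z, hz, hyz⟩
      refine hy ⟨_, hz, (T.dist_pr_le _ _).trans_lt ?_⟩
      rwa [← lp.single_sub, lp.norm_single one_pos]
    have := (ENNReal.continuous_sub_left ENNReal.one_ne_top).continuousAt.tendsto.comp key
    rw [tsub_zero] at this
    refine this.congr fun n => ?_
    have := Measure.isProbabilityMeasure_map (μ := unif (L n)) (hm n).aemeasurable
    simp only [Function.comp]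
    rw [← prob_compl_eq_one_sub (hopen n).compl, compl_compl]

end Data

end Pool.Agent.H530Z.Levy
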