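import Mathlib
import Pool.Agent.H530Z.LevyB

set_option autoImplicit false
set_option linter.unusedSectionVars false

open MeasureTheory Filter Topology ProbabilityTheory
open scoped ENNReal symmDiff

namespace Pool.Agent.H530Z.Levy

variable {L : ℕ → Type} [∀ n, NormedAddCommGroup (L n)] [∀ n, Fintype (L n)]
  [∀ n, MeasurableSpace (L n)] [∀ n, DiscreteMeasurableSpace (L n)]
  (q : ∀ n, Measure (L n)) [∀ n, IsProbabilityMeasure (q n)]

theorem map_update (n : ℕ) :
    ((q n).prod (Measure.infinitePi q)).map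
      (fun p : L n × (∀ n, L n) => Function.update p.2 n p.1) = Measure.infinitePi q := by
  have hm : Measurable (fun p : L n × (∀ n, L n) => Function.update p.2 n p.1) :=
    measurable_update'.comp measurable_swap
  apply Measure.eq_infinitePi
  intro s t ht
  rw [Measure.map_apply hm (MeasurableSet.pi s.countable_toSet fun i _ => ht i)]
  have : (fun p : L n × (∀ n, L n) => Function.update p.2 n p.1) ⁻¹' (Set.pi s t) =
      (if n ∈ s then t n else Set.univ) ×ˢ Set.pi (s.erase n : Finset ℕ) t := by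
    ext ⟨y, x⟩
    simp only [Set.mem_preimage, Set.mem_pi, Finset.mem_coe, Set.mem_prod, Finset.mem_erase]
    constructor
    · intro h
      refine ⟨?_, fun i hi => ?_⟩
      · split_ifs with hn
        · simpa using h n hn
        · trivial
      · have := h i hi.2
        rwa [Function.update_of_ne hi.1] at this
    · rintro ⟨h1, h2⟩ i hi
      by_cases hin : i = n
      · subst hin
        rw [if_pos hi] at h1
        simpa using h1
      · rw [Function.update_of_ne hin]
        exact h2 i ⟨hin, hi⟩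
  rw [this, Measure.prod_prod, Measure.infinitePi_pi _ fun i _ => ht i]
  split_ifs with hn
  · rw [Finset.mul_prod_erase s (fun i => q i (t i)) hn]
  · rw [Finset.erase_eq_of_notMem hn, measure_univ, one_mul]

/-- conditional probability of `B` given the `n`-th coordinate -/
noncomputable def hh (n : ℕ) (B : Set (∀ n, L n)) (y : L n) : ℝ≥0∞ :=
  Measure.infinitePi q {x | Function.update x n y ∈ B}

theorem hh_le_one (n : ℕ) (B : Set (∀ n, L n)) (y : L n) : hh q n B y ≤ 1 := prob_le_one

theorem P_eq_sum (n : ℕ) {B : Set (∀ n, L n)} (hB : MeasurableSet B) :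
    Measure.infinitePi q B = ∑ y, hh q n B y * q n {y} := by
  have hm : Measurable (fun p : L n × (∀ n, L n) => Function.update p.2 n p.1) :=
    measurable_update'.comp measurable_swap
  conv_lhs => rw [← map_update q n]
  rw [Measure.map_apply hm hB, Measure.prod_apply (hm hB), lintegral_fintype]
  rfl

theorem update_add_single (n : ℕ) (x : ∀ n, L n) (y b : L n) :
    Function.update x n y + Pi.single n b = Function.update x n (y + b) := by
  funext k
  by_cases h : k = n
  · subst h; simp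
  · simp [Function.update_of_ne h, Pi.single_eq_of_ne h]

/-- one-sided total variation of a shift -/
noncomputable def tv (n : ℕ) (b : L n) : ℝ≥0∞ := ∑ y, (q n {y - b} - q n {y})

theorem tv_zero (n : ℕ) : tv q n 0 = 0 := by simp [tv]

theorem tv_one (n : ℕ) (b : L n) {B : Set (∀ n, L n)} (hB : MeasurableSet B) :
    Measure.infinitePi q {x | x + Pi.single n b ∈ B} ≤ Measure.infinitePi q B + tv q n b := by
  have h1 : MeasurableSet {x : ∀ n, L n | x + Pi.single n b ∈ B} := Data.meas_add_const _ hB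
  rw [P_eq_sum q n h1, P_eq_sum q n hB, tv, ← Finset.sum_add_distrib,
    ← Equiv.sum_comp (Equiv.subRight b)]
  refine Finset.sum_le_sum fun y _ => ?_
  have : hh q n {x : ∀ n, L n | x + Pi.single n b ∈ B} (Equiv.subRight b y) = hh q n B y := by
    unfold hh
    congr 1
    ext x
    simp [update_add_single]
  rw [this]
  calc hh q n B y * q n {Equiv.subRight b y}
      ≤ hh q n B y * (q n {y} + (q n {y - b} - q n {y})) := by
        gcongr; exact le_add_tsub
    _ = hh q n B y * q n {y} + hh q n B y * (q n {y - b} - q n {y}) := mul_add _ _ _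
    _ ≤ hh q n B y * q n {y} + 1 * (q n {y - b} - q n {y}) := by
        gcongr; exact hh_le_one q n B y
    _ = _ := by rw [one_mul]

theorem trunc_succ (b : ∀ n, L n) (m : ℕ) :
    (trunc b (m + 1)).1 = (trunc b m).1 + Pi.single m (b m) := by
  funext k
  simp only [trunc, Pi.add_apply]
  by_cases h : k = m
  · subst h; simp
  · rw [Pi.single_eq_of_ne h, add_zero]
    by_cases h2 : k < m
    · rw [if_pos h2, if_pos (by omega)]
    · rw [if_neg h2, if_neg (by omega)]

theorem tv_fin (b : ∀ n, L n) (m : ℕ) : ∀ {B : Set (∀ n, L n)}, MeasurableSet B →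
    Measure.infinitePi q {x | x + (trunc b m).1 ∈ B} ≤
      Measure.infinitePi q B + ∑ n ∈ Finset.range m, tv q n (b n) := by
  induction m with
  | zero =>
    intro B _
    have : (trunc b 0).1 = 0 := by funext k; simp [trunc]
    simp [this]
  | succ m ih =>
    intro B hB
    have h1 : MeasurableSet {x : ∀ n, L n | x + Pi.single m (b m) ∈ B} :=
      Data.meas_add_const _ hB
    have := ih h1
    simp only [Set.mem_ofPred_eq, add_assoc, ← trunc_succ] at this
    refine this.trans ?_
    rw [Finset.sum_range_succ, add_comm _ (tv q m (b m)), ← add_assoc]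
    gcongr
    exact tv_one q m (b m) hB

/-- sets depending on the first `m` coordinates -/
def Dep (m : ℕ) (C : Set (∀ n, L n)) : Prop :=
  ∀ x y : ∀ n, L n, (∀ n < m, x n = y n) → x ∈ C → y ∈ C

theorem Dep.mono {m m' : ℕ} {C : Set (∀ n, L n)} (h : Dep m C) (hm : m ≤ m') : Dep m' C :=
  fun x y hxy => h x y fun n hn => hxy n (by omega)

theorem approx (ν : Measure (∀ n, L n)) [IsFiniteMeasure ν] {B : Set (∀ n, L n)}
    (hB : MeasurableSet B) {ε : ℝ≥0∞} (hε : ε ≠ 0) :
    ∃ m C, MeasurableSet C ∧ Dep m C ∧ ν (B ∆ C) < ε := by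
  have halg : IsSetAlgebra {C : Set (∀ n, L n) | MeasurableSet C ∧ ∃ m, Dep m C} := by
    refine ⟨⟨MeasurableSet.empty, 0, fun _ _ _ h => h⟩, ?_, ?_⟩
    · rintro s ⟨h1, m, h2⟩
      exact ⟨h1.compl, m, fun x y hxy hx hy => hx (h2 y x (fun n hn => (hxy n hn).symm) hy)⟩
    · rintro s t ⟨h1, m, h2⟩ ⟨h3, m', h4⟩
      exact ⟨h1.union h3, max m m', fun x y hxy hx => hx.imp
        (h2.mono (le_max_left _ _) x y hxy) (h4.mono (le_max_right _ _) x y hxy)⟩
  have hgen : (MeasurableSpace.pi : MeasurableSpace (∀ n, L n)) = MeasurableSpace.generateFrom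
      {C : Set (∀ n, L n) | MeasurableSet C ∧ ∃ m, Dep m C} := by
    apply le_antisymm
    · refine iSup_le fun n => ?_
      rintro _ ⟨S, hS, rfl⟩
      refine MeasurableSpace.measurableSet_generateFrom ⟨measurable_pi_apply n hS, n + 1, ?_⟩
      intro x y hxy hx
      simpa [← hxy n (by omega)] using hx
    · exact MeasurableSpace.generateFrom_le fun s hs => hs.1
  have hd := Measure.MeasureDense.of_generateFrom_isSetAlgebra_finite ν halg hgen
  obtain ⟨r, -, hr0, hr⟩ := ENNReal.lt_iff_exists_real_btwn.1 (pos_iff_ne_zero.2 hε)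
  obtain ⟨C, ⟨h1, m, h2⟩, h3⟩ := hd.approx B hB (measure_ne_top _ _) r
    (ENNReal.ofReal_pos.1 hr0)
  exact ⟨m, C, h1, h2, h3.trans hr⟩

theorem le_add_symmDiff {X : Type*} [MeasurableSpace X] (ν : Measure X) (B C : Set X) :
    ν B ≤ ν C + ν (B ∆ C) := by
  refine (measure_mono ?_).trans (measure_union_le _ _)
  intro x hx
  by_cases h : x ∈ C
  · exact Or.inl h
  · exact Or.inr (Or.inl ⟨hx, h⟩)

theorem tv_inf (b : ∀ n, L n) {B : Set (∀ n, L n)} (hB : MeasurableSet B) :
    Measure.infinitePi q {x | x + b ∈ B} ≤ Measure.infinitePi q B + ∑' n, tv q n (b n) := by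
  refine ENNReal.le_of_forall_pos_le_add fun ε hε _ => ?_
  set P := Measure.infinitePi q
  have hm := Data.meas_add_const b
  obtain ⟨m, C, h1, h2, h3⟩ := approx (P + P.map (fun x => x + b)) hB
    (ε := ε) (by exact_mod_cast hε.ne')
  rw [Measure.add_apply, Measure.map_apply hm (hB.symmDiff h1)] at h3
  have e1 : {x | x + b ∈ C} = {x | x + (trunc b m).1 ∈ C} := by
    ext x
    constructor
    · exact h2 _ _ fun n hn => by simp [trunc, hn]
    · exact h2 _ _ fun n hn => by simp [trunc, hn]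
  calc P {x | x + b ∈ B} ≤ P {x | x + b ∈ C} + P ((fun x => x + b) ⁻¹' (B ∆ C)) := by
        rw [Set.preimage_symmDiff]; exact le_add_symmDiff P _ _
    _ ≤ (P C + ∑ n ∈ Finset.range m, tv q n (b n)) + P ((fun x => x + b) ⁻¹' (B ∆ C)) := by
        gcongr; rw [e1]; exact tv_fin q b m h1
    _ ≤ ((P B + P (B ∆ C)) + ∑' n, tv q n (b n)) + P ((fun x => x + b) ⁻¹' (B ∆ C)) := by
        gcongr
        · rw [symmDiff_comm]; exact le_add_symmDiff P _ _
        · exact ENNReal.sum_le_tsum _
    _ = P B + ∑' n, tv q n (b n) + (P (B ∆ C) + P ((fun x => x + b) ⁻¹' (B ∆ C))) := by ring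
    _ ≤ _ := by gcongr

theorem zero_one {B : Set (∀ n, L n)} (hB : MeasurableSet B)
    (hinv : ∀ e ∈ FS L, ∀ x, x ∈ B ↔ x + e ∈ B) :
    Measure.infinitePi q B = 0 ∨ Measure.infinitePi q B = 1 := by
  have hind : iIndepFun (fun n (x : ∀ n, L n) => x n) (Measure.infinitePi q) :=
    iIndepFun_infinitePi (X := fun n (y : L n) => y) fun _ => measurable_id
  rw [iIndepFun_iff_iIndep] at hind
  refine measure_zero_or_one_of_measurableSet_limsup_atTop
    (fun n => (measurable_pi_apply n).comap_le) hind ?_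
  rw [limsup_eq_iInf_iSup_of_nat, MeasurableSpace.measurableSet_iInf]
  intro m
  have e : B = (fun x : ∀ n, L n => x + -(trunc x m).1) ⁻¹' B := by
    ext x
    exact hinv _ (neg_mem (trunc x m).2) x
  rw [e]
  have hf : @Measurable _ _
      (⨆ i ≥ m, MeasurableSpace.comap (fun x : ∀ n, L n => x i) inferInstance) MeasurableSpace.pi
      (fun x : ∀ n, L n => x + -(trunc x m).1) := by
    refine (@measurable_pi_iff _ _ _ (_) _ _).2 fun n => ?_
    by_cases h : n < m
    · have : (fun x : ∀ n, L n => (x + -(trunc x m).1) n) = fun _ => 0 := by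
        funext x; simp [trunc, h]
      rw [this]; exact measurable_const
    · have : (fun x : ∀ n, L n => (x + -(trunc x m).1) n) = fun x => x n := by
        funext x; simp [trunc, h]
      rw [this]
      exact Measurable.of_comap_le (le_iSup₂_of_le n (not_lt.1 h) le_rfl)
  exact hf hB

namespace Data

variable (T : Data L)

/-- hypotheses on the level measures -/
structure Good : Prop where
  supp : ∀ n (y : L (n + 1)), q (n + 1) {y} ≠ 0 →
    ∀ a : L (n + 1), ‖a‖ ≤ (n : ℝ) + 1 → T.δ n (y + a) = 0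
  tvb : ∃ η : ℕ → ℝ≥0∞, ∑' n, η n ≠ ∞ ∧ ∀ n (b : L n), ‖b‖ ≤ 1 → tv q n b ≤ η n
  atom : ∀ n (y : L (n + 1)), q (n + 1) {y} ≤ 3 / 4

/-- the product of the supports -/
def Sup : Set (∀ n, L n) := {x | ∀ n, q n {x n} ≠ 0}

theorem Sup_meas : MeasurableSet (Sup q) := by
  have : Sup q = ⋂ n, {x : ∀ n, L n | x n ∈ {y | q n {y} ≠ 0}} := by ext x; simp [Sup]
  rw [this]; exact MeasurableSet.iInter fun n => meas_coord _ _

theorem ae_Sup : ∀ᵐ x ∂Measure.infinitePi q, x ∈ Sup q := by
  refine ae_all_iff.2 fun n => ?_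
  have h1 : ∀ᵐ y ∂q n, q n {y} ≠ 0 := by
    rw [ae_iff]
    have : {a : L n | ¬q n {a} ≠ 0} = ⋃ a ∈ {a : L n | q n {a} = 0}, {a} := by ext; simp
    rw [this, measure_biUnion_null_iff (Set.to_countable _)]
    exact fun a ha => ha
  exact (measurePreserving_eval_infinitePi q n).quasiMeasurePreserving.ae h1

variable {q} {T}

theorem mem_DD_of_eventually (hq : T.Good q) {x : ∀ n, L n} (h0 : x ∈ T.D0) (M : ℕ)
    (hx : ∀ n, M ≤ n → q n {x n} ≠ 0) : x ∈ T.DD := by
  refine ⟨h0, fun k => ⟨max M k, fun n hn a ha => hq.supp n _ (hx _ ?_) a ?_⟩⟩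
  · have := le_of_max_le_left hn; omega
  · have : (k : ℝ) ≤ n := by exact_mod_cast le_of_max_le_right hn
    linarith

theorem delta_zero (hq : T.Good q) {n : ℕ} {y : L (n + 1)} (hy : q (n + 1) {y} ≠ 0) :
    T.δ n y = 0 := by
  simpa using hq.supp n y hy 0 (by rw [norm_zero]; positivity)

theorem Sup_subset (hq : T.Good q) : Sup q ⊆ T.DD := fun _ hx =>
  mem_DD_of_eventually hq (fun n => delta_zero hq (hx (n + 1))) 0 fun n _ => hx n

theorem ae_DD (hq : T.Good q) : ∀ᵐ x ∂Measure.infinitePi q, x ∈ T.DD :=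
  (ae_Sup q).mono (Sup_subset hq)

theorem P_act (hq : T.Good q) (a : lp L 1) (N : Set (∀ n, L n)) :
    Measure.infinitePi q (T.act a ⁻¹' N) =
      Measure.infinitePi q {x | x + (a : ∀ n, L n) ∈ T.ret ⁻¹' N} := by
  refine measure_congr ?_
  filter_upwards [ae_DD hq] with x hx
  show (T.act a x ∈ N) = (T.ret _ ∈ N)
  rw [T.act_of_mem a hx]

theorem quasi (hq : T.Good q) {N : Set (∀ n, L n)} (hN : MeasurableSet N)
    (h : ∀ e : FS L, Measure.infinitePi q (T.act (toA e) ⁻¹' N) = 0) (a : lp L 1) :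
    Measure.infinitePi q (T.act a ⁻¹' N) = 0 := by
  obtain ⟨η, hη, hb⟩ := hq.tvb
  have h1 := ENNReal.tendsto_sum_nat_add η hη
  have h2 : ∀ᶠ m in atTop, ‖a - toA (trunc (a : ∀ n, L n) m)‖ ≤ 1 := by
    have := (tendsto_const_nhds (x := a)).sub (tendsto_trunc a)
    rw [sub_self] at this
    have := this.norm
    rw [norm_zero] at this
    exact this.eventually (eventually_le_nhds one_pos)
  refine le_antisymm (ge_of_tendsto h1 ?_) zero_le
  filter_upwards [h2] with m hm
  set e := trunc (a : ∀ n, L n) m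
  set b : lp L 1 := a - toA e
  have hB : MeasurableSet {z : ∀ n, L n | z + e.1 ∈ T.ret ⁻¹' N} :=
    meas_add_const _ (T.ret_meas hN)
  have e1 : {x | x + (a : ∀ n, L n) ∈ T.ret ⁻¹' N} =
      {x | x + (b : ∀ n, L n) ∈ {z : ∀ n, L n | z + e.1 ∈ T.ret ⁻¹' N}} := by
    ext x
    simp only [Set.mem_ofPred_eq, b, lp.coeFn_sub, coe_toA, add_assoc, sub_add_cancel]
  have e2 := h e
  rw [P_act hq, coe_toA] at e2
  rw [P_act hq, e1]
  refine (tv_inf q _ hB).trans ?_
  rw [e2, zero_add, ← ENNReal.summable.sum_add_tsum_nat_add' (k := m)]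
  have : ∑ i ∈ Finset.range m, tv q i (b i) = 0 := by
    refine Finset.sum_eq_zero fun i hi => ?_
    have : b i = 0 := by
      simp only [b, lp.coeFn_sub, coe_toA, Pi.sub_apply, e, trunc, if_pos (Finset.mem_range.1 hi),
        sub_self]
    rw [this, tv_zero]
  rw [this, zero_add]
  exact ENNReal.tsum_le_tsum fun k =>
    hb _ _ ((lp.norm_apply_le_norm one_ne_zero b _).trans hm)

theorem P_zero_one (hq : T.Good q) {N : Set (∀ n, L n)} (hN : MeasurableSet N)
    (h : ∀ a, T.act a ⁻¹' N = N) : Measure.infinitePi q N = 0 ∨ Measure.infinitePi q N = 1 := by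
  have e1 : Measure.infinitePi q N = Measure.infinitePi q (T.X0 ∩ T.ret ⁻¹' N) := by
    refine measure_congr ?_
    filter_upwards [ae_DD hq] with x hx
    show (x ∈ N) = (x ∈ T.X0 ∧ T.ret x ∈ N)
    rw [T.ret_of_mem hx]
    simp [hx.2]
  rw [e1]
  refine zero_one q (T.X0_meas.inter (T.ret_meas hN)) ?_
  have key : ∀ e ∈ FS L, ∀ x, x ∈ T.X0 ∩ T.ret ⁻¹' N → x + e ∈ T.X0 ∩ T.ret ⁻¹' N := by
    rintro e he z ⟨hz, hzN⟩
    refine ⟨T.X0_add_FS hz he, ?_⟩
    obtain ⟨c, hc, h1, h2⟩ := T.ret_spec hz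
    have h3 : T.ret z ∈ T.act (toA ⟨e, he⟩) ⁻¹' N := by rw [h]; exact hzN
    rw [Set.mem_preimage, T.act_of_mem _ h2, h1, coe_toA, add_right_comm,
      T.ret_add_bd (T.X0_add_FS hz he) hc] at h3
    exact h3
  intro e he x
  refine ⟨key e he x, fun hx => ?_⟩
  simpa using key (-e) (neg_mem he) _ hx

theorem P_singleton (hq : T.Good q) (x : ∀ n, L n) : Measure.infinitePi q {x} = 0 := by
  have h1 : ∀ m, Measure.infinitePi q {x} ≤ (3 / 4 : ℝ≥0∞) ^ m := by
    intro m
    have h2 : ({x} : Set (∀ n, L n)) ⊆ Set.pi (Finset.range (m + 1) : Finset ℕ) fun n => {x n} := by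
      rintro _ rfl i _; rfl
    refine (measure_mono h2).trans ?_
    rw [Measure.infinitePi_pi _ fun i _ => measurableSet_singleton _, Finset.prod_range_succ']
    calc (∏ k ∈ Finset.range m, q (k + 1) {x (k + 1)}) * q 0 {x 0}
        ≤ (∏ _k ∈ Finset.range m, (3 / 4 : ℝ≥0∞)) * 1 := by
          gcongr with k
          · exact hq.atom k _
          · exact prob_le_one
      _ = _ := by simp
  have h3 : Tendsto (fun m : ℕ => (3 / 4 : ℝ≥0∞) ^ m) atTop (𝓝 0) :=
    ENNReal.tendsto_pow_atTop_nhds_zero_of_lt_one (by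
      rw [ENNReal.div_lt_iff (by norm_num) (by norm_num)]; norm_num)
  exact le_antisymm (ge_of_tendsto' h3 h1) zero_le

end Data

end Pool.Agent.H530Z.Levy
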