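import Mathlib
import Pool.Agent.H530Z.LevyC

set_option autoImplicit false
set_option linter.unusedSectionVars false

open MeasureTheory Filter Topology ProbabilityTheory
open scoped ENNReal symmDiff

namespace Pool.Agent.H530Z.Levy

variable {L : ℕ → Type} [∀ n, NormedAddCommGroup (L n)] [∀ n, Fintype (L n)]
  [∀ n, MeasurableSpace (L n)] [∀ n, DiscreteMeasurableSpace (L n)]
  {q : ∀ n, Measure (L n)} [∀ n, IsProbabilityMeasure (q n)]

theorem P_fibre (n : ℕ) (z y : L n) {S : Set (∀ n, L n)} (hS : MeasurableSet S) :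
    Measure.infinitePi q {x | x n = z ∧ Function.update x n y ∈ S} = hh q n S y * q n {z} := by
  have hm : MeasurableSet {x : ∀ n, L n | x n = z ∧ Function.update x n y ∈ S} :=
    (Data.meas_coord n {z}).inter (measurable_update_left hS)
  rw [P_eq_sum q n hm, Finset.sum_eq_single z]
  · congr 1
    unfold hh
    congr 1
    ext x
    simp
  · intro b _ hb
    have : hh q n {x : ∀ n, L n | x n = z ∧ Function.update x n y ∈ S} b = 0 := by
      unfold hh
      convert measure_empty (μ := Measure.infinitePi q)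
      ext x
      simp [hb]
    rw [this, zero_mul]
  · simp

namespace Data

variable {T : Data L}

theorem ergodicSpatial (hq : T.Good q) (μ : Measure (∀ n, L n)) (hσ : SigmaFinite μ)
    (hnull : ∀ N, MeasurableSet N →
      (μ N = 0 ↔ ∀ e : FS L, Measure.infinitePi q (T.act (toA e) ⁻¹' N) = 0)) :
    IsErgodicSpatial T.GG (∀ n, L n) μ := by
  have hn : ∀ N, MeasurableSet N →
      (μ N = 0 ↔ ∀ a, Measure.infinitePi q (T.act a ⁻¹' N) = 0) := fun N hN =>
    (hnull N hN).trans ⟨fun h => quasi hq hN h, fun h e => h _⟩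
  have hcomp : ∀ a b (N : Set (∀ n, L n)), T.act b ⁻¹' (T.act a ⁻¹' N) = T.act (a + b) ⁻¹' N := by
    intro a b N; ext x; simp [act_add]
  refine ⟨T.meas_action, hσ, ?_, fun x => ?_, fun g => ?_, fun B hB hinv => ?_⟩
  · intro h0
    have := (hn Set.univ MeasurableSet.univ).1 (by simp [h0]) 0
    simp at this
  · refine (hn _ (measurableSet_singleton x)).2 fun a => ?_
    refine measure_mono_null ?_ (P_singleton hq (T.act (-a) x))
    rintro z rfl
    exact (T.act_neg_act a z).symm
  · obtain ⟨a, rfl⟩ := T.pr_surj g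
    rw [pr_smul]
    constructor
    · refine Measure.AbsolutelyContinuous.mk fun N hN h => ?_
      rw [Measure.map_apply (T.act_meas a) hN, hn _ (T.act_meas a hN)]
      intro b
      rw [hcomp]
      exact (hn N hN).1 h _
    · refine Measure.AbsolutelyContinuous.mk fun N hN h => ?_
      rw [Measure.map_apply (T.act_meas a) hN, hn _ (T.act_meas a hN)] at h
      refine (hn N hN).2 fun b => ?_
      have := h (-a + b)
      rwa [hcomp, add_neg_cancel_left] at this
  · have h1 : ∀ a, T.act a ⁻¹' B = B := fun a => by rw [← pr_smul]; exact hinv _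
    rcases P_zero_one hq hB h1 with h | h
    · exact Or.inl ((hn B hB).2 fun a => by rw [h1, h])
    · refine Or.inr ((hn _ hB.compl).2 fun a => ?_)
      rw [Set.preimage_compl, h1, prob_compl_eq_zero_iff hB, h]

theorem exists_finite_measure (T : Data L) (q : ∀ n, Measure (L n))
    [∀ n, IsProbabilityMeasure (q n)] :
    ∃ μ : Measure (∀ n, L n), SigmaFinite μ ∧ ∀ N, MeasurableSet N →
      (μ N = 0 ↔ ∀ e : FS L, Measure.infinitePi q (T.act (toA e) ⁻¹' N) = 0) := by
  obtain ⟨en, hen⟩ := exists_surjective_nat (FS L)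
  refine ⟨Measure.sum fun k => (2⁻¹ : ℝ≥0∞) ^ k • (Measure.infinitePi q).map (T.act (toA (en k))),
    ?_, fun N hN => ?_⟩
  · have : IsFiniteMeasure (Measure.sum fun k =>
        (2⁻¹ : ℝ≥0∞) ^ k • (Measure.infinitePi q).map (T.act (toA (en k)))) := by
      constructor
      rw [Measure.sum_apply _ MeasurableSet.univ]
      simp [Measure.map_apply (T.act_meas _) MeasurableSet.univ, ENNReal.tsum_geometric]
    infer_instance
  · rw [Measure.sum_apply _ hN, ENNReal.tsum_eq_zero]
    simp only [Measure.smul_apply, smul_eq_mul, Measure.map_apply (T.act_meas _) hN, mul_eq_zero]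
    constructor
    · intro h e
      obtain ⟨k, rfl⟩ := hen e
      exact (h k).resolve_left (by simp)
    · exact fun h k => Or.inr (h _)

theorem update_mem_Sup {x : ∀ n, L n} (hx : x ∈ Sup q) {n : ℕ} {y : L n} (hy : q n {y} ≠ 0) :
    Function.update x n y ∈ Sup q := by
  intro k
  by_cases h : k = n
  · subst h; simpa using hy
  · rw [Function.update_of_ne h]; exact hx k

theorem act_single {x : ∀ n, L n} (hx : x ∈ T.DD) {n : ℕ} {y : L n}
    (hy : Function.update x n y ∈ T.DD) :
    T.act (lp.single 1 n (y - x n)) x = Function.update x n y := by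
  have e : x + ((lp.single 1 n (y - x n) : lp L 1) : ∀ n, L n) = Function.update x n y := by
    rw [lp.coeFn_single]
    conv_lhs => rw [← Function.update_eq_self n x]
    rw [update_add_single]
    simp
  rw [T.act_of_add_mem _ hx (by rwa [e]), e]

/-- the hypothesis giving type III -/
def Three (q : ∀ n, Measure (L n)) : Prop :=
  ∀ n, ∃ (dom : Finset (L (n + 1))) (t : L (n + 1) → L (n + 1)), Set.InjOn t dom ∧
    (∀ y ∈ dom, q (n + 1) {y} ≤ 4 * q (n + 1) {t y} ∧ 2 * q (n + 1) {t y} ≤ q (n + 1) {y}) ∧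
    1 ≤ 2 * ∑ y ∈ dom, q (n + 1) {y}

theorem no_invariant (hq : T.Good q) (h3 : Three q) (ρ : Measure (∀ n, L n)) [SigmaFinite ρ]
    (hac : Measure.infinitePi q ≪ ρ) (hinv : ∀ a, ρ.map (T.act a) = ρ) : False := by
  classical
  set P := Measure.infinitePi q with hP
  set f := P.rnDeriv ρ
  have hf : Measurable f := Measure.measurable_rnDeriv _ _
  have hPf : ρ.withDensity f = P := Measure.withDensity_rnDeriv_eq P ρ hac
  obtain ⟨c, hc⟩ : ∃ c : ℝ≥0∞, P {x | c ≤ f x ∧ f x < c * (3 / 2)} ≠ 0 := by
    by_contra hcon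
    push Not at hcon
    have h0 : P (⋃ k : ℤ, {x | (3 / 2 : ℝ≥0∞) ^ k ≤ f x ∧ f x < (3 / 2 : ℝ≥0∞) ^ k * (3 / 2)}) = 0 :=
      measure_iUnion_null fun k => hcon _
    have h1 : ∀ᵐ x ∂P, 0 < f x := Measure.rnDeriv_pos hac
    have h2 : ∀ᵐ x ∂P, f x < ∞ := hac.ae_le (Measure.rnDeriv_lt_top P ρ)
    have h4 : ∀ᵐ x ∂P, False := by
      filter_upwards [h1, h2, compl_mem_ae_iff.2 h0] with x x1 x2 x3
      have t1 : (3 / 2 : ℝ≥0∞) ≠ ⊤ := ENNReal.div_ne_top (by norm_num) (by norm_num)
      have t2 : (1 : ℝ≥0∞) < 3 / 2 := by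
        rw [ENNReal.lt_div_iff_mul_lt (by norm_num) (by norm_num)]; norm_num
      obtain ⟨k, hk⟩ := ENNReal.exists_mem_Ico_zpow x1.ne' x2.ne t2 t1
      rw [ENNReal.zpow_add (by positivity) t1, zpow_one] at hk
      exact x3 (Set.mem_iUnion.2 ⟨k, hk⟩)
    obtain ⟨_, h5⟩ := h4.exists
    exact h5
  set J := {x | c ≤ f x ∧ f x < c * (3 / 2)}
  have hJ : MeasurableSet J :=
    (measurableSet_le measurable_const hf).inter (measurableSet_lt hf measurable_const)
  have hlo : ∀ B, MeasurableSet B → B ⊆ J → c * ρ B ≤ P B := by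
    intro B hB hBJ
    rw [← hPf, withDensity_apply _ hB, ← setLIntegral_const]
    exact setLIntegral_mono hf fun x hx => (hBJ hx).1
  have hhi : ∀ B, MeasurableSet B → B ⊆ J → P B ≤ c * (3 / 2) * ρ B := by
    intro B hB hBJ
    rw [← hPf, withDensity_apply _ hB, ← setLIntegral_const]
    exact setLIntegral_mono measurable_const fun x hx => (hBJ hx).2.le
  -- no return to `J`
  have key : ∀ n (y y' : L n), q n {y'} ≠ 0 → 2 * q n {y'} ≤ q n {y} →
      P {x | x n = y ∧ Function.update x n y ∈
        {z | z ∈ J ∩ Sup q ∧ Function.update z n y' ∈ J}} = 0 := by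
    intro n y y' h1 h2
    set S := {z | z ∈ J ∩ Sup q ∧ Function.update z n y' ∈ J}
    have hS : MeasurableSet S := (hJ.inter (Sup_meas q)).inter (measurable_update_left hJ)
    have hW : ∀ z, MeasurableSet {x : ∀ n, L n | x n = z ∧ Function.update x n y ∈ S} :=
      fun z => (meas_coord n {z}).inter (measurable_update_left hS)
    have a1 := hhi _ (hW y) (by
      rintro x ⟨rfl, hx⟩
      rw [Function.update_eq_self] at hx
      exact hx.1.1)
    have a2 := hlo _ (hW y') (by
      rintro x ⟨rfl, hx⟩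
      have := hx.2
      rwa [Function.update_idem, Function.update_eq_self] at this)
    have a3 : ρ {x : ∀ n, L n | x n = y ∧ Function.update x n y ∈ S} ≤
        ρ {x : ∀ n, L n | x n = y' ∧ Function.update x n y ∈ S} := by
      conv_rhs => rw [← hinv (lp.single 1 n (y' - y)), Measure.map_apply (T.act_meas _) (hW y')]
      refine measure_mono ?_
      rintro x ⟨rfl, hx⟩
      rw [Function.update_eq_self] at hx
      rw [Set.mem_preimage,
        act_single (Sup_subset hq hx.1.2) (Sup_subset hq (update_mem_Sup hx.1.2 h1))]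
      refine ⟨by simp, ?_⟩
      rwa [Function.update_idem, Function.update_eq_self]
    rw [hP, P_fibre n _ _ hS] at a1 a2
    rw [hP, P_fibre n _ _ hS]
    set H := hh q n S y
    have b1 : 4 * (H * q n {y}) ≤ 3 * (H * q n {y}) := by
      calc 4 * (H * q n {y}) ≤ 4 * (c * (3 / 2) *
            ρ {x : ∀ n, L n | x n = y' ∧ Function.update x n y ∈ S}) := by
            exact mul_le_mul_right (a1.trans (mul_le_mul_right a3 _)) _
        _ = 4 * (3 / 2) * (c * ρ {x : ∀ n, L n | x n = y' ∧ Function.update x n y ∈ S}) := by ring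
        _ ≤ 4 * (3 / 2) * (H * q n {y'}) := by gcongr
        _ = 3 * (H * (2 * q n {y'})) := by
            have : (4 : ℝ≥0∞) * (3 / 2) = 6 := by
              rw [← mul_div_assoc, eq_comm, ENNReal.eq_div_iff (by norm_num) (by norm_num)]
              norm_num
            rw [this]; ring
        _ ≤ 3 * (H * q n {y}) := by gcongr
    have b2 : H * q n {y} ≠ ⊤ :=
      ENNReal.mul_ne_top (ne_top_of_le_ne_top ENNReal.one_ne_top (hh_le_one q n S y))
        (measure_ne_top _ _)
    by_contra b3
    have := (ENNReal.mul_le_mul_iff_left b3 b2).1 b1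
    norm_num at this
  obtain ⟨m, C, hC, hdep, hCJ⟩ := approx P hJ (ε := P J / 11)
    (ENNReal.div_ne_zero.2 ⟨hc, by norm_num⟩)
  obtain ⟨dom, t, hinj, ht, hdom⟩ := h3 m
  have hE : MeasurableSet (C \ J) := hC.diff hJ
  have hstep : ∀ y ∈ dom, P C * q (m + 1) {y} ≤ hh q (m + 1) (C \ J) y * q (m + 1) {y} +
      4 * (hh q (m + 1) (C \ J) (t y) * q (m + 1) {t y}) := by
    intro y hy
    by_cases hy0 : q (m + 1) {y} = 0
    · simp [hy0]
    have hty : q (m + 1) {t y} ≠ 0 := by
      intro h0
      have := (ht y hy).1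
      rw [h0, mul_zero] at this
      exact hy0 (le_antisymm this zero_le)
    have hupd : ∀ (x : ∀ n, L n) z, x ∈ C → Function.update x (m + 1) z ∈ C := fun x z =>
      hdep _ _ fun n hn => (Function.update_of_ne (by omega) _ _).symm
    have e1 : P C ≤ hh q (m + 1) C y := measure_mono fun x hx => hupd x y hx
    calc P C * q (m + 1) {y} ≤ hh q (m + 1) C y * q (m + 1) {y} := by gcongr
      _ = P {x | x (m + 1) = y ∧ Function.update x (m + 1) y ∈ C} := (P_fibre _ _ _ hC).symm
      _ ≤ P ({x | x (m + 1) = y ∧ Function.update x (m + 1) y ∈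
            {z | z ∈ J ∩ Sup q ∧ Function.update z (m + 1) (t y) ∈ J}} ∪
          ({x | x (m + 1) = y ∧ Function.update x (m + 1) y ∈ C \ J} ∪
          {x | x (m + 1) = y ∧ Function.update x (m + 1) (t y) ∈ C \ J})) := by
          refine measure_mono_ae ?_
          filter_upwards [ae_Sup q] with x hx
          rintro ⟨h1, h2⟩
          subst h1
          by_cases j1 : Function.update x (m + 1) (x (m + 1)) ∈ J
          · by_cases j2 : Function.update x (m + 1) (t (x (m + 1))) ∈ J
            · left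
              refine ⟨rfl, ⟨j1, by rwa [Function.update_eq_self]⟩, ?_⟩
              rwa [Function.update_idem]
            · right; right
              rw [Function.update_eq_self] at h2
              exact ⟨rfl, hupd _ _ h2, j2⟩
          · right; left
            exact ⟨rfl, h2, j1⟩
      _ ≤ 0 + (hh q (m + 1) (C \ J) y * q (m + 1) {y} +
          hh q (m + 1) (C \ J) (t y) * q (m + 1) {y}) := by
          refine (measure_union_le _ _).trans (add_le_add (key _ _ _ hty (ht y hy).2).le ?_)
          refine (measure_union_le _ _).trans ?_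
          rw [hP, P_fibre _ _ _ hE, P_fibre _ _ _ hE]
      _ ≤ _ := by
          rw [zero_add, mul_left_comm]
          gcongr
          exact (ht y hy).1
  have s1 : ∑ y ∈ dom, hh q (m + 1) (C \ J) y * q (m + 1) {y} ≤ P (C \ J) := by
    rw [hP, P_eq_sum q (m + 1) hE]
    exact Finset.sum_le_sum_of_subset (Finset.subset_univ _)
  have s2 : ∑ y ∈ dom, hh q (m + 1) (C \ J) (t y) * q (m + 1) {t y} ≤ P (C \ J) := by
    rw [hP, P_eq_sum q (m + 1) hE,
      ← Finset.sum_image (f := fun y => hh q (m + 1) (C \ J) y * q (m + 1) {y}) hinj]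
    exact Finset.sum_le_sum_of_subset (Finset.subset_univ _)
  have s3 : P (C \ J) ≤ P (J ∆ C) := measure_mono fun x hx => Or.inr hx
  have s4 : P C ≤ 10 * P (J ∆ C) := by
    calc P C = P C * 1 := (mul_one _).symm
      _ ≤ P C * (2 * ∑ y ∈ dom, q (m + 1) {y}) := by gcongr
      _ = 2 * ∑ y ∈ dom, P C * q (m + 1) {y} := by rw [mul_left_comm, Finset.mul_sum]
      _ ≤ 2 * ∑ y ∈ dom, (hh q (m + 1) (C \ J) y * q (m + 1) {y} +
          4 * (hh q (m + 1) (C \ J) (t y) * q (m + 1) {t y})) := by
          gcongr with y hy; exact hstep y hy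
      _ ≤ 2 * (P (J ∆ C) + 4 * P (J ∆ C)) := by
          rw [Finset.sum_add_distrib, ← Finset.mul_sum]
          gcongr
          · exact s1.trans s3
          · exact s2.trans s3
      _ = _ := by ring
  have s5 : P J ≤ P (J ∆ C) * 11 := by
    refine (le_add_symmDiff P J C).trans ?_
    calc P C + P (J ∆ C) ≤ 10 * P (J ∆ C) + P (J ∆ C) := by gcongr
      _ = _ := by ring
  rw [ENNReal.lt_div_iff_mul_lt (by norm_num) (by norm_num)] at hCJ
  exact absurd s5 (not_le.2 hCJ)

theorem typeIII (hq : T.Good q) (h3 : Three q) :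
    ∃ μ : Measure (∀ n, L n), IsTypeIII T.GG (∀ n, L n) μ := by
  obtain ⟨μ, hσ, hμ⟩ := exists_finite_measure T q
  refine ⟨μ, ergodicSpatial hq μ hσ hμ, ?_⟩
  rintro ⟨ρ, h1, -, h2, h4⟩
  refine no_invariant hq h3 ρ (Measure.AbsolutelyContinuous.trans ?_ h2) fun a => ?_
  · refine Measure.AbsolutelyContinuous.mk fun N hN h => ?_
    have := (hμ N hN).1 h 0
    have e : T.act (toA 0) = id := funext fun x => T.act_zero x
    rwa [e] at this
  · rw [← pr_smul]; exact h4 _

end Data

end Pool.Agent.H530Z.Levy
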