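import Mathlib
import Pool.Agent.H530Z.LevyD

set_option autoImplicit false
set_option linter.unusedSectionVars false

open MeasureTheory Filter Topology ProbabilityTheory
open scoped ENNReal symmDiff

namespace Pool.Agent.H530Z.Levy

variable {L : ℕ → Type} [∀ n, NormedAddCommGroup (L n)] [∀ n, Fintype (L n)]
  [∀ n, MeasurableSpace (L n)] [∀ n, DiscreteMeasurableSpace (L n)]
  {q : ∀ n, Measure (L n)} [∀ n, IsProbabilityMeasure (q n)]

theorem ext_box {μ ν : Measure (∀ n, L n)} [IsFiniteMeasure μ]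
    (h : ∀ t : ∀ n, Set (L n), μ (Set.univ.pi t) = ν (Set.univ.pi t)) : μ = ν := by
  refine ext_of_generate_finite (Set.range fun t : ∀ n, Set (L n) => Set.univ.pi t) ?_ ?_ ?_ ?_
  · apply le_antisymm
    · refine iSup_le fun n => ?_
      rintro _ ⟨S, -, rfl⟩
      refine MeasurableSpace.measurableSet_generateFrom
        ⟨Function.update (fun _ => Set.univ) n S, ?_⟩
      exact Set.eval_preimage.symm
    · refine MeasurableSpace.generateFrom_le ?_
      rintro _ ⟨t, rfl⟩
      exact MeasurableSet.univ_pi fun _ => MeasurableSet.of_discrete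
  · rintro _ ⟨t, rfl⟩ _ ⟨t', rfl⟩ _
    exact ⟨fun n => t n ∩ t' n, Set.pi_inter_distrib⟩
  · rintro _ ⟨t, rfl⟩
    exact h t
  · simpa using h fun _ => Set.univ

theorem meas_eq_sum (n : ℕ) (S : Set (L n)) :
    q n S = ∑ y, S.indicator (fun y => q n {y}) y := by
  rw [← lintegral_indicator_one MeasurableSet.of_discrete, lintegral_fintype]
  refine Finset.sum_congr rfl fun y _ => ?_
  by_cases h : y ∈ S <;> simp [h]

namespace Data

variable {T : Data L}

/-- uniform on the support -/
def Unif (q : ∀ n, Measure (L n)) : Prop :=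
  ∀ n (y y' : L n), q n {y} ≠ 0 → q n {y'} ≠ 0 → q n {y} = q n {y'}

theorem shift_eq (hu : Unif q) (b : ∀ n, L n) {V : Set (∀ n, L n)} (hV : MeasurableSet V)
    (h1 : V ⊆ Sup q) (h2 : (fun x => x + b) ⁻¹' V ⊆ Sup q) :
    Measure.infinitePi q ((fun x => x + b) ⁻¹' V) = Measure.infinitePi q V := by
  set P := Measure.infinitePi q with hP
  have key : (P.restrict (Sup q ∩ (fun x => x + b) ⁻¹' Sup q)).map (fun x => x + b) =
      P.restrict (Sup q ∩ (fun x => x + -b) ⁻¹' Sup q) := by
    refine ext_box fun t => ?_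
    have ht : MeasurableSet (Set.univ.pi t) :=
      MeasurableSet.univ_pi fun _ => MeasurableSet.of_discrete
    rw [Measure.map_apply (meas_add_const b) ht, Measure.restrict_apply (meas_add_const b ht),
      Measure.restrict_apply ht]
    have e1 : (fun x => x + b) ⁻¹' Set.univ.pi t ∩ (Sup q ∩ (fun x => x + b) ⁻¹' Sup q) =
        Set.univ.pi fun n => {y | y + b n ∈ t n ∧ q n {y} ≠ 0 ∧ q n {y + b n} ≠ 0} := by
      ext x; simp [Sup, forall_and]
    have e2 : Set.univ.pi t ∩ (Sup q ∩ (fun x => x + -b) ⁻¹' Sup q) =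
        Set.univ.pi fun n => {y | y ∈ t n ∧ q n {y} ≠ 0 ∧ q n {y + -b n} ≠ 0} := by
      ext x
      exact ⟨fun h n _ => ⟨h.1 n trivial, h.2.1 n, h.2.2 n⟩,
        fun h => ⟨fun n _ => (h n trivial).1, fun n => (h n trivial).2.1,
          fun n => (h n trivial).2.2⟩⟩
    rw [e1, e2, hP, Measure.infinitePi_pi_univ _ fun _ => MeasurableSet.of_discrete,
      Measure.infinitePi_pi_univ _ fun _ => MeasurableSet.of_discrete]
    refine tprod_congr fun n => ?_
    rw [meas_eq_sum, meas_eq_sum, ← Equiv.sum_comp (Equiv.addRight (b n))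
      (fun y => Set.indicator {y | y ∈ t n ∧ q n {y} ≠ 0 ∧ q n {y + -b n} ≠ 0}
        (fun y => q n {y}) y)]
    refine Finset.sum_congr rfl fun y _ => ?_
    by_cases h : y + b n ∈ t n ∧ q n {y} ≠ 0 ∧ q n {y + b n} ≠ 0
    · rw [Set.indicator_of_mem (by exact h), Set.indicator_of_mem (by
        simp only [Equiv.coe_addRight, Set.mem_ofPred_eq, add_neg_cancel_right]
        exact ⟨h.1, h.2.2, h.2.1⟩)]
      exact hu n _ _ h.2.1 h.2.2
    · rw [Set.indicator_of_notMem (by exact h), Set.indicator_of_notMem]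
      intro h'
      simp only [Equiv.coe_addRight, Set.mem_ofPred_eq, add_neg_cancel_right] at h'
      exact h ⟨h'.1, h'.2.2, h'.2.1⟩
  have := congrArg (fun μ : Measure (∀ n, L n) => μ V) key
  simp only at this
  rw [Measure.map_apply (meas_add_const b) hV, Measure.restrict_apply (meas_add_const b hV),
    Measure.restrict_apply hV, Set.inter_eq_left.2, Set.inter_eq_left.2] at this
  · exact this
  · exact fun x hx => ⟨h1 hx, h2 (by simpa using hx)⟩
  · exact fun x hx => ⟨h2 hx, h1 hx⟩

theorem act_le (hq : T.Good q) (hu : Unif q) (a : lp L 1) {W W' : Set (∀ n, L n)}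
    (hW : MeasurableSet W) (h1 : W ⊆ Sup q) (h2 : W' ⊆ Sup q) (h : W ⊆ T.act a ⁻¹' W') :
    Measure.infinitePi q W ≤ Measure.infinitePi q W' := by
  set P := Measure.infinitePi q
  let b : FS L → ∀ n, L n := fun c => (a : ∀ n, L n) + T.bd c
  let V : FS L → Set (∀ n, L n) := fun c => T.DD ∩ (fun z => z + -b c) ⁻¹' W
  have hV : ∀ c, MeasurableSet (V c) := fun c => T.DD_meas.inter (meas_add_const _ hW)
  have hact : ∀ c z, z ∈ V c → T.act a (z + -b c) = z := by
    rintro c z ⟨hz1, hz2⟩
    have e : z + -b c + (a : ∀ n, L n) + T.bd c = z := by simp only [b]; abel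
    rw [T.act_of_mem a (Sup_subset hq (h1 hz2)), T.ret_eq c.2 (by rwa [e]), e]
  have hVW : ∀ c, V c ⊆ W' := fun c z hz => by
    have := h hz.2
    rwa [Set.mem_preimage, hact c z hz] at this
  have hdisj : Pairwise (Function.onFun Disjoint V) := by
    intro c c' hne
    refine Set.disjoint_left.2 fun z hz hz' => hne ?_
    have e := T.act_inj a ((hact c z hz).trans (hact c' z hz').symm)
    have e1 : T.bd c = T.bd c' := by simpa [b] using e
    have hz0 : z + -T.bd c + T.bd c ∈ T.D0 := by simpa using hz.1.1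
    exact Subtype.ext (T.carry_unique c.2 c'.2 hz0 (by rwa [← e1]))
  calc P W ≤ P (⋃ c, (fun x => x + b c) ⁻¹' V c) := by
        refine measure_mono fun x hx => ?_
        obtain ⟨c, hc, h3⟩ := T.exists_carry (T.X0_add (Sup_subset hq (h1 hx)).2 a)
        refine Set.mem_iUnion.2 ⟨⟨c, hc⟩, ?_, ?_⟩
        · simpa only [b, ← add_assoc] using h3
        · simpa using hx
    _ ≤ ∑' c, P ((fun x => x + b c) ⁻¹' V c) := measure_iUnion_le _
    _ = ∑' c, P (V c) := by
        refine tsum_congr fun c => shift_eq hu _ (hV c) ((hVW c).trans h2) fun x hx => h1 ?_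
        simpa using hx.2
    _ = P (⋃ c, V c) := (measure_iUnion hdisj hV).symm
    _ ≤ P W' := measure_mono (Set.iUnion_subset hVW)

theorem act_le' (hq : T.Good q) (hu : Unif q) (a a' g : lp L 1) {B B' : Set (∀ n, L n)}
    (hB : MeasurableSet B) (h1 : B ⊆ T.act (-a) ⁻¹' Sup q) (h2 : B' ⊆ T.act (-a') ⁻¹' Sup q)
    (h : B ⊆ T.act g ⁻¹' B') :
    Measure.infinitePi q (T.act a ⁻¹' B) ≤ Measure.infinitePi q (T.act a' ⁻¹' B') := by
  refine act_le hq hu (-a' + (g + a)) (T.act_meas a hB) (fun x hx => ?_) (fun x hx => ?_)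
    fun x hx => ?_
  · have := h1 hx
    rwa [Set.mem_preimage, act_neg_act] at this
  · have := h2 hx
    rwa [Set.mem_preimage, act_neg_act] at this
  · rw [Set.mem_preimage, Set.mem_preimage, act_add, act_act_neg, act_add]
    exact h hx

/-- the hypothesis giving infinite mass -/
def Two (T : Data L) (q : ∀ n, Measure (L n)) : Prop :=
  ∀ n, ∃ t : L (n + 1) → L (n + 1), Set.InjOn t {y | q (n + 1) {y} ≠ 0} ∧
    ∀ y, q (n + 1) {y} ≠ 0 → T.δ n (t y) = 0 ∧ q (n + 1) {t y} = 0

theorem typeII (hq : T.Good q) (hu : Unif q) (h2 : T.Two q) :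
    ∃ μ : Measure (∀ n, L n), IsTypeIIInf T.GG (∀ n, L n) μ := by
  classical
  obtain ⟨en, hen⟩ := exists_surjective_nat (FS L)
  set P := Measure.infinitePi q with hP
  let e : ℕ → lp L 1 := fun k => toA (en k)
  let S : ℕ → Set (∀ n, L n) := fun k => T.act (-e k) ⁻¹' Sup q
  have hS : ∀ k, MeasurableSet (S k) := fun k => T.act_meas _ (Sup_meas q)
  let U := disjointed S
  have hU : ∀ k, MeasurableSet (U k) := MeasurableSet.disjointed hS
  have hUS : ∀ k, U k ⊆ S k := disjointed_subset S
  have hUd : Pairwise (Function.onFun Disjoint U) := disjoint_disjointed S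
  have hUU : ⋃ k, U k = ⋃ k, S k := iUnion_disjointed
  let μ : Measure (∀ n, L n) := Measure.sum fun k => (P.map (T.act (e k))).restrict (U k)
  have hμ : ∀ B, MeasurableSet B → μ B = ∑' k, P (T.act (e k) ⁻¹' (B ∩ U k)) := by
    intro B hB
    rw [Measure.sum_apply _ hB]
    refine tsum_congr fun k => ?_
    rw [Measure.restrict_apply hB, Measure.map_apply (T.act_meas _) (hB.inter (hU k))]
  have LB : ∀ N, MeasurableSet N → ∀ c : FS L, P (T.act (toA c) ⁻¹' N) ≤ μ N := by
    intro N hN c
    obtain ⟨k, rfl⟩ := hen c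
    calc P (T.act (e k) ⁻¹' N) ≤ P (⋃ j, T.act (e k) ⁻¹' (N ∩ U j ∩ S k)) := by
          refine measure_mono_ae ?_
          filter_upwards [ae_Sup q] with x hx hxN
          have h1 : T.act (e k) x ∈ S k := by
            show T.act (-e k) (T.act (e k) x) ∈ Sup q
            rwa [act_neg_act]
          have h3 : T.act (e k) x ∈ ⋃ j, U j := by rw [hUU]; exact Set.mem_iUnion.2 ⟨k, h1⟩
          obtain ⟨j, hj⟩ := Set.mem_iUnion.1 h3
          exact Set.mem_iUnion.2 ⟨j, ⟨hxN, hj⟩, h1⟩
      _ ≤ ∑' j, P (T.act (e k) ⁻¹' (N ∩ U j ∩ S k)) := measure_iUnion_le _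
      _ ≤ ∑' j, P (T.act (e j) ⁻¹' (N ∩ U j)) := by
          refine ENNReal.tsum_le_tsum fun j => act_le' hq hu _ _ 0 ((hN.inter (hU j)).inter (hS k))
            Set.inter_subset_right (Set.inter_subset_right.trans (hUS j)) fun x hx => ?_
          rw [Set.mem_preimage, act_zero]
          exact hx.1
      _ = μ N := (hμ N hN).symm
  have hnull : ∀ N, MeasurableSet N →
      (μ N = 0 ↔ ∀ c : FS L, P (T.act (toA c) ⁻¹' N) = 0) := by
    intro N hN
    constructor
    · intro h c
      exact le_antisymm ((LB N hN c).trans h.le) zero_le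
    · intro h
      rw [hμ N hN, ENNReal.tsum_eq_zero]
      exact fun k => measure_mono_null (Set.preimage_mono Set.inter_subset_left) (h _)
  have hZm : MeasurableSet (⋃ k, U k)ᶜ := (MeasurableSet.iUnion hU).compl
  have hZ : μ (⋃ k, U k)ᶜ = 0 := by
    rw [hμ _ hZm, ENNReal.tsum_eq_zero]
    intro k
    have : (⋃ k, U k)ᶜ ∩ U k = ∅ :=
      Set.eq_empty_of_forall_notMem fun x hx => hx.1 (Set.mem_iUnion.2 ⟨k, hx.2⟩)
    rw [this, Set.preimage_empty, measure_empty]
  have hσ : SigmaFinite μ := by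
    refine ⟨⟨⟨fun j => U j ∪ (⋃ k, U k)ᶜ, fun _ => trivial, fun j => ?_, ?_⟩⟩⟩
    · refine (measure_union_le _ _).trans_lt ?_
      rw [hZ, add_zero, hμ _ (hU j), tsum_eq_single j]
      · exact measure_lt_top _ _
      · intro k hk
        have : U j ∩ U k = ∅ := Set.disjoint_iff_inter_eq_empty.1 (hUd hk.symm)
        simp [this]
    · rw [← Set.iUnion_union, Set.union_compl_self]
  have hle : ∀ g B, MeasurableSet B → μ (T.act g ⁻¹' B) ≤ μ B := by
    intro g B hB
    have z1 : μ (T.act g ⁻¹' (⋃ k, U k)ᶜ) = 0 := by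
      refine (hnull _ (T.act_meas g hZm)).2 fun c => ?_
      have := quasi hq hZm ((hnull _ hZm).1 hZ) (g + toA c)
      convert this using 2
      ext x; simp [act_add]
    calc μ (T.act g ⁻¹' B)
        ≤ μ (T.act g ⁻¹' (⋃ k, U k)ᶜ ∪ ⋃ j, T.act g ⁻¹' (B ∩ U j)) := by
          refine measure_mono fun x hx => ?_
          by_cases h : T.act g x ∈ ⋃ k, U k
          · obtain ⟨j, hj⟩ := Set.mem_iUnion.1 h
            exact Or.inr (Set.mem_iUnion.2 ⟨j, hx, hj⟩)
          · exact Or.inl h
      _ ≤ 0 + ∑' j, μ (T.act g ⁻¹' (B ∩ U j)) :=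
          (measure_union_le _ _).trans (add_le_add z1.le (measure_iUnion_le _))
      _ ≤ ∑' j, P (T.act (e j) ⁻¹' (B ∩ U j)) := by
          rw [zero_add]
          refine ENNReal.tsum_le_tsum fun j => ?_
          have hBj := hB.inter (hU j)
          rw [hμ _ (T.act_meas g hBj)]
          calc ∑' k, P (T.act (e k) ⁻¹' (T.act g ⁻¹' (B ∩ U j) ∩ U k))
              ≤ ∑' k, P (T.act (e j) ⁻¹' (B ∩ U j ∩ T.act (-g) ⁻¹' U k)) := by
                refine ENNReal.tsum_le_tsum fun k => act_le' hq hu _ _ g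
                  ((T.act_meas g hBj).inter (hU k)) (Set.inter_subset_right.trans (hUS k))
                  (fun x hx => hUS j hx.1.2) fun x hx => ⟨hx.1, ?_⟩
                rw [Set.mem_preimage, act_neg_act]
                exact hx.2
            _ = P (⋃ k, T.act (e j) ⁻¹' (B ∩ U j ∩ T.act (-g) ⁻¹' U k)) := by
                refine (measure_iUnion ?_ fun k =>
                  T.act_meas _ (hBj.inter (T.act_meas _ (hU k)))).symm
                intro k k' hne
                exact Set.disjoint_left.2 fun x hx hx' =>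
                  Set.disjoint_left.1 (hUd hne) hx.2 hx'.2
            _ ≤ _ := measure_mono (Set.iUnion_subset fun k x hx => hx.1)
      _ = μ B := (hμ B hB).symm
  refine ⟨μ, ergodicSpatial hq μ hσ hnull, fun g => ?_, ?_⟩
  · obtain ⟨a, rfl⟩ := T.pr_surj g
    rw [pr_smul]
    ext B hB
    rw [Measure.map_apply (T.act_meas a) hB]
    refine le_antisymm (hle a B hB) ?_
    have := hle (-a) _ (T.act_meas a hB)
    have e0 : T.act (-a) ⁻¹' (T.act a ⁻¹' B) = B := by ext x; simp [act_act_neg]
    rwa [e0] at this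
  · choose t ht1 ht2 using h2
    let V : (Σ n, {y : L (n + 1) // q (n + 1) {y} ≠ 0}) → Set (∀ n, L n) := fun p =>
      {x | x (p.1 + 1) = t p.1 p.2 ∧ Function.update x (p.1 + 1) p.2 ∈ Sup q}
    have hV : ∀ p, MeasurableSet (V p) := fun p =>
      (meas_coord _ {t p.1 p.2}).inter (measurable_update_left (Sup_meas q))
    have hVd : Pairwise (Function.onFun Disjoint V) := by
      rintro ⟨n, y⟩ ⟨n', y'⟩ hne
      refine Set.disjoint_left.2 fun x hx hx' => hne ?_
      by_cases h : n = n'
      · subst h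
        rw [Subtype.ext (ht1 n y.2 y'.2 (hx.1.symm.trans hx'.1))]
      · exfalso
        have := hx'.2 (n + 1)
        rw [Function.update_of_ne (by simpa using h), hx.1] at this
        exact this (ht2 n y y.2).2
    have hVl : ∀ p, q (p.1 + 1) {p.2.1} ≤ μ (V p) := by
      rintro ⟨n, y, hy⟩
      refine le_trans ?_ (LB _ (hV _) ⟨Pi.single (n + 1) (t n y - y), single_mem_FS _ _⟩)
      have e1 : toA (⟨Pi.single (n + 1) (t n y - y), single_mem_FS _ _⟩ : FS L) =
          lp.single 1 (n + 1) (t n y - y) := lp.ext (by rw [lp.coeFn_single]; rfl)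
      rw [e1, ← (measurePreserving_eval_infinitePi q (n + 1)).measure_preimage
        (measurableSet_singleton y).nullMeasurableSet]
      refine measure_mono_ae ?_
      filter_upwards [ae_Sup q] with x hx hxy
      have hxy' : x (n + 1) = y := hxy
      subst hxy'
      have hD : Function.update x (n + 1) (t n (x (n + 1))) ∈ T.DD := by
        refine mem_DD_of_eventually hq (fun k => ?_) (n + 2) fun k hk => ?_
        · by_cases h : k = n
          · subst h; simpa using (ht2 k _ hy).1
          · rw [Function.update_of_ne (by simpa using h)]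
            exact delta_zero hq (hx _)
        · rw [Function.update_of_ne (by omega)]
          exact hx k
      show T.act _ x ∈ V _
      rw [act_single (Sup_subset hq hx) hD]
      refine ⟨by simp, ?_⟩
      show Function.update (Function.update x _ _) _ _ ∈ _
      rwa [Function.update_idem, Function.update_eq_self]
    refine top_unique ?_
    calc (⊤ : ℝ≥0∞) = ∑' _ : ℕ, (1 : ℝ≥0∞) := by simp
      _ = ∑' n, ∑' y : {y : L (n + 1) // q (n + 1) {y} ≠ 0}, q (n + 1) {y.1} := by
          refine tsum_congr fun n => ?_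
          rw [← measure_univ (μ := q (n + 1)), meas_eq_sum, Set.indicator_univ,
            ← tsum_fintype (L := SummationFilter.unconditional _)]
          exact (tsum_subtype_eq_of_support_subset (s := {y | q (n + 1) {y} ≠ 0})
            (f := fun y => q (n + 1) {y}) fun y hy => hy).symm
      _ = ∑' p : (Σ n, {y : L (n + 1) // q (n + 1) {y} ≠ 0}), q (p.1 + 1) {p.2.1} :=
          (ENNReal.tsum_sigma' fun p : (Σ n, {y : L (n + 1) // q (n + 1) {y} ≠ 0}) =>
            q (p.1 + 1) {p.2.1}).symm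
      _ ≤ ∑' p, μ (V p) := ENNReal.tsum_le_tsum hVl
      _ = μ (⋃ p, V p) := (measure_iUnion hVd hV).symm
      _ ≤ μ Set.univ := measure_mono (Set.subset_univ _)

end Data

end Pool.Agent.H530Z.Levy
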