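import Mathlib

set_option autoImplicit false

open Finset

namespace Pool.Agent.H530Z.Levy

theorem z2_cases (t : ZMod 2) : t = 0 ∨ t = 1 := by revert t; decide

theorem sum_z2 (f : ZMod 2 → ℝ) : ∑ t, f t = f 0 + f 1 := Fin.sum_univ_two f

noncomputable def wt (p : ℝ) (t : ZMod 2) : ℝ := if t = 0 then 1 - p else p

@[simp] theorem wt_zero (p : ℝ) : wt p 0 = 1 - p := if_pos rfl
@[simp] theorem wt_one (p : ℝ) : wt p 1 = p := if_neg (by decide)

noncomputable def nu (p : ℝ) {M : ℕ} (y : Fin M → ZMod 2) : ℝ := ∏ j, wt p (y j)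

theorem sum_prod {M : ℕ} (g : Fin M → ZMod 2 → ℝ) :
    ∑ y : Fin M → ZMod 2, ∏ j, g j (y j) = ∏ j, (g j 0 + g j 1) := by
  rw [← Fintype.piFinset_univ, ← Finset.prod_univ_sum]
  exact Finset.prod_congr rfl fun j _ => sum_z2 _

theorem sum_nu (p : ℝ) (M : ℕ) : ∑ y : Fin M → ZMod 2, nu p y = 1 := by
  unfold nu; rw [sum_prod (fun _ t => wt p t)]; simp

theorem wt_pos {p : ℝ} (h0 : 0 < p) (h1 : p < 1) (t : ZMod 2) : 0 < wt p t := by
  unfold wt; split_ifs <;> linarith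

theorem nu_pos {p : ℝ} (h0 : 0 < p) (h1 : p < 1) {M : ℕ} (y : Fin M → ZMod 2) : 0 < nu p y :=
  Finset.prod_pos fun _ _ => wt_pos h0 h1 _

theorem nu_half {M : ℕ} (y : Fin M → ZMod 2) : nu (1 / 2) y = (1 / 2) ^ M := by
  have : ∀ t, wt (1 / 2) t = 1 / 2 := fun t => by unfold wt; split_ifs <;> norm_num
  simp only [nu, this, Finset.prod_const, Finset.card_univ, Fintype.card_fin]

theorem hammingNorm_eq_sum {M : ℕ} (y : Fin M → ZMod 2) :
    hammingNorm y = ∑ j, if y j ≠ 0 then 1 else 0 := by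
  rw [hammingNorm, Finset.card_filter]

theorem nu_eq {p : ℝ} (h1 : p < 1) {M : ℕ} (y : Fin M → ZMod 2) :
    nu p y = (1 - p) ^ M * (p / (1 - p)) ^ hammingNorm y := by
  have h : 1 - p ≠ 0 := by linarith
  have : ∀ t, wt p t = (1 - p) * (p / (1 - p)) ^ (if t ≠ 0 then 1 else 0) := fun t => by
    rcases z2_cases t with rfl | rfl
    · simp
    · simp; field_simp
  simp only [nu, this]
  rw [Finset.prod_mul_distrib, Finset.prod_pow_eq_pow_sum, hammingNorm_eq_sum]
  simp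

theorem sum_succ {M : ℕ} (p : ℝ) (f : (Fin (M + 1) → ZMod 2) → ℝ) :
    ∑ y, nu p y * f y = (1 - p) * ∑ y : Fin M → ZMod 2, nu p y * f (Fin.cons 0 y) +
      p * ∑ y : Fin M → ZMod 2, nu p y * f (Fin.cons 1 y) := by
  rw [← (Fin.consEquiv fun _ => ZMod 2).sum_comp, Fintype.sum_prod_type, sum_z2, Finset.mul_sum,
    Finset.mul_sum]
  congr 1 <;> refine Finset.sum_congr rfl fun y _ => ?_ <;>
    simp [nu, Fin.prod_univ_succ, Fin.consEquiv, mul_assoc]

/-- Efron–Stein -/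
theorem efron {p : ℝ} (h0 : 0 < p) (h1 : p < 1) : ∀ (M : ℕ) (c : Fin M → ℝ)
    (f : (Fin M → ZMod 2) → ℝ), (∀ y j t, |f (Function.update y j t) - f y| ≤ c j) →
    ∑ y, nu p y * f y ^ 2 - (∑ y, nu p y * f y) ^ 2 ≤ ∑ j, c j ^ 2 := by
  intro M
  induction M with
  | zero => intro c f _; simp [nu]
  | succ M ih =>
    intro c f hf
    have i0 := ih (fun j => c j.succ) (fun y => f (Fin.cons 0 y)) fun y j t => by
      rw [Fin.cons_update]; exact hf _ _ _
    have i1 := ih (fun j => c j.succ) (fun y => f (Fin.cons 1 y)) fun y j t => by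
      rw [Fin.cons_update]; exact hf _ _ _
    have hd : |∑ y : Fin M → ZMod 2, nu p y * f (Fin.cons 1 y) -
        ∑ y : Fin M → ZMod 2, nu p y * f (Fin.cons 0 y)| ≤ c 0 := by
      rw [← Finset.sum_sub_distrib]
      refine (Finset.abs_sum_le_sum_abs _ _).trans ?_
      calc ∑ y : Fin M → ZMod 2, |nu p y * f (Fin.cons 1 y) - nu p y * f (Fin.cons 0 y)|
          ≤ ∑ y : Fin M → ZMod 2, nu p y * c 0 := by
            refine Finset.sum_le_sum fun y _ => ?_
            rw [← mul_sub, abs_mul, abs_of_pos (nu_pos h0 h1 y)]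
            have := hf (Fin.cons 0 y) 0 1
            rw [Fin.update_cons_zero] at this
            exact mul_le_mul_of_nonneg_left this (nu_pos h0 h1 y).le
        _ = c 0 := by rw [← Finset.sum_mul, sum_nu, one_mul]
    rw [sum_succ p fun y => f y ^ 2, sum_succ p f, Fin.sum_univ_succ]
    set A0 := ∑ y : Fin M → ZMod 2, nu p y * f (Fin.cons 0 y)
    set A1 := ∑ y : Fin M → ZMod 2, nu p y * f (Fin.cons 1 y)
    set B0 := ∑ y : Fin M → ZMod 2, nu p y * f (Fin.cons 0 y) ^ 2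
    set B1 := ∑ y : Fin M → ZMod 2, nu p y * f (Fin.cons 1 y) ^ 2
    set C := ∑ j : Fin M, c j.succ ^ 2
    have hs : (A1 - A0) ^ 2 ≤ c 0 ^ 2 := sq_le_sq' (abs_le.1 hd).1 (abs_le.1 hd).2
    have e : (1 - p) * B0 + p * B1 - ((1 - p) * A0 + p * A1) ^ 2 =
        (1 - p) * (B0 - A0 ^ 2) + p * (B1 - A1 ^ 2) + p * (1 - p) * (A1 - A0) ^ 2 := by ring
    rw [e]
    have a0 : (1 - p) * (B0 - A0 ^ 2) ≤ (1 - p) * C := mul_le_mul_of_nonneg_left i0 (by linarith)
    have a1 : p * (B1 - A1 ^ 2) ≤ p * C := mul_le_mul_of_nonneg_left i1 h0.le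
    have a2 : p * (1 - p) * (A1 - A0) ^ 2 ≤ 1 * c 0 ^ 2 :=
      mul_le_mul (by nlinarith) hs (sq_nonneg _) zero_le_one
    linarith

open Classical in
/-- Chebyshev -/
theorem cheb {p : ℝ} (h0 : 0 < p) (h1 : p < 1) {M : ℕ} (c : Fin M → ℝ)
    (f : (Fin M → ZMod 2) → ℝ) (hf : ∀ y j t, |f (Function.update y j t) - f y| ≤ c j)
    (S : (Fin M → ZMod 2) → Prop) {r : ℝ} (hr : 0 ≤ r)
    (hS : ∀ y, S y → r ≤ |f y - ∑ y, nu p y * f y|) :
    (∑ y, if S y then nu p y else 0) * r ^ 2 ≤ ∑ j, c j ^ 2 := by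
  refine le_trans ?_ (efron h0 h1 M c f hf)
  set m := ∑ y, nu p y * f y with hm
  have e : ∑ y, nu p y * f y ^ 2 - m ^ 2 = ∑ y, nu p y * (f y - m) ^ 2 := by
    have : ∀ y, nu p y * (f y - m) ^ 2 =
        nu p y * f y ^ 2 - 2 * m * (nu p y * f y) + m ^ 2 * nu p y := fun y => by ring
    simp only [this]
    rw [Finset.sum_add_distrib, Finset.sum_sub_distrib, ← Finset.mul_sum, ← Finset.mul_sum, sum_nu,
      ← hm]
    ring
  rw [e, Finset.sum_mul]
  refine Finset.sum_le_sum fun y _ => ?_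
  have := nu_pos h0 h1 y
  split_ifs with h
  · refine mul_le_mul_of_nonneg_left ?_ this.le
    rw [← sq_abs (f y - m)]
    exact pow_le_pow_left₀ hr (hS y h) 2
  · rw [zero_mul]; positivity

theorem mean_coord (p : ℝ) {M : ℕ} (j : Fin M) :
    ∑ y : Fin M → ZMod 2, nu p y * (if y j ≠ 0 then 1 else 0) = p := by
  have : ∀ y : Fin M → ZMod 2, nu p y * (if y j ≠ 0 then 1 else 0) =
      ∏ k, (wt p (y k) * if k = j then (if y k ≠ 0 then 1 else 0) else 1) := fun y => by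
    rw [Finset.prod_mul_distrib, Finset.prod_ite_eq']
    simp [nu]
  simp only [this]
  rw [sum_prod fun k t => wt p t * if k = j then (if t ≠ 0 then 1 else 0) else 1,
    Finset.prod_eq_single j]
  · simp
  · intro k _ hk; simp [hk]
  · simp

/-- block weight -/
def bw {M N : ℕ} (blk : Fin M → Fin N) (i : Fin N) (y : Fin M → ZMod 2) : ℕ :=
  ∑ j, if blk j = i ∧ y j ≠ 0 then 1 else 0

theorem mean_bw (p : ℝ) {M N s : ℕ} (blk : Fin M → Fin N) (i : Fin N)
    (hs : #{j | blk j = i} = s) : ∑ y, nu p y * (bw blk i y : ℝ) = p * s := by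
  simp only [bw, Nat.cast_sum, Finset.mul_sum]
  rw [Finset.sum_comm, ← hs, Finset.card_filter, Nat.cast_sum, Finset.mul_sum]
  refine Finset.sum_congr rfl fun j _ => ?_
  by_cases h : blk j = i
  · simpa [h] using mean_coord p j
  · simp [h]

open Classical in
theorem cheb_bw {p : ℝ} (h0 : 0 < p) (h1 : p < 1) {M N s : ℕ} (blk : Fin M → Fin N) (i : Fin N)
    (hs : #{j | blk j = i} = s) (S : (Fin M → ZMod 2) → Prop) {r : ℝ} (hr : 0 ≤ r)
    (hS : ∀ y, S y → r ≤ |(bw blk i y : ℝ) - p * s|) :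
    (∑ y, if S y then nu p y else 0) * r ^ 2 ≤ s := by
  have := cheb h0 h1 (fun j => if blk j = i then 1 else 0) (fun y => (bw blk i y : ℝ)) ?_ S hr
    (by rw [mean_bw p blk i hs]; exact hS)
  · refine this.trans (le_of_eq ?_)
    rw [← hs, Finset.card_filter, Nat.cast_sum]
    refine Finset.sum_congr rfl fun j _ => ?_
    split_ifs <;> simp
  · intro y j t
    simp only [bw, Nat.cast_sum]
    rw [← Finset.sum_sub_distrib, Finset.sum_eq_single j]
    · by_cases h : blk j = i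
      · simp only [h, true_and, Function.update_self, if_true]
        split_ifs <;> simp
      · simp [h]
    · intro k _ hk
      rw [Function.update_of_ne hk, sub_self]
    · simp

/-- total variation of a shift -/
theorem tv_nu {p θ : ℝ} (h0 : 1 / 4 ≤ p) (h1 : p ≤ 1 / 2) (hθ : 0 < θ) (hθ1 : θ ≤ 1) {M : ℕ}
    (b : Fin M → ZMod 2) (hb : 8 * (1 - 2 * p) ^ 2 * hammingNorm b ≤ θ ^ 2) :
    ∑ y, |nu p (y - b) - nu p y| ≤ 2 * θ := by
  have p0 : 0 < p := by linarith
  have p1 : p < 1 := by linarith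
  have q0 : 0 < 1 - p := by linarith
  set χ := (1 - 2 * p) ^ 2 / (p * (1 - p)) with hχ
  have χ0 : 0 ≤ χ := by positivity
  have χ1 : χ ≤ 8 * (1 - 2 * p) ^ 2 := by
    rw [hχ, div_le_iff₀ (by positivity)]
    have : 1 ≤ 8 * (p * (1 - p)) := by nlinarith
    nlinarith [sq_nonneg (1 - 2 * p)]
  have e1 : ∑ y, nu p (y - b) ^ 2 / nu p y = (1 + χ) ^ hammingNorm b := by
    have : ∀ y : Fin M → ZMod 2, nu p (y - b) ^ 2 / nu p y =
        ∏ j, (wt p (y j - b j) ^ 2 / wt p (y j)) := fun y => by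
      rw [Finset.prod_div_distrib, Finset.prod_pow]; rfl
    simp only [this]
    rw [sum_prod fun j t => wt p (t - b j) ^ 2 / wt p t, hammingNorm_eq_sum,
      ← Finset.prod_pow_eq_pow_sum]
    refine Finset.prod_congr rfl fun j _ => ?_
    rcases z2_cases (b j) with h | h
    · simp [h]; field_simp; ring
    · have a1 : (0 : ZMod 2) - 1 = 1 := by decide
      simp only [h, a1, sub_self, wt_one, wt_zero, ne_eq, one_ne_zero, not_false_eq_true, if_true,
        pow_one, hχ]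
      field_simp; ring
  have e2 : (1 + χ) ^ hammingNorm b ≤ 1 + 2 * θ ^ 2 := by
    have a1 : χ * hammingNorm b ≤ θ ^ 2 :=
      (mul_le_mul_of_nonneg_right χ1 (Nat.cast_nonneg _)).trans hb
    have a2 : θ ^ 2 ≤ 1 := by nlinarith
    calc (1 + χ) ^ hammingNorm b ≤ Real.exp χ ^ hammingNorm b :=
          pow_le_pow_left₀ (by positivity) (by linarith [Real.add_one_le_exp χ]) _
      _ = Real.exp (χ * hammingNorm b) := by rw [← Real.exp_nat_mul, mul_comm]
      _ ≤ Real.exp (θ ^ 2) := Real.exp_le_exp.2 a1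
      _ ≤ 1 + 2 * θ ^ 2 := by
          have := Real.abs_exp_sub_one_le (x := θ ^ 2) (by rw [abs_of_nonneg (sq_nonneg _)]; exact a2)
          rw [abs_of_nonneg (sq_nonneg θ)] at this
          linarith [(abs_le.1 this).2]
  have e3 : ∑ y, nu p (y - b) = 1 := by
    rw [← sum_nu p M]; exact (Equiv.subRight b).sum_comp (nu p)
  have e4 : ∀ y, |nu p (y - b) - nu p y| ≤ θ / 2 * nu p y +
      1 / (2 * θ) * (nu p (y - b) ^ 2 / nu p y - 2 * nu p (y - b) + nu p y) := fun y => by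
    have hy := nu_pos p0 p1 y
    set u := nu p (y - b)
    set v := nu p y
    have : θ / 2 * v + 1 / (2 * θ) * (u ^ 2 / v - 2 * u + v) - |u - v| =
        (θ * v - |u - v|) ^ 2 / (2 * θ * v) := by
      have : |u - v| ^ 2 = (u - v) ^ 2 := sq_abs _
      field_simp
      nlinarith
    have h2 : 0 ≤ (θ * v - |u - v|) ^ 2 / (2 * θ * v) := by positivity
    linarith
  refine (Finset.sum_le_sum fun y _ => e4 y).trans ?_
  rw [Finset.sum_add_distrib, ← Finset.mul_sum, ← Finset.mul_sum, Finset.sum_add_distrib,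
    Finset.sum_sub_distrib, ← Finset.mul_sum, e1, e3, sum_nu]
  have : 1 / (2 * θ) * ((1 + χ) ^ hammingNorm b - 2 * 1 + 1) ≤ 1 / (2 * θ) * (2 * θ ^ 2) :=
    mul_le_mul_of_nonneg_left (by linarith) (by positivity)
  have e5 : 1 / (2 * θ) * (2 * θ ^ 2) = θ := by field_simp
  linarith

end Pool.Agent.H530Z.Levy
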