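import Mathlib
import Pool.Agent.H530Z.LevyF

set_option autoImplicit false

open Finset

namespace Pool.Agent.H530Z.Levy

variable {M N : ℕ} (blk : Fin M → Fin N) (σ h : ℕ)

def RR (y : Fin M → ZMod 2) : Prop := ∀ i, bw blk i y + h ≤ σ

instance : DecidablePred (RR blk σ h) := fun _ => Fintype.decidableForallFintype

def dec (y : Fin M → ZMod 2) : Fin N → ZMod 2 := fun i => if σ < bw blk i y then 1 else 0

variable {blk σ h}

theorem dec_add (hs : ∀ i, #{j | blk j = i} = 2 * σ + 1) (y : Fin M → ZMod 2)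
    (c : Fin N → ZMod 2) : dec blk σ (y + fun j => c (blk j)) = dec blk σ y + c := by
  funext i
  simp only [dec, Pi.add_apply]
  rcases z2_cases (c i) with hc | hc
  · have : bw blk i (y + fun j => c (blk j)) = bw blk i y := by
      refine Finset.sum_congr rfl fun j _ => ?_
      by_cases hj : blk j = i
      · simp [hj, hc]
      · simp [hj]
    rw [this, hc, add_zero]
  · have : bw blk i (y + fun j => c (blk j)) + bw blk i y = 2 * σ + 1 := by
      rw [← hs i, Finset.card_filter, bw, bw, ← Finset.sum_add_distrib]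
      refine Finset.sum_congr rfl fun j _ => ?_
      by_cases hj : blk j = i
      · rcases z2_cases (y j) with h | h
        · simp [hj, hc, h]
        · have : (1 : ZMod 2) + 1 = 0 := by decide
          simp [hj, hc, h, this]
      · simp [hj]
    rw [hc]
    by_cases h1 : σ < bw blk i y
    · rw [if_pos h1, if_neg (by omega)]; decide
    · rw [if_neg h1, if_pos (by omega)]; decide

theorem bw_add_le (i : Fin N) (y a : Fin M → ZMod 2) :
    bw blk i (y + a) ≤ bw blk i y + hammingNorm a := by
  rw [hammingNorm_eq_sum, bw, bw, ← Finset.sum_add_distrib]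
  refine Finset.sum_le_sum fun j _ => ?_
  by_cases h1 : a j = 0
  · simp [h1]
  · simp only [ne_eq, h1, not_false_eq_true, if_true]
    split_ifs <;> omega

theorem dec_rob {y a : Fin M → ZMod 2} (hy : RR blk σ h y) (ha : hammingNorm a ≤ h) :
    dec blk σ (y + a) = 0 := by
  funext i
  have := bw_add_le (blk := blk) i y a
  have := hy i
  exact if_neg (by omega)

theorem sum_bw (y : Fin M → ZMod 2) : ∑ i, bw blk i y = hammingNorm y := by
  rw [hammingNorm_eq_sum]
  simp only [bw]
  rw [Finset.sum_comm]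
  refine Finset.sum_congr rfl fun j _ => ?_
  rw [Finset.sum_eq_single (blk j)]
  · simp
  · intro i _ hi; simp [hi.symm]
  · simp

theorem nu_bad (hs : ∀ i, #{j | blk j = i} = 2 * σ + 1) {p θ : ℝ} (h0 : 0 < p) (h1 : p < 1)
    (hr : 0 < (σ : ℝ) - h - p * (2 * σ + 1 : ℕ))
    (H : (N : ℝ) * (2 * σ + 1 : ℕ) ≤ θ * ((σ : ℝ) - h - p * (2 * σ + 1 : ℕ)) ^ 2) :
    ∑ y : Fin M → ZMod 2, (if RR blk σ h y then 0 else nu p y) ≤ θ := by
  classical
  set r := (σ : ℝ) - h - p * (2 * σ + 1 : ℕ)
  have a1 : ∀ i, (∑ y, if σ < bw blk i y + h then nu p y else 0) * r ^ 2 ≤ (2 * σ + 1 : ℕ) := by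
    intro i
    have := cheb_bw h0 h1 blk i (hs i) (fun y => σ < bw blk i y + h) hr.le fun y hy => by
      refine le_trans ?_ (le_abs_self _)
      have : (σ : ℝ) < bw blk i y + h := by exact_mod_cast hy
      simp only [r]; linarith
    convert this
  have a2 : ∑ y : Fin M → ZMod 2, (if RR blk σ h y then 0 else nu p y) ≤
      ∑ i, ∑ y, if σ < bw blk i y + h then nu p y else 0 := by
    rw [Finset.sum_comm]
    refine Finset.sum_le_sum fun y _ => ?_
    have hn : ∀ i ∈ (univ : Finset (Fin N)), 0 ≤ if σ < bw blk i y + h then nu p y else 0 :=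
      fun i _ => by split_ifs; exacts [(nu_pos h0 h1 y).le, le_rfl]
    split_ifs with hy
    · exact Finset.sum_nonneg hn
    · obtain ⟨i, hi⟩ := not_forall.1 hy
      refine le_trans ?_ (Finset.single_le_sum hn (mem_univ i))
      rw [if_pos (not_le.1 hi)]
  refine a2.trans (le_of_mul_le_mul_right ?_ (pow_pos hr 2))
  rw [Finset.sum_mul]
  refine (Finset.sum_le_sum fun i _ => a1 i).trans ?_
  rw [Finset.sum_const, card_univ, Fintype.card_fin, nsmul_eq_mul]
  exact H

theorem card_weight (M k : ℕ) :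
    Fintype.card {y : Fin M → ZMod 2 // hammingNorm y = k} = M.choose k := by
  rw [Fintype.card_subtype]
  conv_rhs => rw [← Fintype.card_fin M, ← Finset.card_univ, ← Finset.card_powersetCard]
  refine Finset.card_bij (fun y _ => univ.filter fun j => y j ≠ 0) ?_ ?_ ?_
  · intro y hy
    rw [Finset.mem_powersetCard]
    exact ⟨subset_univ _, (mem_filter.1 hy).2⟩
  · intro y _ y' _ hyy
    funext j
    have := congrArg (fun s => j ∈ s) hyy
    simp only [mem_filter, mem_univ, true_and, eq_iff_iff] at this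
    rcases z2_cases (y j) with h | h <;> rcases z2_cases (y' j) with h' | h' <;> simp_all
  · intro s hs
    have e : (univ.filter fun j => (if j ∈ s then (1 : ZMod 2) else 0) ≠ 0) = s := by
      ext j; by_cases hj : j ∈ s <;> simp [hj]
    refine ⟨fun j => if j ∈ s then 1 else 0, ?_, e⟩
    rw [mem_filter]
    refine ⟨mem_univ _, ?_⟩
    rw [hammingNorm, e]
    exact (Finset.mem_powersetCard.1 hs).2

theorem choose_mono_half (M k d : ℕ) (hk : k + d ≤ M / 2) : M.choose k ≤ M.choose (k + d) := by
  induction d with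
  | zero => exact le_rfl
  | succ d ih => exact (ih (by omega)).trans (Nat.choose_le_succ_of_lt_half_left (by omega))

theorem exists_shift (M d : ℕ) : ∃ t : (Fin M → ZMod 2) → (Fin M → ZMod 2),
    Set.InjOn t {y | hammingNorm y + d ≤ M / 2} ∧
    ∀ y, hammingNorm y + d ≤ M / 2 → hammingNorm (t y) = hammingNorm y + d := by
  have : ∀ k, ∃ u : (Fin M → ZMod 2) → (Fin M → ZMod 2), k + d ≤ M / 2 →
      Set.InjOn u {y | hammingNorm y = k} ∧ ∀ y, hammingNorm y = k → hammingNorm (u y) = k + d := by
    intro k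
    by_cases hk : k + d ≤ M / 2
    · obtain ⟨e⟩ := Function.Embedding.nonempty_of_card_le
        (α := {y : Fin M → ZMod 2 // hammingNorm y = k})
        (β := {y : Fin M → ZMod 2 // hammingNorm y = k + d})
        (by rw [card_weight, card_weight]; exact choose_mono_half M k d hk)
      refine ⟨fun y => if hy : hammingNorm y = k then e ⟨y, hy⟩ else y, fun _ => ⟨?_, ?_⟩⟩
      · intro y hy y' hy' hyy
        have hy1 : hammingNorm y = k := hy
        have hy2 : hammingNorm y' = k := hy'
        simp only [dif_pos hy1, dif_pos hy2] at hyy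
        exact congrArg Subtype.val (e.injective (Subtype.ext hyy))
      · intro y hy
        simp only [dif_pos hy]
        exact (e ⟨y, hy⟩).2
    · exact ⟨id, fun h => absurd h hk⟩
  choose u hu using this
  refine ⟨fun y => u (hammingNorm y) y, ?_, fun y hy => (hu _ hy).2 y rfl⟩
  intro y hy y' hy' hyy
  have a1 := (hu _ hy).2 y rfl
  have a2 := (hu _ hy').2 y' rfl
  simp only at hyy
  have a3 : hammingNorm y' = hammingNorm y := by rw [hyy] at a1; omega
  rw [a3] at hyy
  exact (hu _ hy).1 rfl a3 hyy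

/-- common properties of the level weights -/
structure Wts (blk : Fin M → Fin N) (σ h T : ℕ) (τ : ℝ) (g : (Fin M → ZMod 2) → ℝ) : Prop where
  nonneg : ∀ y, 0 ≤ g y
  sum_one : ∑ y, g y = 1
  supp : ∀ y, g y ≠ 0 → RR blk σ h y
  tv : ∀ b, hammingNorm b ≤ T → ∑ y, |g (y - b) - g y| ≤ τ

theorem weightsIII (hM : M = N * (2 * σ + 1)) (hN : 1 ≤ N) {T : ℕ} {p θ : ℝ} (h0 : 1 / 3 ≤ p)
    (h1 : p ≤ 1 / 2) (hθ : 0 < θ) (hθ1 : θ ≤ 1 / 16)
    (H1 : 8 * (1 - 2 * p) ^ 2 * (T + 1) ≤ θ ^ 2)
    (hbad : ∑ y : Fin M → ZMod 2, (if RR blk σ h y then 0 else nu p y) ≤ θ)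
    (H3 : (p / (1 - p)) ^ h ≤ 1 / 2) :
    ∃ g, Wts blk σ h T (8 * θ) g ∧ ∃ (dom : Finset (Fin M → ZMod 2))
      (t : (Fin M → ZMod 2) → (Fin M → ZMod 2)), Set.InjOn t dom ∧
      (∀ y ∈ dom, g y ≤ 4 * g (t y) ∧ 2 * g (t y) ≤ g y) ∧ 1 ≤ 2 * ∑ y ∈ dom, g y := by
  classical
  have p0 : 0 < p := by linarith
  have p1 : p < 1 := by linarith
  have q0 : 0 < 1 - p := by linarith
  have np := fun y : Fin M → ZMod 2 => nu_pos p0 p1 y
  set β := ∑ y : Fin M → ZMod 2, (if RR blk σ h y then 0 else nu p y) with hβ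
  set Z := ∑ y : Fin M → ZMod 2, (if RR blk σ h y then nu p y else 0) with hZ
  have hZβ : Z + β = 1 := by
    rw [← sum_nu p M, hZ, hβ, ← Finset.sum_add_distrib]
    refine Finset.sum_congr rfl fun y _ => ?_
    split_ifs <;> simp
  have Z0 : 1 / 2 ≤ Z := by linarith
  have Zp : 0 < Z := by linarith
  set r := p / (1 - p)
  have r0 : 1 / 2 ≤ r := by rw [le_div_iff₀ q0]; linarith
  have hex : ∃ d, r ^ d ≤ 1 / 2 := ⟨h, H3⟩
  set d := Nat.find hex
  have d1 : r ^ d ≤ 1 / 2 := Nat.find_spec hex
  have d2 : d ≤ h := Nat.find_min' hex H3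
  have d3 : 1 / 4 ≤ r ^ d := by
    have d0 : d ≠ 0 := by intro h0; rw [h0] at d1; norm_num at d1
    obtain ⟨k, hk⟩ := Nat.exists_eq_succ_of_ne_zero d0
    have := Nat.find_min hex (m := k) (by omega)
    rw [hk, pow_succ]
    nlinarith
  obtain ⟨t, ht1, ht2⟩ := exists_shift M d
  have hw : ∀ y, RR blk σ h y → hammingNorm y + d ≤ M / 2 := by
    intro y hy
    have a1 : ∑ i, (bw blk i y + h) ≤ ∑ _i : Fin N, σ := Finset.sum_le_sum fun i _ => hy i
    rw [Finset.sum_add_distrib, sum_bw] at a1
    simp only [sum_const, card_univ, Fintype.card_fin, smul_eq_mul] at a1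
    have a2 : h ≤ N * h := Nat.le_mul_of_pos_left h hN
    have a3 : N * σ ≤ M / 2 := by
      rw [Nat.le_div_iff_mul_le two_pos, hM]; nlinarith
    omega
  have hr : ∀ y, RR blk σ h y → nu p (t y) = r ^ d * nu p y := by
    intro y hy
    rw [nu_eq p1, nu_eq p1, ht2 y (hw y hy), pow_add]; ring
  refine ⟨fun y => (if RR blk σ h y then nu p y else 0) / Z, ⟨fun y => ?_, ?_, fun y hy => ?_,
    fun b hb => ?_⟩, univ.filter fun y => RR blk σ h y ∧ RR blk σ h (t y), t, ?_, ?_, ?_⟩
  · have := np y
    split_ifs <;> positivity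
  · rw [← Finset.sum_div, div_self Zp.ne']
  · by_contra hc
    simp [hc] at hy
  · have a1 := tv_nu (by linarith) h1 hθ (by linarith) b (le_trans (by
      have : (hammingNorm b : ℝ) ≤ T + 1 := by exact_mod_cast (by omega)
      gcongr) H1)
    have a2 : ∑ y : Fin M → ZMod 2, (if RR blk σ h (y - b) then 0 else nu p (y - b)) = β :=
      (Equiv.subRight b).sum_comp fun y => if RR blk σ h y then 0 else nu p y
    have a3 : ∀ y, |(if RR blk σ h (y - b) then nu p (y - b) else 0) / Z -
        (if RR blk σ h y then nu p y else 0) / Z| ≤ (|nu p (y - b) - nu p y| +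
        (if RR blk σ h (y - b) then 0 else nu p (y - b)) +
        (if RR blk σ h y then 0 else nu p y)) / Z := fun y => by
      rw [← sub_div, abs_div, abs_of_pos Zp]
      gcongr
      have b1 := np y
      have b2 := np (y - b)
      have b3 := le_abs_self (nu p (y - b) - nu p y)
      have b4 := neg_abs_le (nu p (y - b) - nu p y)
      split_ifs <;> rw [abs_le] <;> constructor <;> linarith
    refine (Finset.sum_le_sum fun y _ => a3 y).trans ?_
    rw [← Finset.sum_div, Finset.sum_add_distrib, Finset.sum_add_distrib, a2, ← hβ,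
      div_le_iff₀ Zp]
    nlinarith
  · intro y hy y' hy' hyy
    simp only [coe_filter, mem_univ, true_and, Set.mem_ofPred_eq] at hy hy'
    exact ht1 (hw y hy.1) (hw y' hy'.1) hyy
  · intro y hy
    simp only [mem_filter, mem_univ, true_and] at hy
    simp only [if_pos hy.1, if_pos hy.2, hr y hy.1]
    have := np y
    constructor
    · rw [← mul_div_assoc]; gcongr; nlinarith
    · rw [← mul_div_assoc]; gcongr; nlinarith
  · rw [← Finset.sum_div, ← mul_div_assoc, le_div_iff₀ Zp, one_mul]
    have a1 : Z = ∑ y ∈ univ.filter (fun y => RR blk σ h y ∧ RR blk σ h (t y)),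
        (if RR blk σ h y then nu p y else 0) +
        ∑ y ∈ univ.filter (fun y => RR blk σ h y ∧ ¬ RR blk σ h (t y)), nu p y := by
      rw [hZ, Finset.sum_filter, Finset.sum_filter, ← Finset.sum_add_distrib]
      refine Finset.sum_congr rfl fun y _ => ?_
      by_cases b1 : RR blk σ h y <;> by_cases b2 : RR blk σ h (t y) <;> simp [b1, b2]
    have a2 : ∑ y ∈ univ.filter (fun y => RR blk σ h y ∧ ¬ RR blk σ h (t y)), nu p y ≤ 4 * β := by
      calc ∑ y ∈ univ.filter (fun y => RR blk σ h y ∧ ¬ RR blk σ h (t y)), nu p y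
          ≤ ∑ y ∈ univ.filter (fun y => RR blk σ h y ∧ ¬ RR blk σ h (t y)),
            4 * (if RR blk σ h (t y) then 0 else nu p (t y)) := by
            refine Finset.sum_le_sum fun y hy => ?_
            simp only [mem_filter, mem_univ, true_and] at hy
            rw [if_neg hy.2, hr y hy.1]
            have := np y
            nlinarith
        _ = 4 * ∑ z ∈ (univ.filter (fun y => RR blk σ h y ∧ ¬ RR blk σ h (t y))).image t,
            (if RR blk σ h z then 0 else nu p z) := by
            rw [← Finset.mul_sum, Finset.sum_image]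
            intro y hy y' hy' hyy
            simp only [coe_filter, mem_univ, true_and, Set.mem_ofPred_eq] at hy hy'
            exact ht1 (hw y hy.1) (hw y' hy'.1) hyy
        _ ≤ 4 * β := by
            gcongr
            refine Finset.sum_le_sum_of_subset_of_nonneg (subset_univ _) fun z _ _ => ?_
            split_ifs; exacts [le_rfl, (np z).le]
    linarith

end Pool.Agent.H530Z.Levy
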