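import Mathlib
import Pool.Agent.H530Z.LevyE
import Pool.Agent.H530Z.LevyG

set_option autoImplicit false

open MeasureTheory Filter Topology Finset
open scoped ENNReal

namespace Pool.Agent.H530Z.Levy

theorem ham_add_le {M : ℕ} (a b : Fin M → ZMod 2) :
    hammingNorm (a + b) ≤ hammingNorm a + hammingNorm b := by
  rw [hammingNorm_eq_sum, hammingNorm_eq_sum, hammingNorm_eq_sum, ← Finset.sum_add_distrib]
  refine Finset.sum_le_sum fun j _ => ?_
  by_cases h1 : a j = 0 <;> by_cases h2 : b j = 0 <;> simp [h1, h2]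
  split_ifs <;> omega

theorem ham_neg {M : ℕ} (a : Fin M → ZMod 2) : hammingNorm (-a) = hammingNorm a := by
  rw [hammingNorm_eq_sum, hammingNorm_eq_sum]
  simp

/-- the cube with a rescaled Hamming norm -/
def Cube (M _T : ℕ) : Type := Fin M → ZMod 2

namespace Cube

variable {M T : ℕ}

instance : AddCommGroup (Cube M T) := inferInstanceAs (AddCommGroup (Fin M → ZMod 2))
instance : Fintype (Cube M T) := inferInstanceAs (Fintype (Fin M → ZMod 2))
instance : MeasurableSpace (Cube M T) := ⊤
instance : DiscreteMeasurableSpace (Cube M T) := ⟨fun _ => trivial⟩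

def mk (T : ℕ) (y : Fin M → ZMod 2) : Cube M T := y

def ham (y : Cube M T) : ℕ := @hammingNorm (Fin M) (fun _ => ZMod 2) _ _ _ y

noncomputable instance : NormedAddCommGroup (Cube M T) :=
  AddGroupNorm.toNormedAddCommGroup
    { toFun := fun y => (ham y : ℝ) / (T + 1 : ℕ)
      map_zero' := by
        have : ham (0 : Cube M T) = 0 := hammingNorm_zero
        simp [this]
      add_le' := fun a b => by
        rw [← add_div]
        gcongr
        have : ham (a + b) ≤ ham a + ham b := ham_add_le a b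
        exact_mod_cast this
      neg' := fun a => by
        have : ham (-a) = ham a := ham_neg a
        simp [this]
      eq_zero_of_map_eq_zero' := fun a ha => by
        have h1 : ((T + 1 : ℕ) : ℝ) ≠ 0 := by positivity
        have : ham a = 0 := by exact_mod_cast (div_eq_zero_iff.1 ha).resolve_right h1
        exact hammingNorm_eq_zero.1 this }

theorem norm_def (y : Cube M T) : ‖y‖ = (ham y : ℝ) / (T + 1 : ℕ) := rfl

theorem ham_le {y : Cube M T} {k : ℕ} (h : ‖y‖ ≤ k) : ham y ≤ k * (T + 1) := by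
  rw [norm_def, div_le_iff₀ (by positivity)] at h
  exact_mod_cast h

open Classical in
theorem unif_eq (S : Set (Cube M T)) : unif (Cube M T) S =
    ENNReal.ofReal (∑ y : Fin M → ZMod 2, if mk T y ∈ S then nu (1 / 2) y else 0) := by
  have := meas_eq_sum (L := fun _ => Cube M T) (q := fun _ => unif (Cube M T)) 0 S
  rw [this, ENNReal.ofReal_sum_of_nonneg (fun y _ => by
    split_ifs; exacts [(nu_pos (by norm_num) (by norm_num) y).le, le_rfl])]
  refine Finset.sum_congr rfl fun y _ => ?_
  by_cases h : y ∈ S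
  · rw [Set.indicator_of_mem h, if_pos (show mk T y ∈ S from h)]
    refine Eq.trans ?_ (congrArg ENNReal.ofReal (nu_half (M := M) y).symm)
    have : Fintype.card (Cube M T) = 2 ^ M := by
      show Fintype.card (Fin M → ZMod 2) = _
      simp
    simp [unif, this, ENNReal.ofReal_pow, ENNReal.inv_pow, ENNReal.ofReal_inv_of_pos]
  · rw [Set.indicator_of_notMem h, if_neg (show mk T y ∉ S from h), ENNReal.ofReal_zero]

theorem conc {c ε κ : ℝ} (hc : 0 < c) (hε : 0 < ε) (hM : (M : ℝ) ≤ κ * (T + 1 : ℕ) ^ 2)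
    (h1 : 4 * κ < c * ε ^ 2) (S : Set (Cube M T)) (hS : ENNReal.ofReal c ≤ unif (Cube M T) S) :
    unif (Cube M T) {y | ∃ z ∈ S, ‖y - z‖ < ε}ᶜ ≤ ENNReal.ofReal (4 * κ / ε ^ 2) := by
  classical
  have hne : S.Nonempty := by
    rcases S.eq_empty_or_nonempty with rfl | h
    · rw [measure_empty, nonpos_iff_eq_zero, ENNReal.ofReal_eq_zero] at hS; linarith
    · exact h
  have T0 : (0 : ℝ) < (T + 1 : ℕ) := by positivity
  let f : (Fin M → ZMod 2) → ℝ := fun y => Metric.infDist (mk T y) S
  have hf : ∀ y j t, |f (Function.update y j t) - f y| ≤ 1 / (T + 1 : ℕ) := by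
    intro y j t
    have a1 := (Metric.lipschitz_infDist_pt S).dist_le_mul
      (mk T (Function.update y j t)) (mk T y)
    rw [NNReal.coe_one, one_mul, dist_eq_norm (E := Cube M T), norm_def, Real.dist_eq] at a1
    refine a1.trans ?_
    gcongr
    have : hammingNorm (Function.update y j t - y) ≤ 1 := by
      rw [hammingNorm, ← Finset.card_singleton j]
      refine Finset.card_le_card fun k hk => ?_
      by_contra hkj
      simp [Function.update_of_ne (Finset.notMem_singleton.1 hkj)] at hk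
    exact_mod_cast this
  have hsum : ∑ _j : Fin M, (1 / ((T + 1 : ℕ) : ℝ)) ^ 2 ≤ κ := by
    rw [Finset.sum_const, card_univ, Fintype.card_fin, nsmul_eq_mul, div_pow, one_pow,
      mul_one_div, div_le_iff₀ (by positivity)]
    exact hM
  set m := ∑ y, nu (1 / 2) y * f y
  have c1 := (cheb (p := 1 / 2) (by norm_num) (by norm_num) _ f hf (fun y => (mk T y) ∈ S)
    (abs_nonneg m) fun y hy => by
      have : f y = 0 := Metric.infDist_zero_of_mem hy
      rw [this, zero_sub, abs_neg]).trans hsum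
  rw [unif_eq, ENNReal.ofReal_le_ofReal_iff (Finset.sum_nonneg fun y _ => by
    split_ifs; exacts [(nu_pos (by norm_num) (by norm_num) y).le, le_rfl])] at hS
  have c2 : c * |m| ^ 2 ≤ κ := le_trans (mul_le_mul_of_nonneg_right hS (sq_nonneg _)) (by
    convert c1)
  have c3 : |m| ≤ ε / 2 := by
    refine (abs_le_of_sq_le_sq' ?_ (by positivity)).2
    by_contra hcon
    push Not at hcon
    nlinarith
  have c4 := (cheb (p := 1 / 2) (by norm_num) (by norm_num) _ f hf
    (fun y => (mk T y) ∈ {y | ∃ z ∈ S, ‖y - z‖ < ε}ᶜ)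
    (r := ε / 2) (by positivity) fun y hy => by
      have : ε ≤ f y := by
        by_contra hlt
        obtain ⟨z, hz, hd⟩ := (Metric.infDist_lt_iff hne).1 (not_le.1 hlt)
        exact hy ⟨z, hz, by rwa [← dist_eq_norm]⟩
      refine le_trans ?_ (le_abs_self _)
      linarith [le_abs_self m]).trans hsum
  rw [unif_eq]
  refine ENNReal.ofReal_le_ofReal ?_
  rw [le_div_iff₀ (by positivity)]
  refine le_trans (le_of_eq ?_) (mul_le_mul_of_nonneg_left c4 (by norm_num : (0 : ℝ) ≤ 4))
  rw [div_pow, ← mul_div_assoc, mul_div_assoc', eq_div_iff (by norm_num)]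
  ring_nf

/-- measure from weights -/
theorem exists_measure {N : ℕ} {blk : Fin M → Fin N} {σ h : ℕ} {τ : ℝ}
    {g : (Fin M → ZMod 2) → ℝ} (hg : Wts blk σ h (T + 1) τ g) (hτ : τ ≤ 1 / 2) (hM : 0 < M) :
    ∃ q : Measure (Cube M T), IsProbabilityMeasure q ∧ (∀ y, q {y} = ENNReal.ofReal (g y)) ∧
      (∀ b : Cube M T, ‖b‖ ≤ 1 → ∑ y, (q {y - b} - q {y}) ≤ ENNReal.ofReal τ) ∧
      ∀ y, q {y} ≤ 3 / 4 := by
  have hs : ∑ y : Cube M T, ENNReal.ofReal (g y) = 1 := by
    show ∑ y : Fin M → ZMod 2, ENNReal.ofReal (g y) = 1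
    rw [← ENNReal.ofReal_sum_of_nonneg fun y _ => hg.nonneg y, hg.sum_one, ENNReal.ofReal_one]
  have hq : ∀ y, (PMF.ofFintype _ hs).toMeasure {y} = ENNReal.ofReal (g y) := fun y =>
    PMF.toMeasure_apply_singleton _ _ (measurableSet_singleton y)
  refine ⟨(PMF.ofFintype _ hs).toMeasure, inferInstance, hq, fun b hb => ?_, fun y => ?_⟩
  · simp only [hq]
    have h0 := ham_le (k := 1) (y := b) (by simpa using hb)
    rw [one_mul] at h0
    have h1 := hg.tv b h0
    refine le_trans ?_ (ENNReal.ofReal_le_ofReal h1)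
    rw [ENNReal.ofReal_sum_of_nonneg fun y _ => abs_nonneg _]
    refine Finset.sum_le_sum fun y _ => ?_
    rw [← ENNReal.ofReal_sub _ (hg.nonneg y)]
    exact ENNReal.ofReal_le_ofReal (le_abs_self _)
  · rw [hq]
    let b : Fin M → ZMod 2 := Pi.single ⟨0, hM⟩ 1
    have hb : hammingNorm b ≤ T + 1 := by
      refine le_trans ?_ (Nat.le_add_left 1 T)
      rw [hammingNorm, ← Finset.card_singleton (⟨0, hM⟩ : Fin M)]
      refine Finset.card_le_card fun k hk => ?_
      by_contra hkj
      simp [b, Pi.single_eq_of_ne (Finset.notMem_singleton.1 hkj)] at hk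
    let y' : Fin M → ZMod 2 := y
    have a1 : |g (y' - b) - g y'| ≤ τ := le_trans (Finset.single_le_sum
      (f := fun y => |g (y - b) - g y|) (fun _ _ => abs_nonneg _) (mem_univ y')) (hg.tv b hb)
    have a2 : y' - b ≠ y' := by
      intro h0
      have := congrFun (sub_eq_self.1 h0) ⟨0, hM⟩
      simp [b] at this
    have a3 : g (y' - b) + g y' ≤ 1 := by
      rw [← hg.sum_one, ← Finset.sum_pair a2]
      exact Finset.sum_le_sum_of_subset_of_nonneg (subset_univ _) fun z _ _ => hg.nonneg z
    have a4 : g y' ≤ 3 / 4 := by linarith [(abs_le.1 a1).1]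
    refine (ENNReal.ofReal_le_ofReal a4).trans (le_of_eq ?_)
    rw [ENNReal.ofReal_div_of_pos (by norm_num)]
    simp

end Cube

end Pool.Agent.H530Z.Levy
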