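import Mathlib
import Pool.Agent.H530Z.LevyH

set_option autoImplicit false

open MeasureTheory Filter Topology Finset
open scoped ENNReal

namespace Pool.Agent.H530Z.Levy

def UU (n N : ℕ) : ℕ := 1000000 * 4 ^ n * 2 ^ N

def NN : ℕ → ℕ
  | 0 => 1
  | n + 1 => NN n * (2 * UU n (NN n) ^ 9 + 1)

def uu (n : ℕ) : ℕ := UU n (NN n)

def TT : ℕ → ℕ
  | 0 => 0
  | n + 1 => uu n ^ 5

abbrev LL (n : ℕ) : Type := Cube (NN n) (TT n)

def blk (n : ℕ) (j : Fin (NN (n + 1))) : Fin (NN n) :=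
  ((finProdFinEquiv (m := NN n) (n := 2 * uu n ^ 9 + 1)).symm j).1

theorem card_fst (N s : ℕ) (i : Fin N) :
    #{j : Fin (N * s) | (finProdFinEquiv.symm j).1 = i} = s := by
  have : #{j : Fin (N * s) | (finProdFinEquiv.symm j).1 = i} = #((univ : Finset (Fin s)).map
      ⟨fun k => finProdFinEquiv (i, k), fun a b h => by simpa using h⟩) := by
    congr 1
    ext j
    simp only [mem_filter, mem_univ, true_and, Finset.mem_map]
    constructor
    · rintro rfl
      exact ⟨(finProdFinEquiv.symm j).2, Equiv.apply_symm_apply _ _⟩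
    · rintro ⟨k, rfl⟩
      exact congrArg Prod.fst (Equiv.symm_apply_apply finProdFinEquiv (i, k))
  rw [this]; simp

theorem card_blk (n : ℕ) (i : Fin (NN n)) : #{j | blk n j = i} = 2 * uu n ^ 9 + 1 :=
  card_fst (NN n) (2 * uu n ^ 9 + 1) i

theorem NN_pos (n : ℕ) : 1 ≤ NN n := by
  induction n with
  | zero => exact le_rfl
  | succ n ih => exact Nat.mul_pos ih (Nat.succ_pos _)

/-- radius -/
def hr (n : ℕ) : ℕ := (n + 1) * (uu n ^ 5 + 1)

theorem uu_facts (n : ℕ) : (1000000 : ℝ) * 4 ^ n ≤ uu n ∧ (1000000 : ℝ) * 2 ^ NN n ≤ uu n ∧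
    (1000000 : ℝ) * ((n + 1) * NN n) ≤ uu n ∧ (1000000 : ℝ) * (2 ^ n * NN n) ≤ uu n := by
  have e : (uu n : ℝ) = 1000000 * (4 ^ n * 2 ^ NN n) := by simp [uu, UU, mul_assoc]
  have a1 : (1 : ℝ) ≤ 4 ^ n := one_le_pow₀ (by norm_num)
  have a2 : (1 : ℝ) ≤ 2 ^ NN n := one_le_pow₀ (by norm_num)
  have a3 : (NN n : ℝ) ≤ 2 ^ NN n := by exact_mod_cast (Nat.lt_two_pow_self).le
  have a4 : (2 : ℝ) ^ n ≤ 4 ^ n := by gcongr; norm_num
  have a5 : (n : ℝ) + 1 ≤ 2 ^ n := by exact_mod_cast Nat.lt_two_pow_self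
  rw [e]
  refine ⟨by nlinarith, by nlinarith, ?_, ?_⟩
  · gcongr; linarith
  · gcongr

noncomputable def pp (n : ℕ) : ℝ := 1 / 2 - 1 / (uu n : ℝ) ^ 3

noncomputable def th (n : ℕ) : ℝ := (1 / 2) ^ n / 80

theorem th_pos (n : ℕ) : 0 < th n := by unfold th; positivity

theorem th_le (n : ℕ) : th n ≤ 1 / 80 := by
  have : (1 / 2 : ℝ) ^ n ≤ 1 := pow_le_one₀ (by norm_num) (by norm_num)
  unfold th; linarith

theorem uu_big (n : ℕ) : (1000000 : ℝ) ≤ uu n := by
  have a1 : (1 : ℝ) ≤ 4 ^ n := one_le_pow₀ (by norm_num)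
  linarith [(uu_facts n).1]

theorem pp_ge (n : ℕ) : 1 / 3 ≤ pp n := by
  have := uu_big n
  have : 1 / (uu n : ℝ) ^ 3 ≤ 1 / 6 := by
    gcongr
    calc (6 : ℝ) ≤ 1000000 ^ 3 := by norm_num
      _ ≤ _ := by gcongr
  unfold pp; linarith

theorem pp_le (n : ℕ) : pp n ≤ 1 / 2 := by
  have : 0 ≤ 1 / (uu n : ℝ) ^ 3 := by positivity
  unfold pp; linarith


theorem one_sub_pp (n : ℕ) : 1 - 2 * pp n = 2 / (uu n : ℝ) ^ 3 := by unfold pp; ring

theorem par_H1 (n : ℕ) : 8 * (1 - 2 * pp n) ^ 2 * ((uu n ^ 5 + 1 : ℕ) + 1) ≤ th n ^ 2 := by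
  have h1 := (uu_facts n).1
  have h2 := uu_big n
  rw [one_sub_pp]
  set u : ℝ := (uu n : ℝ) with hu
  have u0 : 0 < u := by linarith
  have e : th n ^ 2 = 1 / (6400 * 4 ^ n) := by
    unfold th
    rw [div_pow, ← pow_mul, mul_comm n 2, pow_mul, one_div_pow, one_div_pow]
    norm_num
    ring
  have a1 : (((uu n ^ 5 + 1 : ℕ) : ℝ) + 1) ≤ 3 * u ^ 5 := by
    have : 1 ≤ u ^ 5 := one_le_pow₀ (by linarith)
    push_cast; linarith
  calc 8 * (2 / u ^ 3) ^ 2 * ((uu n ^ 5 + 1 : ℕ) + 1) ≤ 8 * (2 / u ^ 3) ^ 2 * (3 * u ^ 5) := by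
        gcongr
    _ = 96 / u := by field_simp; norm_num
    _ ≤ _ := by
        rw [e, div_le_div_iff₀ u0 (by positivity)]
        have : (0 : ℝ) < 4 ^ n := by positivity
        linarith

theorem hr_le (n : ℕ) : (hr n : ℝ) + 1 / 2 ≤ (uu n : ℝ) ^ 6 := by
  have h1 := (uu_facts n).2.2.1
  have h2 := uu_big n
  have h3 : (1 : ℝ) ≤ NN n := by exact_mod_cast NN_pos n
  set u : ℝ := (uu n : ℝ) with hu
  have h4 : 1 ≤ u ^ 5 := one_le_pow₀ (by linarith)
  have h5 : (0 : ℝ) ≤ n := n.cast_nonneg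
  have h6 : 1000000 * ((n : ℝ) + 1) ≤ u := by nlinarith
  have : (hr n : ℝ) = (n + 1) * (u ^ 5 + 1) := by simp [hr, hu]
  rw [this, show u ^ 6 = u * u ^ 5 by ring]
  nlinarith

theorem hr_ge (n : ℕ) : (uu n : ℝ) ^ 5 ≤ hr n := by
  have : uu n ^ 5 ≤ hr n := by unfold hr; nlinarith [Nat.zero_le (n * (uu n ^ 5 + 1))]
  exact_mod_cast this

theorem par_bad (n : ℕ) : ∑ y : Fin (NN (n + 1)) → ZMod 2,
    (if RR (blk n) (uu n ^ 9) (hr n) y then 0 else nu (pp n) y) ≤ th n := by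
  have h1 := (uu_facts n).2.2.2
  have h2 := uu_big n
  have h3 := hr_le n
  have e : ((uu n ^ 9 : ℕ) : ℝ) - hr n - pp n * (2 * uu n ^ 9 + 1 : ℕ) =
      2 * (uu n : ℝ) ^ 6 - hr n - 1 / 2 + 1 / (uu n : ℝ) ^ 3 := by
    unfold pp; push_cast; field_simp; ring
  set u : ℝ := (uu n : ℝ) with hu
  have u0 : 0 < u := by linarith
  have a1 : u ^ 6 ≤ 2 * u ^ 6 - hr n - 1 / 2 + 1 / u ^ 3 := by
    have : 0 < 1 / u ^ 3 := by positivity
    linarith
  refine nu_bad (card_blk n) (by linarith [pp_ge n]) (by linarith [pp_le n]) ?_ ?_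
  · rw [e]; exact lt_of_lt_of_le (by positivity) a1
  · rw [e]
    have a2 : 1 ≤ u ^ 9 := one_le_pow₀ (by linarith)
    have a3 : (NN n : ℝ) * 3 ≤ th n * u := by
      unfold th
      rw [one_div_pow, div_div, div_mul_eq_mul_div, le_div_iff₀ (by positivity)]
      have : (0 : ℝ) ≤ 2 ^ n * NN n := by positivity
      nlinarith
    have a4 : u ≤ u ^ 3 := le_self_pow₀ (by linarith) (by norm_num)
    calc (NN n : ℝ) * (2 * uu n ^ 9 + 1 : ℕ) ≤ NN n * (3 * u ^ 9) := by
          gcongr; push_cast; linarith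
      _ = NN n * 3 * u ^ 9 := by ring
      _ ≤ th n * u ^ 3 * u ^ 9 := by
          exact mul_le_mul_of_nonneg_right
            (a3.trans (mul_le_mul_of_nonneg_left a4 (th_pos n).le)) (by positivity)
      _ = th n * (u ^ 6) ^ 2 := by ring
      _ ≤ _ := by have := th_pos n; gcongr

theorem par_H3 (n : ℕ) : (pp n / (1 - pp n)) ^ hr n ≤ 1 / 2 := by
  have h2 := uu_big n
  have h3 := hr_ge n
  have p0 := pp_ge n
  have p1 := pp_le n
  have e := one_sub_pp n
  set u : ℝ := (uu n : ℝ) with hu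
  have u0 : 0 < u := by linarith
  have a1 : 1 + 2 / u ^ 3 ≤ (1 - pp n) / pp n := by
    rw [le_div_iff₀ (by linarith), ← e]; nlinarith
  have a2 : 2 ≤ ((1 - pp n) / pp n) ^ hr n := by
    refine le_trans ?_ (pow_le_pow_left₀ (by positivity) a1 _)
    refine le_trans ?_ (one_add_mul_le_pow (by have : 0 < 2 / u ^ 3 := by positivity
                                               linarith) _)
    have : u ^ 3 ≤ u ^ 5 := pow_le_pow_right₀ (by linarith) (by norm_num)
    have : 1 ≤ hr n * (2 / u ^ 3) := by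
      rw [← mul_div_assoc, le_div_iff₀ (by positivity)]
      have : 0 < u ^ 3 := by positivity
      linarith
    linarith
  rw [← inv_div, inv_pow, one_div]
  exact inv_anti₀ (by norm_num) a2

theorem par_conc (n : ℕ) :
    (NN (n + 1) : ℝ) ≤ 1 / ((n : ℝ) + 1) * (TT (n + 1) + 1 : ℕ) ^ 2 := by
  have h1 := (uu_facts n).2.2.1
  have h2 := uu_big n
  have e1 : (NN (n + 1) : ℝ) = NN n * (2 * (uu n : ℝ) ^ 9 + 1) := by simp [NN, uu]
  have e2 : ((TT (n + 1) + 1 : ℕ) : ℝ) = (uu n : ℝ) ^ 5 + 1 := by simp [TT]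
  rw [e1, e2, one_div_mul_eq_div, le_div_iff₀ (by positivity)]
  set u : ℝ := (uu n : ℝ) with hu
  have a2 : 1 ≤ u ^ 9 := one_le_pow₀ (by linarith)
  have a3 : (0 : ℝ) ≤ (n + 1) * NN n := by positivity
  calc (NN n : ℝ) * (2 * u ^ 9 + 1) * (n + 1) = (n + 1) * NN n * (2 * u ^ 9 + 1) := by ring
    _ ≤ (n + 1) * NN n * (3 * u ^ 9) := by gcongr; linarith
    _ = 3 * ((n + 1) * NN n) * u ^ 9 := by ring
    _ ≤ u * u ^ 9 := by gcongr; linarith
    _ = (u ^ 5) ^ 2 := by ring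
    _ ≤ _ := by gcongr; linarith

noncomputable def tower : Data LL where
  φ n := { toFun := fun c j => c (blk n j), map_zero' := rfl, map_add' := fun _ _ => rfl }
  δ n := dec (blk n) (uu n ^ 9)
  hδ n y c := dec_add (card_blk n) y c
  rob_ne n := by
    refine ⟨0, fun a ha => dec_rob (y := 0) (h := hr n) (fun i => ?_)
      (Cube.ham_le (k := n + 1) (by exact_mod_cast ha))⟩
    have h1 := hr_le n
    have h2 := uu_big n
    have : (uu n : ℝ) ^ 6 ≤ (uu n : ℝ) ^ 9 := pow_le_pow_right₀ (by linarith) (by norm_num)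
    have h3 : (hr n : ℝ) ≤ (uu n : ℝ) ^ 9 := by linarith
    simp only [bw, Pi.zero_apply, ne_eq, not_true_eq_false, and_false, if_false, sum_const_zero,
      zero_add]
    exact_mod_cast h3

theorem tower_levy : IsLevyGroup tower.GG := by
  refine tower.isLevy fun c hc ε hε η hη => ?_
  obtain ⟨c', -, hc0, hc1⟩ := ENNReal.lt_iff_exists_real_btwn.1 hc
  obtain ⟨η', -, hη0, hη1⟩ := ENNReal.lt_iff_exists_real_btwn.1 hη
  rw [ENNReal.ofReal_pos] at hc0 hη0
  have ht : Tendsto (fun n : ℕ => 4 * (1 / ((n : ℝ) + 1))) atTop (𝓝 0) := by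
    simpa using tendsto_one_div_add_atTop_nhds_zero_nat.const_mul (4 : ℝ)
  have h1 := ht.eventually (eventually_lt_nhds (show 0 < c' * ε ^ 2 by positivity))
  have h2 := ht.eventually (eventually_lt_nhds (show 0 < η' * ε ^ 2 by positivity))
  obtain ⟨k, hk⟩ := eventually_atTop.1 (h1.and h2)
  refine eventually_atTop.2 ⟨k + 1, fun n hn S hS => ?_⟩
  obtain ⟨m, rfl⟩ : ∃ m, n = m + 1 := ⟨n - 1, by omega⟩
  refine (Cube.conc hc0 hε (par_conc m) (hk m (by omega)).1 S (hc1.le.trans hS)).trans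
    (le_trans (ENNReal.ofReal_le_ofReal ?_) hη1.le)
  rw [div_le_iff₀ (by positivity)]
  exact (hk m (by omega)).2.le

theorem good_of_weights (g : ∀ n, (Fin (NN (n + 1)) → ZMod 2) → ℝ)
    (hg : ∀ n, Wts (blk n) (uu n ^ 9) (hr n) (uu n ^ 5 + 1) (40 * th n) (g n)) :
    ∃ (q : ∀ n, Measure (LL n)) (_ : ∀ n, IsProbabilityMeasure (q n)), tower.Good q ∧
      q 0 = Measure.dirac 0 ∧ ∀ n y, q (n + 1) {y} = ENNReal.ofReal (g n y) := by
  choose Q h1 h2 h3 h4 using fun n => Cube.exists_measure (T := TT (n + 1)) (hg n)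
    (by linarith [th_le n]) (NN_pos (n + 1))
  let q : ∀ n, Measure (LL n) := fun n => match n with
    | 0 => Measure.dirac 0
    | n + 1 => Q n
  have hp : ∀ n, IsProbabilityMeasure (q n) := fun n => match n with
    | 0 => inferInstanceAs (IsProbabilityMeasure (Measure.dirac 0))
    | n + 1 => h1 n
  refine ⟨q, hp, ⟨fun n y hy a ha => ?_, ⟨fun n => 4 * 2⁻¹ ^ n, ?_, fun n b hb => ?_⟩, h4⟩, rfl, h2⟩
  · refine dec_rob ((hg n).supp y fun h0 => hy ?_) (Cube.ham_le (k := n + 1) (by exact_mod_cast ha))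
    show Q n {y} = 0
    rw [h2, h0, ENNReal.ofReal_zero]
  · rw [ENNReal.tsum_mul_left, ENNReal.tsum_geometric]
    exact ENNReal.mul_ne_top (by norm_num) (by simp)
  · cases n with
    | zero =>
      calc tv q 0 b ≤ ∑ _y : LL 0, 1 :=
            Finset.sum_le_sum fun y _ => tsub_le_self.trans prob_le_one
        _ ≤ _ := by
            have : Fintype.card (LL 0) = 2 := by
              show Fintype.card (Fin 1 → ZMod 2) = _
              simp
            simp [this]; norm_num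
    | succ n =>
      refine (h3 n b hb).trans ?_
      have : (4 * 2⁻¹ ^ (n + 1) : ℝ≥0∞) = ENNReal.ofReal (4 * 2⁻¹ ^ (n + 1)) := by
        rw [ENNReal.ofReal_mul (by norm_num), ENNReal.ofReal_pow (by norm_num),
          ENNReal.ofReal_inv_of_pos (by norm_num)]
        simp
      refine le_trans ?_ this.ge
      refine ENNReal.ofReal_le_ofReal ?_
      unfold th
      rw [pow_succ, one_div]
      have : (0 : ℝ) < 2⁻¹ ^ n := by positivity
      linarith

theorem tower_III : ∃ μ : Measure (∀ n, LL n), IsTypeIII tower.GG (∀ n, LL n) μ := by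
  choose g hg dom t h1 h2 h3 using fun n => weightsIII (blk := blk n) (σ := uu n ^ 9) (h := hr n)
    (T := uu n ^ 5 + 1) rfl (NN_pos n) (pp_ge n) (pp_le n) (th_pos n) (by linarith [th_le n])
    (par_H1 n) (par_bad n) (par_H3 n)
  obtain ⟨q, hp, hq, -, hqg⟩ := good_of_weights g fun n =>
    ⟨(hg n).nonneg, (hg n).sum_one, (hg n).supp,
      fun b hb => ((hg n).tv b hb).trans (by linarith [th_pos n])⟩
  refine Data.typeIII hq fun n => ⟨dom n, t n, h1 n, fun y hy => ?_, ?_⟩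
  · have e1 := hqg n y
    have e2 := hqg n (t n y)
    have b1 := ENNReal.ofReal_le_ofReal (h2 n y hy).1
    have b2 := ENNReal.ofReal_le_ofReal (h2 n y hy).2
    rw [ENNReal.ofReal_mul (by norm_num), ENNReal.ofReal_ofNat] at b1 b2
    exact ⟨e1.le.trans (b1.trans (mul_le_mul_right e2.ge _)),
      (mul_le_mul_right e2.le _).trans (b2.trans e1.ge)⟩
  · simp only [hqg]
    have := ENNReal.ofReal_le_ofReal (h3 n)
    rw [ENNReal.ofReal_one, ENNReal.ofReal_mul (by norm_num),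
      ENNReal.ofReal_sum_of_nonneg fun y _ => (hg n).nonneg y, ENNReal.ofReal_ofNat] at this
    exact this

theorem mainIII : ∃ (G : Type) (_ : Group G) (_ : TopologicalSpace G) (_ : IsTopologicalGroup G)
    (_ : PolishSpace G) (_ : MeasurableSpace G) (_ : BorelSpace G), IsLevyGroup G ∧
    ∃ (X : Type) (_ : MeasurableSpace X) (_ : StandardBorelSpace X) (_ : MulAction G X)
      (μ : Measure X), IsTypeIII G X μ :=
  ⟨tower.GG, inferInstance, inferInstance, inferInstance, inferInstance, inferInstance,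
    inferInstance, tower_levy, ∀ n, LL n, inferInstance, inferInstance, inferInstance, tower_III⟩

end Pool.Agent.H530Z.Levy
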