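import Mathlib
import Pool.Agent.H530Z.LevyI

set_option autoImplicit false

open MeasureTheory Filter Topology Finset
open scoped ENNReal

namespace Pool.Agent.H530Z.Levy

variable {M N : ℕ}

/-- indicator of a Hamming ball -/
def ib (k : ℕ) (y : Fin M → ZMod 2) : ℝ := if hammingNorm y ≤ k then 1 else 0

noncomputable def dk (k : ℕ) (b : Fin M → ZMod 2) : ℝ := ∑ y, |ib k (y - b) - ib k y|

theorem dk_add (k : ℕ) (a b : Fin M → ZMod 2) : dk k (a + b) ≤ dk k a + dk k b := by
  have e : dk k a = ∑ y, |ib k (y - b - a) - ib k (y - b)| :=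
    ((Equiv.subRight b).sum_comp fun y => |ib k (y - a) - ib k y|).symm
  rw [e, dk, dk, ← Finset.sum_add_distrib]
  refine Finset.sum_le_sum fun y _ => ?_
  rw [show y - (a + b) = y - b - a by abel]
  exact abs_sub_le _ _ _

theorem dk_nonneg (k : ℕ) (a : Fin M → ZMod 2) : 0 ≤ dk k a :=
  Finset.sum_nonneg fun _ _ => abs_nonneg _

theorem ham_comp (e : Fin M ≃ Fin M) (y : Fin M → ZMod 2) :
    hammingNorm (fun j => y (e j)) = hammingNorm y := by
  rw [hammingNorm_eq_sum, hammingNorm_eq_sum]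
  exact e.sum_comp fun j => if y j ≠ 0 then 1 else 0

theorem dk_congr (k : ℕ) {a b : Fin M → ZMod 2} (h : hammingNorm a = hammingNorm b) :
    dk k a = dk k b := by
  have c1 : ∀ y : Fin M → ZMod 2, Fintype.card {j // y j = 1} = hammingNorm y := fun y => by
    rw [Fintype.card_subtype, hammingNorm]
    congr 1
    ext j
    rcases z2_cases (y j) with h | h <;> simp [h]
  have c0 : ∀ y : Fin M → ZMod 2, Fintype.card {j // y j = 0} = M - hammingNorm y := fun y => by
    have := Fintype.card_subtype_compl (fun j => y j ≠ 0)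
    rw [Fintype.card_fin, Fintype.card_subtype (fun j => y j ≠ 0)] at this
    simp only [not_not] at this
    exact this
  have hc : ∀ c, Fintype.card {j // a j = c} = Fintype.card {j // b j = c} := fun c => by
    rcases z2_cases c with rfl | rfl
    · rw [c0, c0, h]
    · rw [c1, c1, h]
  let e : Fin M ≃ Fin M := Equiv.ofFiberEquiv fun c => Fintype.equivOfCardEq (hc c)
  have he : ∀ j, b (e j) = a j := Equiv.ofFiberEquiv_map _
  unfold dk
  refine (Fintype.sum_equiv (Equiv.arrowCongr e (Equiv.refl _)).symm _ _ fun y => ?_).symm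
  have e1 : (Equiv.arrowCongr e (Equiv.refl (ZMod 2))).symm y = fun j => y (e j) := rfl
  have e2 : (fun j => y (e j)) - a = fun j => (y - b) (e j) := by
    funext j; simp [he]
  rw [e1, e2]
  unfold ib
  rw [ham_comp, ham_comp]

/-- indicator vector -/
def ind (s : Finset (Fin M)) : Fin M → ZMod 2 := fun j => if j ∈ s then 1 else 0

theorem ham_ind (s : Finset (Fin M)) : hammingNorm (ind s) = #s := by
  rw [hammingNorm]
  congr 1
  ext j
  by_cases hj : j ∈ s <;> simp [ind, hj]

theorem exists_split {T : ℕ} (hT : 2 * T ≤ M) (a : Fin M → ZMod 2) (ha : hammingNorm a ≤ T) :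
    ∃ b c : Fin M → ZMod 2, a = b + c ∧ hammingNorm c = T ∧
      (hammingNorm b = T ∨ hammingNorm b = T + 1) := by
  set s := univ.filter fun j => a j ≠ 0 with hs
  have hcard : #s = hammingNorm a := rfl
  obtain ⟨s2, h1, h2⟩ := Finset.exists_subset_card_eq (s := s) (n := #s / 2) (Nat.div_le_self _ _)
  obtain ⟨e, h3, h4⟩ := Finset.exists_subset_card_eq (s := sᶜ) (n := T - #s / 2) (by
    rw [Finset.card_compl, Fintype.card_fin]; omega)
  have d1 : Disjoint s e := Finset.disjoint_left.2 fun j hj hj' => by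
    have := h3 hj'; simp_all
  refine ⟨ind ((s \ s2) ∪ e), ind (s2 ∪ e), ?_, ?_, ?_⟩
  · funext j
    have two : (1 : ZMod 2) + 1 = 0 := by decide
    have m1 : j ∈ s ↔ a j ≠ 0 := by simp [hs]
    have m2 : j ∈ s2 → j ∈ s := fun h => h1 h
    have m3 : j ∈ s → j ∉ e := fun h => Finset.disjoint_left.1 d1 h
    simp only [ind, Pi.add_apply, mem_union, mem_sdiff]
    rcases z2_cases (a j) with h | h
    · have n1 : j ∉ s := by simp [m1, h]
      have n2 : j ∉ s2 := fun h' => n1 (m2 h')
      by_cases n3 : j ∈ e <;> simp [h, n1, n2, n3, two]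
    · have n1 : j ∈ s := by simp [m1, h]
      have n3 := m3 n1
      by_cases n2 : j ∈ s2 <;> simp [h, n1, n2, n3]
  · rw [ham_ind, Finset.card_union_of_disjoint (d1.mono_left h1), h2, h4]; omega
  · rw [ham_ind, Finset.card_union_of_disjoint (d1.mono_left Finset.sdiff_subset),
      Finset.card_sdiff_of_subset h1, h2, h4]
    omega

theorem tel (G : ℕ → ℝ) (w K : ℕ) (h : w ≤ K) :
    ∑ k ∈ range K, (G k - G (k + 1)) * (if w ≤ k then 1 else 0) = G w - G K := by
  induction K, h using Nat.le_induction with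
  | base =>
    rw [sub_self]
    exact Finset.sum_eq_zero fun k hk => by rw [if_neg (by simpa using hk), mul_zero]
  | succ K hK ih => rw [Finset.sum_range_succ, ih, if_pos hK]; ring

theorem layer {p : ℝ} (h0 : 0 < p) (h1 : p ≤ 1 / 2) (M : ℕ) : ∃ c : ℕ → ℝ, (∀ k, 0 ≤ c k) ∧
    ∀ y : Fin M → ZMod 2, nu p y = ∑ k ∈ range (M + 1), c k * ib k y := by
  have q0 : 0 < 1 - p := by linarith
  let G : ℕ → ℝ := fun k => if k ≤ M then (1 - p) ^ M * (p / (1 - p)) ^ k else 0
  refine ⟨fun k => G k - G (k + 1), fun k => ?_, fun y => ?_⟩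
  · simp only [G]
    split_ifs with a1 a2 a2
    · have : (p / (1 - p)) ^ (k + 1) ≤ (p / (1 - p)) ^ k :=
        pow_le_pow_of_le_one (by positivity) (by rw [div_le_one q0]; linarith) (by omega)
      have := mul_le_mul_of_nonneg_left this (show 0 ≤ (1 - p) ^ M by positivity)
      linarith
    · rw [sub_zero]; positivity
    · omega
    · simp
  · have hw : hammingNorm y ≤ M := by
      simpa using hammingNorm_le_card_fintype (x := y)
    have := tel G (hammingNorm y) (M + 1) (by omega)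
    unfold ib
    rw [this, nu_eq (by linarith)]
    simp [G, hw]

theorem weightsII {blk : Fin M → Fin N} {σ h : ℕ} (hs : ∀ i, #{j | blk j = i} = 2 * σ + 1)
    (hN : 1 ≤ N) {T : ℕ} (hT0 : 1 ≤ T) (hT : 2 * T ≤ M) {p θ : ℝ} (h0 : 1 / 3 ≤ p)
    (h1 : p ≤ 1 / 2) (hθ : 0 < θ) (hθ1 : θ ≤ 1 / 80)
    (H1 : 8 * (1 - 2 * p) ^ 2 * (T + 1) ≤ θ ^ 2)
    (hbad : ∑ y : Fin M → ZMod 2, (if RR blk σ h y then 0 else nu p y) ≤ θ)
    (H4 : (2 * σ + 1) * 2 ^ (N + 1) ≤ h ^ 2) :
    ∃ g, Wts blk σ h T (40 * θ) g ∧ (∀ y y', g y ≠ 0 → g y' ≠ 0 → g y = g y') ∧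
      ∃ t : (Fin M → ZMod 2) → (Fin M → ZMod 2), Set.InjOn t {y | g y ≠ 0} ∧
        ∀ y, g y ≠ 0 → dec blk σ (t y) = 0 ∧ g (t y) = 0 := by
  classical
  have p0 : 0 < p := by linarith
  obtain ⟨c, c0, hc⟩ := layer p0 h1 M
  have hD : ∀ b : Fin M → ZMod 2, hammingNorm b ≤ T + 1 →
      ∑ k ∈ range (M + 1), c k * dk k b ≤ 2 * θ := by
    intro b hb
    refine le_trans (le_of_eq ?_) (tv_nu (by linarith) h1 hθ (by linarith) b (le_trans (by
      have : (hammingNorm b : ℝ) ≤ T + 1 := by exact_mod_cast hb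
      gcongr) H1))
    simp only [dk, Finset.mul_sum]
    rw [Finset.sum_comm]
    refine Finset.sum_congr rfl fun y _ => ?_
    rw [hc, hc, ← Finset.sum_sub_distrib]
    rcases le_total (hammingNorm (y - b)) (hammingNorm y) with hle | hle
    · have : ∀ k, 0 ≤ ib k (y - b) - ib k y := fun k => by
        unfold ib; split_ifs <;> first | omega | norm_num
      rw [abs_of_nonneg (Finset.sum_nonneg fun k _ => by
        rw [← mul_sub]; exact mul_nonneg (c0 k) (this k))]
      exact Finset.sum_congr rfl fun k _ => by rw [abs_of_nonneg (this k), mul_sub]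
    · have : ∀ k, ib k (y - b) - ib k y ≤ 0 := fun k => by
        unfold ib; split_ifs <;> first | omega | norm_num
      rw [abs_of_nonpos (Finset.sum_nonpos fun k _ => by
        rw [← mul_sub]; exact mul_nonpos_of_nonneg_of_nonpos (c0 k) (this k)),
        ← Finset.sum_neg_distrib]
      exact Finset.sum_congr rfl fun k _ => by rw [abs_of_nonpos (this k)]; ring
  obtain ⟨s0, -, hs0⟩ := Finset.exists_subset_card_eq (s := (univ : Finset (Fin M))) (n := T)
    (by simp; omega)
  obtain ⟨s1, -, hs1⟩ := Finset.exists_subset_card_eq (s := (univ : Finset (Fin M))) (n := T + 1)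
    (by simp; omega)
  let E : ℕ → ℝ := fun k => ∑ y : Fin M → ZMod 2, (if RR blk σ h y then 0 else ib k y)
  let B : ℕ → ℝ := fun k => ∑ y : Fin M → ZMod 2, ib k y
  have hE : ∑ k ∈ range (M + 1), c k * E k ≤ θ := by
    refine le_trans (le_of_eq ?_) hbad
    simp only [E, Finset.mul_sum]
    rw [Finset.sum_comm]
    refine Finset.sum_congr rfl fun y _ => ?_
    split_ifs
    · simp
    · rw [hc]
  have hB : ∑ k ∈ range (M + 1), c k * B k = 1 := by
    simp only [B, Finset.mul_sum]
    rw [Finset.sum_comm, ← sum_nu p M]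
    exact Finset.sum_congr rfl fun y _ => (hc y).symm
  obtain ⟨k, hk⟩ : ∃ k, 2 * dk k (ind s0) + 2 * dk k (ind s1) + 2 * E k ≤ 20 * θ * B k := by
    by_contra hcon
    push Not at hcon
    have a1 : ∑ k ∈ range (M + 1), c k * (20 * θ * B k) ≤
        ∑ k ∈ range (M + 1), c k * (2 * dk k (ind s0) + 2 * dk k (ind s1) + 2 * E k) :=
      Finset.sum_le_sum fun k _ => mul_le_mul_of_nonneg_left (hcon k).le (c0 k)
    have a2 : ∑ k ∈ range (M + 1), c k * (20 * θ * B k) = 20 * θ := by
      simp only [mul_left_comm (c _)]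
      rw [← Finset.mul_sum, hB, mul_one]
    have a3 : ∑ k ∈ range (M + 1), c k * (2 * dk k (ind s0) + 2 * dk k (ind s1) + 2 * E k) =
        2 * ∑ k ∈ range (M + 1), c k * dk k (ind s0) +
        2 * ∑ k ∈ range (M + 1), c k * dk k (ind s1) + 2 * ∑ k ∈ range (M + 1), c k * E k := by
      simp only [Finset.mul_sum, ← Finset.sum_add_distrib]
      exact Finset.sum_congr rfl fun k _ => by ring
    have a4 := hD (ind s0) (by rw [ham_ind]; omega)
    have a5 := hD (ind s1) (by rw [ham_ind]; omega)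
    linarith
  have ib0 : ∀ y : Fin M → ZMod 2, 0 ≤ ib k y := fun y => by unfold ib; split_ifs <;> norm_num
  have B1 : 1 ≤ B k := le_trans (le_of_eq (by simp [ib]))
    (Finset.single_le_sum (fun y _ => ib0 y) (mem_univ (0 : Fin M → ZMod 2)))
  have E0 : 0 ≤ E k := Finset.sum_nonneg fun y _ => by split_ifs; exacts [le_rfl, ib0 y]
  have d0 := dk_nonneg k (ind s0)
  have d1 := dk_nonneg k (ind s1)
  set Z := ∑ y : Fin M → ZMod 2, (if RR blk σ h y then ib k y else 0) with hZ
  have hZE : Z + E k = B k := by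
    simp only [hZ, E, B]
    rw [← Finset.sum_add_distrib]
    refine Finset.sum_congr rfl fun y _ => ?_
    split_ifs <;> simp
  have Z1 : B k ≤ 2 * Z := by nlinarith
  have Zp : 0 < Z := by linarith
  have hsupp : ∀ y, (if RR blk σ h y then ib k y else 0) / Z ≠ 0 →
      RR blk σ h y ∧ (if RR blk σ h y then ib k y else 0) / Z = 1 / Z := by
    intro y hy
    by_cases b1 : RR blk σ h y
    · refine ⟨b1, ?_⟩
      rw [if_pos b1] at hy ⊢
      unfold ib at hy ⊢
      split_ifs with b2
      · rfl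
      · simp [b2] at hy
    · simp [b1] at hy
  refine ⟨fun y => (if RR blk σ h y then ib k y else 0) / Z, ⟨fun y => ?_, ?_,
    fun y hy => (hsupp y hy).1, fun b hb => ?_⟩,
    fun y y' hy hy' => (hsupp y hy).2.trans (hsupp y' hy').2.symm, ?_⟩
  · have := ib0 y
    split_ifs <;> positivity
  · rw [← Finset.sum_div, div_self Zp.ne']
  · obtain ⟨b1, b2, rfl, hb2, hb1⟩ := exists_split hT b hb
    have a1 : dk k (b1 + b2) ≤ 2 * dk k (ind s0) + 2 * dk k (ind s1) := by
      have := dk_add k b1 b2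
      rw [dk_congr k (b := ind s0) (hb2.trans (by rw [ham_ind, hs0]))] at this
      rcases hb1 with hb1 | hb1
      · rw [dk_congr k (a := b1) (b := ind s0) (hb1.trans (by rw [ham_ind, hs0]))] at this
        linarith
      · rw [dk_congr k (a := b1) (b := ind s1) (hb1.trans (by rw [ham_ind, hs1]))] at this
        linarith
    set b := b1 + b2
    have a2 : ∑ y : Fin M → ZMod 2, (if RR blk σ h (y - b) then 0 else ib k (y - b)) = E k :=
      (Equiv.subRight b).sum_comp fun y => if RR blk σ h y then 0 else ib k y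
    have a3 : ∀ y, |(if RR blk σ h (y - b) then ib k (y - b) else 0) / Z -
        (if RR blk σ h y then ib k y else 0) / Z| ≤ (|ib k (y - b) - ib k y| +
        (if RR blk σ h (y - b) then 0 else ib k (y - b)) +
        (if RR blk σ h y then 0 else ib k y)) / Z := fun y => by
      rw [← sub_div, abs_div, abs_of_pos Zp]
      gcongr
      have b1 := ib0 y
      have b2 := ib0 (y - b)
      have b3 := le_abs_self (ib k (y - b) - ib k y)
      have b4 := neg_abs_le (ib k (y - b) - ib k y)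
      split_ifs <;> rw [abs_le] <;> constructor <;> linarith
    refine (Finset.sum_le_sum fun y _ => a3 y).trans ?_
    rw [← Finset.sum_div, Finset.sum_add_distrib, Finset.sum_add_distrib, a2, div_le_iff₀ Zp]
    have a4 : dk k b + E k + E k ≤ 20 * θ * B k := by linarith
    have a5 : 20 * θ * B k ≤ 20 * θ * (2 * Z) := by gcongr
    exact a4.trans (a5.trans (le_of_eq (by ring)))
  · -- counting
    set R := univ.filter fun y : Fin M → ZMod 2 => RR blk σ h y with hR
    set Zs := univ.filter fun y : Fin M → ZMod 2 => dec blk σ y = 0 with hZs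
    have k1 : 2 ^ M ≤ 2 ^ N * #Zs := by
      have := Finset.card_le_card_of_injOn (s := (univ : Finset (Fin M → ZMod 2)))
        (t := (univ : Finset (Fin N → ZMod 2)) ×ˢ Zs)
        (fun y => (dec blk σ y, y + fun j => (-dec blk σ y) (blk j))) (fun y _ => by
          simp only [coe_product, coe_univ, Set.mem_prod, Set.mem_univ, true_and, hZs, coe_filter,
            mem_univ, Set.mem_ofPred_eq]
          rw [dec_add hs, add_neg_cancel]) (fun y _ y' _ hyy => by
          simp only [Prod.mk.injEq] at hyy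
          have := hyy.2
          rw [hyy.1] at this
          exact add_right_cancel this)
      simpa using this
    have k2 : (#R : ℝ) * (1 / 2) ^ M * (h : ℝ) ^ 2 ≤ (2 * σ + 1 : ℕ) := by
      have := cheb_bw (p := 1 / 2) (by norm_num) (by norm_num) blk ⟨0, hN⟩ (hs _)
        (fun y => RR blk σ h y) (r := h) (Nat.cast_nonneg _) fun y hy => by
          rw [abs_sub_comm]
          refine le_trans ?_ (le_abs_self _)
          have : (bw blk ⟨0, hN⟩ y : ℝ) + h ≤ σ := by exact_mod_cast hy ⟨0, hN⟩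
          push_cast; linarith
      refine le_trans (le_of_eq ?_) this
      congr 1
      simp only [nu_half]
      rw [← Finset.sum_filter, Finset.sum_const, nsmul_eq_mul]
    have k3 : 2 * #R ≤ #Zs := by
      have b1 : ((2 * σ + 1 : ℕ) : ℝ) * 2 ^ (N + 1) ≤ (h : ℝ) ^ 2 := by exact_mod_cast H4
      have b2 : (2 : ℝ) ^ M ≤ 2 ^ N * #Zs := by exact_mod_cast k1
      have b3 : (0 : ℝ) < (2 * σ + 1 : ℕ) := by positivity
      have b4 : (#R : ℝ) * (1 / 2) ^ M * 2 ^ (N + 1) ≤ 1 := by
        refine le_of_mul_le_mul_left ?_ b3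
        calc ((2 * σ + 1 : ℕ) : ℝ) * (#R * (1 / 2) ^ M * 2 ^ (N + 1))
            = #R * (1 / 2) ^ M * (((2 * σ + 1 : ℕ) : ℝ) * 2 ^ (N + 1)) := by ring
          _ ≤ #R * (1 / 2) ^ M * (h : ℝ) ^ 2 := by gcongr
          _ ≤ _ := by rw [mul_one]; exact k2
      rw [one_div_pow, mul_one_div, div_mul_eq_mul_div, div_le_one (by positivity), pow_succ] at b4
      have b5 : (2 : ℝ) ^ N * (2 * #R) ≤ 2 ^ N * #Zs := by linarith
      exact_mod_cast le_of_mul_le_mul_left b5 (by positivity)
    have k4 : #R ≤ #(Zs \ R) := by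
      have := Finset.le_card_sdiff R Zs
      omega
    obtain ⟨e⟩ := Function.Embedding.nonempty_of_card_le (α := R) (β := (Zs \ R : Finset _))
      (by rw [Fintype.card_coe, Fintype.card_coe]; exact k4)
    refine ⟨fun y => if hy : y ∈ R then e ⟨y, hy⟩ else y, fun y hy y' hy' hyy => ?_,
      fun y hy => ?_⟩
    · have m1 : y ∈ R := mem_filter.2 ⟨mem_univ _, (hsupp y hy).1⟩
      have m2 : y' ∈ R := mem_filter.2 ⟨mem_univ _, (hsupp y' hy').1⟩
      simp only [dif_pos m1, dif_pos m2] at hyy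
      exact congrArg Subtype.val (e.injective (Subtype.ext hyy))
    · have m1 : y ∈ R := mem_filter.2 ⟨mem_univ _, (hsupp y hy).1⟩
      simp only [dif_pos m1]
      have := mem_sdiff.1 (e ⟨y, m1⟩).2
      refine ⟨(mem_filter.1 this.1).2, ?_⟩
      rw [if_neg fun h => this.2 (mem_filter.2 ⟨mem_univ _, h⟩), zero_div]

theorem par_H4 (n : ℕ) : (2 * uu n ^ 9 + 1) * 2 ^ (NN n + 1) ≤ hr n ^ 2 := by
  have h1 := (uu_facts n).2.1
  have h2 := uu_big n
  have h3 := hr_ge n
  have : ((2 * (uu n : ℝ) ^ 9 + 1) * 2 ^ (NN n + 1)) ≤ (hr n : ℝ) ^ 2 := by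
    set u : ℝ := (uu n : ℝ) with hu
    have a2 : 1 ≤ u ^ 9 := one_le_pow₀ (by linarith)
    have a3 : (0 : ℝ) < 2 ^ NN n := by positivity
    calc (2 * u ^ 9 + 1) * 2 ^ (NN n + 1) ≤ (3 * u ^ 9) * 2 ^ (NN n + 1) := by gcongr; linarith
      _ = 6 * 2 ^ NN n * u ^ 9 := by ring
      _ ≤ u * u ^ 9 := by gcongr; linarith
      _ = (u ^ 5) ^ 2 := by ring
      _ ≤ _ := by gcongr
  exact_mod_cast this

theorem par_H5 (n : ℕ) : 2 * (uu n ^ 5 + 1) ≤ NN (n + 1) := by
  have h2 : 2 ≤ uu n := by
    have := uu_big n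
    exact_mod_cast (show (2 : ℝ) ≤ uu n by linarith)
  have h3 : uu n ^ 5 < uu n ^ 9 := Nat.pow_lt_pow_right (by omega) (by norm_num)
  have h4 : 2 * uu n ^ 9 + 1 ≤ NN (n + 1) := Nat.le_mul_of_pos_left _ (NN_pos n)
  omega

theorem tower_II : ∃ μ : Measure (∀ n, LL n), IsTypeIIInf tower.GG (∀ n, LL n) μ := by
  choose g hg h1 t h2 h3 using fun n => weightsII (blk := blk n) (σ := uu n ^ 9) (h := hr n)
    (card_blk n) (NN_pos n) (T := uu n ^ 5 + 1) (by omega) (par_H5 n) (pp_ge n) (pp_le n)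
    (th_pos n) (th_le n) (par_H1 n) (par_bad n) (par_H4 n)
  obtain ⟨q, hp, hq, hq0, hqg⟩ := good_of_weights g hg
  have hne : ∀ n y, q (n + 1) {y} ≠ 0 → g n y ≠ 0 := fun n y hy h0 =>
    hy ((hqg n y).trans (by rw [h0, ENNReal.ofReal_zero]))
  refine Data.typeII hq (fun n y y' hy hy' => ?_) fun n => ⟨t n, fun y hy y' hy' hyy =>
    h2 n (hne n y hy) (hne n y' hy') hyy, fun y hy => ⟨(h3 n y (hne n y hy)).1, ?_⟩⟩
  · cases n with
    | zero =>
      rw [hq0] at hy hy' ⊢
      have a : ∀ z : LL 0, Measure.dirac (0 : LL 0) {z} ≠ 0 → z = 0 := fun z hz => by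
        by_contra h0
        exact hz (by rw [Measure.dirac_apply' _ (measurableSet_singleton z),
          Set.indicator_of_notMem (by simpa using fun h => h0 h.symm)])
      rw [a y hy, a y' hy']
    | succ n =>
      exact (hqg n y).trans ((congrArg ENNReal.ofReal
        (h1 n y y' (hne n y hy) (hne n y' hy'))).trans (hqg n y').symm)
  · exact (hqg n (t n y)).trans (by rw [(h3 n y (hne n y hy)).2, ENNReal.ofReal_zero])

theorem mainII : ∃ (G : Type) (_ : Group G) (_ : TopologicalSpace G) (_ : IsTopologicalGroup G)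
    (_ : PolishSpace G) (_ : MeasurableSpace G) (_ : BorelSpace G), IsLevyGroup G ∧
    ∃ (X : Type) (_ : MeasurableSpace X) (_ : StandardBorelSpace X) (_ : MulAction G X)
      (μ : Measure X), IsTypeIIInf G X μ :=
  ⟨tower.GG, inferInstance, inferInstance, inferInstance, inferInstance, inferInstance,
    inferInstance, tower_levy, ∀ n, LL n, inferInstance, inferInstance, inferInstance, tower_II⟩

end Pool.Agent.H530Z.Levy
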