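import Mathlib

set_option autoImplicit false

open Filter Topology

namespace Pool.Agent.H530Z.Vojta

/-- representatives -/
theorem out_sub_mem (L : PeriodPair) (z : ℂ) :
    (Submodule.Quotient.mk z : ℂ ⧸ L.lattice).out - z ∈ L.lattice := by
  rw [← Submodule.Quotient.eq]
  exact Quotient.out_eq _

theorem mk_out (L : PeriodPair) (q : ℂ ⧸ L.lattice) :
    (Submodule.Quotient.mk q.out : ℂ ⧸ L.lattice) = q := Quotient.out_eq _

theorem natMul_mem (L : PeriodPair) (m : ℕ) {z : ℂ} (hz : z ∈ L.lattice) :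
    (m : ℂ) * z ∈ L.lattice := by
  have := L.lattice.smul_mem (m : ℤ) hz
  simpa [zsmul_eq_mul] using this

theorem intMul_mem (L : PeriodPair) (m : ℤ) {z : ℂ} (hz : z ∈ L.lattice) :
    (m : ℂ) * z ∈ L.lattice := by
  have := L.lattice.smul_mem m hz
  simpa [zsmul_eq_mul] using this

/-- the `m`-torsion -/
def tors (L : PeriodPair) (m : ℕ) : Set (ℂ ⧸ L.lattice) := {q | (m : ℂ) * q.out ∈ L.lattice}

theorem mk_mem_tors (L : PeriodPair) (m : ℕ) (z : ℂ) :
    (Submodule.Quotient.mk z : ℂ ⧸ L.lattice) ∈ tors L m ↔ (m : ℂ) * z ∈ L.lattice := by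
  have h := natMul_mem L m (out_sub_mem L z)
  constructor
  · intro h1
    have := L.lattice.sub_mem h1 h
    convert this using 1; ring
  · intro h1
    have := L.lattice.add_mem h1 h
    show (m : ℂ) * _ ∈ L.lattice
    convert this using 1; ring

noncomputable def tpt (L : PeriodPair) (m : ℕ) (p : Fin m × Fin m) : ℂ ⧸ L.lattice :=
  Submodule.Quotient.mk ((((p.1 : ℕ) : ℂ) * L.ω₁ + ((p.2 : ℕ) : ℂ) * L.ω₂) / m)

theorem den_one_fin {m : ℕ} (hm : 0 < m) (i j : Fin m)
    (h : ((((i : ℕ) : ℚ) - ((j : ℕ) : ℚ)) / m).den = 1) : i = j := by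
  have h1 : ((((i : ℕ) : ℚ) - ((j : ℕ) : ℚ)) / m) =
      (((((i : ℕ) : ℚ) - ((j : ℕ) : ℚ)) / m).num : ℚ) := (Rat.den_eq_one_iff _).1 h |>.symm
  set k := ((((i : ℕ) : ℚ) - ((j : ℕ) : ℚ)) / m).num
  have hm' : (m : ℚ) ≠ 0 := by positivity
  have h2 : ((i : ℕ) : ℚ) - ((j : ℕ) : ℚ) = k * m := by
    rw [← h1]; field_simp
  have h3 : ((i : ℕ) : ℤ) - ((j : ℕ) : ℤ) = k * m := by exact_mod_cast h2
  have hi := i.2
  have hj := j.2
  have : k = 0 := by
    by_contra hk
    rcases lt_or_gt_of_ne hk with hk | hk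
    · have : k * m ≤ -1 * m := mul_le_mul_of_nonneg_right (by omega) (by positivity)
      omega
    · have : 1 * (m : ℤ) ≤ k * m := mul_le_mul_of_nonneg_right (by omega) (by positivity)
      omega
  rw [this] at h3
  apply Fin.ext
  omega

theorem tpt_inj (L : PeriodPair) {m : ℕ} (hm : 0 < m) : Function.Injective (tpt L m) := by
  intro p p' h
  unfold tpt at h
  rw [Submodule.Quotient.eq] at h
  have hm' : (m : ℂ) ≠ 0 := by exact_mod_cast hm.ne'
  have key := (L.mul_ω₁_add_mul_ω₂_mem_lattice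
    (α := (((p.1 : ℕ) : ℚ) - ((p'.1 : ℕ) : ℚ)) / m)
    (β := (((p.2 : ℕ) : ℚ) - ((p'.2 : ℕ) : ℚ)) / m)).1 (by
      convert h using 1
      push_cast
      field_simp
      ring)
  exact Prod.ext (den_one_fin hm _ _ key.1) (den_one_fin hm _ _ key.2)

theorem tors_eq_range (L : PeriodPair) {m : ℕ} (hm : 0 < m) : tors L m = Set.range (tpt L m) := by
  have hm' : (m : ℂ) ≠ 0 := by exact_mod_cast hm.ne'
  ext q
  constructor
  · intro hq
    obtain ⟨a, b, hab⟩ := PeriodPair.mem_lattice.1 hq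
    have hmz : (0 : ℤ) < m := by exact_mod_cast hm
    have ha0 := Int.emod_nonneg a hmz.ne'
    have ha1 := Int.emod_lt_of_pos a hmz
    have hb0 := Int.emod_nonneg b hmz.ne'
    have hb1 := Int.emod_lt_of_pos b hmz
    refine ⟨(⟨(a % m).toNat, by omega⟩, ⟨(b % m).toNat, by omega⟩), ?_⟩
    rw [← mk_out L q]
    unfold tpt
    rw [Submodule.Quotient.eq]
    have e1 : (((a % m).toNat : ℕ) : ℂ) = a - m * (a / m : ℤ) := by
      have : (((a % m).toNat : ℕ) : ℤ) = a - m * (a / m) := by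
        rw [Int.toNat_of_nonneg ha0, Int.emod_def]
      exact_mod_cast this
    have e2 : (((b % m).toNat : ℕ) : ℂ) = b - m * (b / m : ℤ) := by
      have : (((b % m).toNat : ℕ) : ℤ) = b - m * (b / m) := by
        rw [Int.toNat_of_nonneg hb0, Int.emod_def]
      exact_mod_cast this
    have e3 : q.out = (a * L.ω₁ + b * L.ω₂) / m := by
      rw [hab]; field_simp
    simp only [e1, e2]
    rw [e3, PeriodPair.mem_lattice]
    refine ⟨-(a / m), -(b / m), ?_⟩
    push_cast
    field_simp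
    ring
  · rintro ⟨p, rfl⟩
    unfold tpt
    rw [mk_mem_tors, PeriodPair.mem_lattice]
    refine ⟨(p.1 : ℕ), (p.2 : ℕ), ?_⟩
    push_cast
    field_simp

theorem tors_finite (L : PeriodPair) {m : ℕ} (hm : 0 < m) : (tors L m).Finite := by
  rw [tors_eq_range L hm]; exact Set.finite_range _

theorem tors_ncard (L : PeriodPair) {m : ℕ} (hm : 0 < m) : (tors L m).ncard = m ^ 2 := by
  rw [tors_eq_range L hm, Set.ncard_range_of_injective (tpt_inj L hm)]
  simp [sq]

/-- A set of classes all of whose representatives lie in a closed discrete set is finite. -/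
theorem finite_of_periodic (L : PeriodPair) (S : Set ℂ)
    (hS : ∀ z ∈ S, ∀ l ∈ L.lattice, z + l ∈ S)
    (hfin : ∀ R : ℝ, (S ∩ Metric.closedBall 0 R).Finite) :
    {q : ℂ ⧸ L.lattice | q.out ∈ S}.Finite := by
  refine ((hfin (‖L.ω₁‖ + ‖L.ω₂‖)).image (fun z => (Submodule.Quotient.mk z : ℂ ⧸ L.lattice))).subset ?_
  intro q hq
  obtain ⟨s, t, hst⟩ : ∃ s t : ℝ, q.out = s * L.ω₁ + t * L.ω₂ := by
    refine ⟨L.basis.repr q.out 0, L.basis.repr q.out 1, ?_⟩
    have := L.basis.sum_repr q.out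
    rw [Fin.sum_univ_two] at this
    simpa using this.symm
  have hl : -((⌊s⌋ : ℂ) * L.ω₁ + (⌊t⌋ : ℂ) * L.ω₂) ∈ L.lattice :=
    L.lattice.neg_mem (PeriodPair.mem_lattice.2 ⟨_, _, rfl⟩)
  refine ⟨q.out + -((⌊s⌋ : ℂ) * L.ω₁ + (⌊t⌋ : ℂ) * L.ω₂), ⟨hS _ hq _ hl, ?_⟩, ?_⟩
  · rw [mem_closedBall_zero_iff]
    have : q.out + -((⌊s⌋ : ℂ) * L.ω₁ + (⌊t⌋ : ℂ) * L.ω₂) =
        (Int.fract s : ℝ) * L.ω₁ + (Int.fract t : ℝ) * L.ω₂ := by
      rw [hst]; simp only [Int.fract]; push_cast; ring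
    rw [this]
    refine (norm_add_le _ _).trans (add_le_add ?_ ?_)
    · rw [norm_mul, Complex.norm_real, Real.norm_of_nonneg (Int.fract_nonneg _)]
      exact mul_le_of_le_one_left (norm_nonneg _) (Int.fract_lt_one _).le
    · rw [norm_mul, Complex.norm_real, Real.norm_of_nonneg (Int.fract_nonneg _)]
      exact mul_le_of_le_one_left (norm_nonneg _) (Int.fract_lt_one _).le
  · conv_rhs => rw [← mk_out L q]
    simp only
    rw [Submodule.Quotient.eq]
    simpa using hl

/-- The points where a meromorphic function that vanishes identically nowhere has nonzero order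
meet every ball in a finite set. -/
theorem finite_order_ne_zero {g : ℂ → ℂ} (hg : Meromorphic g)
    (hne : ∀ z, meromorphicOrderAt g z ≠ ⊤) (R : ℝ) :
    ({z | meromorphicOrderAt g z ≠ 0} ∩ Metric.closedBall 0 R).Finite := by
  have hon : MeromorphicOn g (Metric.closedBall 0 R) := fun z _ => hg z
  have := (MeromorphicOn.divisor g (Metric.closedBall 0 R)).finiteSupport (isCompact_closedBall 0 R)
  refine this.subset ?_
  rintro z ⟨hz, hzR⟩
  simp only [Function.mem_support]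
  rw [MeromorphicOn.divisor_apply hon hzR]
  intro h0
  rcases WithTop.untop₀_eq_zero.1 h0 with h | h
  · exact hz h
  · exact hne z h

end Pool.Agent.H530Z.Vojta
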