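import Mathlib

set_option autoImplicit false

open Filter Topology OnePoint

/-!
Curves of geometric genus one on the surface `X = X(Λ)` obtained from `E × ℙ¹`, `E = ℂ / Λ`, by
blowing up the three points `(0, 0)`, `(0, 1)`, `(0, ∞)`.
-/

namespace Pool.Agent.H530Z.Vojta

/-- The meromorphic function `u`, seen as a holomorphic map to `ℙ¹ = ℂ ∪ {∞}`, has the value `a`
at `z`. -/
def TakesValue (u : ℂ → ℂ) (z : ℂ) (a : OnePoint ℂ) : Prop :=
  Tendsto (fun w => (u w : OnePoint ℂ)) (𝓝[≠] z) (𝓝 a)

/-- A curve of geometric genus one in `E × ℙ¹`, `E = ℂ / Λ`, not contained in a fibre of the first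
projection, given by its normalisation `ℂ / Λ' → E × ℙ¹`, `z ↦ (α z + β, u z)`: the map is
holomorphic, well defined modulo `Λ'`, and injective outside a finite set. -/
structure GenusOneCurve (L : PeriodPair) where
  L' : PeriodPair
  α : ℂ
  β : ℂ
  u : ℂ → ℂ
  α_ne : α ≠ 0
  α_mem : ∀ l ∈ L'.lattice, α * l ∈ L.lattice
  meromorphic : Meromorphic u
  periodic : ∀ l ∈ L'.lattice, ∀ z, u (z + l) = u z
  poles_finite : {q : ℂ ⧸ L'.lattice | meromorphicOrderAt u q.out < 0}.Finite
  birational : {q : ℂ ⧸ L'.lattice | ∃ q' : ℂ ⧸ L'.lattice, q' ≠ q ∧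
    α * q.out - α * q'.out ∈ L.lattice ∧
    ∃ a, TakesValue u q.out a ∧ TakesValue u q'.out a}.Finite

namespace GenusOneCurve

variable {L : PeriodPair} (C : GenusOneCurve L)

/-- The geometric genus: the normalisation is the complex torus `ℂ / Λ'`. -/
def genus (_C : GenusOneCurve L) : ℕ := 1

/-- The multiplicity of the curve at the point `(0, a)` of `E × ℙ¹`: the number of points of the
normalisation over it (every branch is smooth, because `α ≠ 0`). -/
noncomputable def mult (a : OnePoint ℂ) : ℕ :=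
  {q : ℂ ⧸ C.L'.lattice | C.α * q.out + C.β ∈ L.lattice ∧ TakesValue C.u q.out a}.ncard

/-- The intersection number of the curve with `E × {∞}`: the number of poles of `u` on the
normalisation, counted with multiplicity. -/
noncomputable def deg : ℕ :=
  ∑ᶠ q : ℂ ⧸ C.L'.lattice, (-(meromorphicOrderAt C.u q.out).untop₀).toNat

/-- The canonical degree `K_X · C` of the strict transform of the curve on the blow-up `X` of
`E × ℙ¹` at `(0, 0)`, `(0, 1)`, `(0, ∞)`; here `K_X = -2 (E × {∞}) + E₀ + E₁ + E_∞`. -/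
noncomputable def canonicalDegree : ℤ :=
  (C.mult ((0 : ℂ) : OnePoint ℂ) : ℤ) + C.mult ((1 : ℂ) : OnePoint ℂ) + C.mult ∞ - 2 * (C.deg : ℤ)

end GenusOneCurve

end Pool.Agent.H530Z.Vojta
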