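import Mathlib
import Pool.Agent.Helper620.Wg.KI
import Pool.Agent.H530Z.VojtaA
import Pool.Agent.H530Z.VojtaDefs

set_option autoImplicit false

open Filter Topology OnePoint

namespace Pool.Agent.H530Z.Vojta

variable (L : PeriodPair)

noncomputable def cc : ℂ := L.ω₁ / 3

theorem cc_not_mem : cc L ∉ L.lattice := by
  have := (L.mul_ω₁_add_mul_ω₂_mem_lattice (α := 1 / 3) (β := 0)).not.mpr (by norm_num)
  intro h; apply this; convert h using 1; unfold cc; push_cast; ring

theorem three_cc_mem : 3 * cc L ∈ L.lattice := by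
  have : 3 * cc L = L.ω₁ := by unfold cc; ring
  rw [this]; exact L.ω₁_mem_lattice

theorem two_cc_not_mem : 2 * cc L ∉ L.lattice := by
  intro h
  apply cc_not_mem L
  have := L.lattice.sub_mem (three_cc_mem L) h
  convert this using 1; ring

/-- `z ≡ ± c` -/
def PM (z : ℂ) : Prop := z - cc L ∈ L.lattice ∨ z + cc L ∈ L.lattice

theorem PM_not_mem {z : ℂ} (h : PM L z) : z ∉ L.lattice := by
  intro hz
  apply cc_not_mem L
  rcases h with h | h
  · have := L.lattice.sub_mem hz h
    convert this using 1; ring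
  · have := L.lattice.sub_mem h hz
    convert this using 1; ring

theorem PM_two_not_mem {z : ℂ} (h : PM L z) : 2 * z ∉ L.lattice := by
  intro hz
  apply two_cc_not_mem L
  rcases h with h | h
  · have := L.lattice.sub_mem hz (L.lattice.add_mem h h)
    convert this using 1; ring
  · have := L.lattice.sub_mem (L.lattice.add_mem h h) hz
    convert this using 1; ring

theorem PM_three_mem {z : ℂ} (h : PM L z) : 3 * z ∈ L.lattice := by
  rcases h with h | h
  · have := L.lattice.add_mem (natMul_mem L 3 h) (three_cc_mem L)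
    convert this using 1; push_cast; ring
  · have := L.lattice.sub_mem (natMul_mem L 3 h) (three_cc_mem L)
    convert this using 1; push_cast; ring

theorem PM_add {z l : ℂ} (hl : l ∈ L.lattice) : PM L (z + l) ↔ PM L z := by
  unfold PM
  have e1 : z + l - cc L = (z - cc L) + l := by ring
  have e2 : z + l + cc L = (z + cc L) + l := by ring
  rw [e1, e2, L.lattice.add_mem_iff_left hl, L.lattice.add_mem_iff_left hl]

theorem wp_add {z l : ℂ} (hl : l ∈ L.lattice) : L.weierstrassP (z + l) = L.weierstrassP z :=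
  L.weierstrassP_add_coe z ⟨l, hl⟩

noncomputable def ff (z : ℂ) : ℂ := L.weierstrassP z - L.weierstrassP (cc L)

theorem ff_add {z l : ℂ} (hl : l ∈ L.lattice) : ff L (z + l) = ff L z := by
  unfold ff; rw [wp_add L hl]

theorem ff_neg (z : ℂ) : ff L (-z) = ff L z := by
  unfold ff; rw [L.weierstrassP_neg]

theorem ff_mero : Meromorphic (ff L) := fun z =>
  (L.meromorphic_weierstrassP z).sub (MeromorphicAt.const _ z)

theorem ff_analytic {z : ℂ} (hz : z ∉ L.lattice) : AnalyticAt ℂ (ff L) z :=
  (L.analyticOnNhd_weierstrassP z hz).sub analyticAt_const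

theorem ff_eq_zero_iff {z : ℂ} (hz : z ∉ L.lattice) : ff L z = 0 ↔ PM L z := by
  constructor
  · intro h
    exact Wg.wp_inj L z (cc L) hz (cc_not_mem L) (sub_eq_zero.1 h)
  · rintro (h | h)
    · have : z = cc L + (z - cc L) := by ring
      rw [this, ff_add L h]; simp [ff]
    · have : z = -cc L + (z + cc L) := by ring
      rw [this, ff_add L h, ff_neg]; simp [ff]

theorem ord_ff_mem {z : ℂ} (hz : z ∈ L.lattice) : meromorphicOrderAt (ff L) z = ((-2 : ℤ) : WithTop ℤ) := by
  have h1 : meromorphicOrderAt L.weierstrassP z = ((-2 : ℤ) : WithTop ℤ) := by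
    rw [L.order_weierstrassP z hz]; rfl
  have h2 : ff L = L.weierstrassP + fun _ => -L.weierstrassP (cc L) := by
    ext w; simp [ff, sub_eq_add_neg]
  rw [h2, meromorphicOrderAt_add_eq_left_of_lt (MeromorphicAt.const _ z), h1]
  rw [h1]
  refine lt_of_lt_of_le ?_ (analyticAt_const.meromorphicOrderAt_nonneg)
  exact_mod_cast (by norm_num : (-2 : ℤ) < 0)

theorem ord_ff_PM {z : ℂ} (hz : PM L z) : meromorphicOrderAt (ff L) z = ((1 : ℤ) : WithTop ℤ) := by
  have hz1 := PM_not_mem L hz
  have ha := ff_analytic L hz1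
  have hd : deriv (ff L) z ≠ 0 := by
    have : deriv (ff L) z = L.derivWeierstrassP z := by
      unfold ff
      rw [deriv_sub_const, L.deriv_weierstrassP]
    rw [this]
    exact Wg.wpd_ne L z (PM_two_not_mem L hz)
  rw [ha.meromorphicOrderAt_eq,
    ha.analyticOrderAt_eq_one_of_zero_deriv_ne_zero ((ff_eq_zero_iff L hz1).2 hz) hd]
  rfl

theorem ord_ff_other {z : ℂ} (hz1 : z ∉ L.lattice) (hz : ¬ PM L z) :
    meromorphicOrderAt (ff L) z = ((0 : ℤ) : WithTop ℤ) := by
  have ha := ff_analytic L hz1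
  rw [ha.meromorphicOrderAt_eq, analyticOrderAt_eq_zero.2 (Or.inr (mt (ff_eq_zero_iff L hz1).1 hz))]
  rfl

open Classical in
/-- the order of `ff` as an integer -/
noncomputable def oo (z : ℂ) : ℤ := if z ∈ L.lattice then -2 else if PM L z then 1 else 0

theorem ord_ff (z : ℂ) : meromorphicOrderAt (ff L) z = (oo L z : WithTop ℤ) := by
  unfold oo
  split_ifs with h1 h2
  · exact ord_ff_mem L h1
  · exact ord_ff_PM L h2
  · exact ord_ff_other L h1 h2

noncomputable def uu (n : ℕ) (z : ℂ) : ℂ := ff L z / ff L (n * z)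

theorem ffn_mero (n : ℕ) : Meromorphic (fun z : ℂ => ff L (n * z)) := fun z =>
  MeromorphicAt.comp_analyticAt (f := ff L) (g := fun z : ℂ => (n : ℂ) * z) (ff_mero L _) (by fun_prop)

theorem uu_mero (n : ℕ) : Meromorphic (uu L n) := fun z =>
  (ff_mero L z).div (ffn_mero L n z)

theorem uu_add (n : ℕ) {z l : ℂ} (hl : l ∈ L.lattice) : uu L n (z + l) = uu L n z := by
  unfold uu
  rw [ff_add L hl, mul_add, ff_add L (natMul_mem L n hl)]

theorem ord_uu {n : ℕ} (hn : 0 < n) (z : ℂ) :
    meromorphicOrderAt (uu L n) z = ((oo L z - oo L (n * z) : ℤ) : WithTop ℤ) := by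
  have hn' : (n : ℂ) ≠ 0 := by exact_mod_cast hn.ne'
  have h1 : meromorphicOrderAt (fun z : ℂ => ff L (n * z)) z = (oo L (n * z) : WithTop ℤ) := by
    have := meromorphicOrderAt_comp_of_deriv_ne_zero (f := ff L) (g := fun z : ℂ => (n : ℂ) * z)
      (x := z) (by fun_prop) (by simpa using hn.ne')
    rw [← ord_ff]
    exact this
  have h2 : uu L n = ff L / fun z : ℂ => ff L (n * z) := rfl
  rw [h2, meromorphicOrderAt_div (ff_mero L z) (ffn_mero L n z), h1, ord_ff]
  norm_cast

end Pool.Agent.H530Z.Vojta
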