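import Mathlib
import Pool.Agent.H530Z.VojtaB

set_option autoImplicit false

open Filter Topology OnePoint

namespace Pool.Agent.H530Z.Vojta

theorem tv_coe_iff {u : ℂ → ℂ} {z a : ℂ} :
    TakesValue u z (a : OnePoint ℂ) ↔ Tendsto u (𝓝[≠] z) (𝓝 a) :=
  (OnePoint.isOpenEmbedding_coe.isInducing.tendsto_nhds_iff (f := u) (y := a)).symm

theorem tv_infty_iff {u : ℂ → ℂ} {z : ℂ} (hu : MeromorphicAt u z) :
    TakesValue u z ∞ ↔ meromorphicOrderAt u z < 0 := by
  constructor
  · intro h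
    by_contra hn
    obtain ⟨c, hc⟩ := tendsto_nhds_of_meromorphicOrderAt_nonneg hu (not_lt.1 hn)
    have := tendsto_nhds_unique h (tv_coe_iff.2 hc)
    exact OnePoint.infty_ne_coe c this
  · intro h
    have h1 := tendsto_cobounded_of_meromorphicOrderAt_neg h
    rw [Metric.cobounded_eq_cocompact, ← Filter.coclosedCompact_eq_cocompact] at h1
    exact OnePoint.tendsto_coe_infty.comp h1

theorem tv_shift {u : ℂ → ℂ} {z h : ℂ} {a : OnePoint ℂ} :
    TakesValue u (z + h) a ↔ TakesValue (fun w => u (w + h)) z a := by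
  unfold TakesValue
  have := (Homeomorph.addRight h).map_punctured_nhds_eq z
  simp only [Homeomorph.coe_addRight] at this
  rw [← this, tendsto_map'_iff]
  rfl

variable (L : PeriodPair)

theorem tv_uu_add (n : ℕ) {z l : ℂ} (hl : l ∈ L.lattice) {a : OnePoint ℂ} :
    TakesValue (uu L n) (z + l) a ↔ TakesValue (uu L n) z a := by
  rw [tv_shift]
  simp only [uu_add L n hl]

theorem oo_cases (z : ℂ) : (z ∈ L.lattice ∧ oo L z = -2) ∨ (PM L z ∧ oo L z = 1) ∨
    (z ∉ L.lattice ∧ ¬ PM L z ∧ oo L z = 0) := by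
  unfold oo
  split_ifs with h1 h2
  · exact Or.inl ⟨h1, rfl⟩
  · exact Or.inr (Or.inl ⟨h2, rfl⟩)
  · exact Or.inr (Or.inr ⟨h1, h2, rfl⟩)

theorem PM_mul_mem {m : ℕ} {z : ℂ} (h : PM L z) : ((3 * m : ℕ) : ℂ) * z ∈ L.lattice := by
  have := natMul_mem L m (PM_three_mem L h)
  convert this using 1; push_cast; ring

/-- integer order of `uu` -/
theorem ou_cases (m : ℕ) (z : ℂ) :
    (PM L (((3 * m : ℕ) : ℂ) * z) ∧ oo L z - oo L (((3 * m : ℕ) : ℂ) * z) = -1) ∨
    (¬ PM L (((3 * m : ℕ) : ℂ) * z) ∧ 0 ≤ oo L z - oo L (((3 * m : ℕ) : ℂ) * z)) := by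
  have hA := oo_cases L z
  have hB := oo_cases L (((3 * m : ℕ) : ℂ) * z)
  have i1 : z ∈ L.lattice → ((3 * m : ℕ) : ℂ) * z ∈ L.lattice := natMul_mem L _
  have i2 : PM L z → ((3 * m : ℕ) : ℂ) * z ∈ L.lattice := PM_mul_mem L
  have i3 : PM L (((3 * m : ℕ) : ℂ) * z) → ((3 * m : ℕ) : ℂ) * z ∉ L.lattice := PM_not_mem L
  rcases hB with ⟨b1, b2⟩ | ⟨b1, b2⟩ | ⟨b1, b2, b3⟩
  · right
    refine ⟨fun h => i3 h b1, ?_⟩
    rcases hA with ⟨_, a2⟩ | ⟨_, a2⟩ | ⟨_, _, a2⟩ <;> omega
  · left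
    refine ⟨b1, ?_⟩
    rcases hA with ⟨a1, a2⟩ | ⟨a1, a2⟩ | ⟨_, _, a2⟩
    · exact absurd (i1 a1) (i3 b1)
    · exact absurd (i2 a1) (i3 b1)
    · omega
  · right
    refine ⟨b2, ?_⟩
    rcases hA with ⟨a1, a2⟩ | ⟨a1, a2⟩ | ⟨_, _, a2⟩
    · exact absurd (i1 a1) b1
    · omega
    · omega

theorem ou_three_iff (m : ℕ) (z : ℂ) :
    oo L z - oo L (((3 * m : ℕ) : ℂ) * z) = 3 ↔ PM L z := by
  have hA := oo_cases L z
  have hB := oo_cases L (((3 * m : ℕ) : ℂ) * z)
  have i2 : PM L z → ((3 * m : ℕ) : ℂ) * z ∈ L.lattice := PM_mul_mem L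
  have i3 : PM L (((3 * m : ℕ) : ℂ) * z) → ((3 * m : ℕ) : ℂ) * z ∉ L.lattice := PM_not_mem L
  have i4 : PM L z → z ∉ L.lattice := PM_not_mem L
  constructor
  · intro h
    rcases hA with ⟨_, a2⟩ | ⟨a1, a2⟩ | ⟨_, _, a2⟩
    · rcases hB with ⟨b1, b2⟩ | ⟨b1, b2⟩ | ⟨b1, b2, b3⟩ <;> omega
    · exact a1
    · rcases hB with ⟨b1, b2⟩ | ⟨b1, b2⟩ | ⟨b1, b2, b3⟩ <;> omega
  · intro h
    rcases hA with ⟨a1, a2⟩ | ⟨a1, a2⟩ | ⟨_, a1, a2⟩
    · exact absurd a1 (i4 h)
    · rcases hB with ⟨b1, b2⟩ | ⟨b1, b2⟩ | ⟨b1, b2, b3⟩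
      · omega
      · exact absurd (i2 h) (i3 b1)
      · exact absurd (i2 h) b1
    · exact absurd h a1

theorem ord_neg_iff {m : ℕ} (hm : 0 < m) (z : ℂ) :
    meromorphicOrderAt (uu L (3 * m)) z < 0 ↔ PM L (((3 * m : ℕ) : ℂ) * z) := by
  rw [ord_uu L (by omega)]
  rcases ou_cases L m z with ⟨h1, h2⟩ | ⟨h1, h2⟩
  · rw [h2]
    simp only [h1, iff_true]
    exact_mod_cast (by norm_num : (-1 : ℤ) < 0)
  · simp only [h1, iff_false, not_lt]
    exact_mod_cast h2

/-- the poles -/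
def PP (m : ℕ) : Set (ℂ ⧸ L.lattice) := {q | PM L (((3 * m : ℕ) : ℂ) * q.out)}

theorem PP_subset {m : ℕ} (hm : 0 < m) : PP L m ⊆
    (fun q => q + (Submodule.Quotient.mk (cc L / (3 * m : ℕ)) : ℂ ⧸ L.lattice)) '' tors L (3 * m) ∪
    (fun q => q - (Submodule.Quotient.mk (cc L / (3 * m : ℕ)) : ℂ ⧸ L.lattice)) '' tors L (3 * m) := by
  have hn' : ((3 * m : ℕ) : ℂ) ≠ 0 := by exact_mod_cast (by omega : 3 * m ≠ 0)
  rintro q (h | h)
  · left
    refine ⟨Submodule.Quotient.mk (q.out - cc L / (3 * m : ℕ)), ?_, ?_⟩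
    · rw [mk_mem_tors]
      convert h using 1
      field_simp
    · simp only
      rw [← Submodule.Quotient.mk_add, sub_add_cancel, mk_out]
  · right
    refine ⟨Submodule.Quotient.mk (q.out + cc L / (3 * m : ℕ)), ?_, ?_⟩
    · rw [mk_mem_tors]
      convert h using 1
      field_simp
    · simp only
      rw [← Submodule.Quotient.mk_sub, add_sub_cancel_right, mk_out]

theorem PP_finite {m : ℕ} (hm : 0 < m) : (PP L m).Finite :=
  (((tors_finite L (by omega)).image _).union ((tors_finite L (by omega)).image _)).subset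
    (PP_subset L hm)

theorem PP_ncard {m : ℕ} (hm : 0 < m) : (PP L m).ncard ≤ 2 * (3 * m) ^ 2 := by
  have hf := tors_finite L (m := 3 * m) (by omega)
  refine (Set.ncard_le_ncard (PP_subset L hm) ((hf.image _).union (hf.image _))).trans ?_
  refine (Set.ncard_union_le _ _).trans ?_
  have h1 := Set.ncard_image_le
    (f := fun q => q + (Submodule.Quotient.mk (cc L / (3 * m : ℕ)) : ℂ ⧸ L.lattice)) hf
  have h2 := Set.ncard_image_le
    (f := fun q => q - (Submodule.Quotient.mk (cc L / (3 * m : ℕ)) : ℂ ⧸ L.lattice)) hf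
  rw [tors_ncard L (by omega)] at h1 h2
  omega

/-- `u (· + h) - u` vanishes identically nowhere if `h` is not a period. -/
theorem shift_ne_top {m : ℕ} (hm : 0 < m) {h : ℂ} (hh : h ∉ L.lattice) (z : ℂ) :
    meromorphicOrderAt (fun w => uu L (3 * m) (w + h) - uu L (3 * m) w) z ≠ ⊤ := by
  have hsh : Meromorphic (fun w => uu L (3 * m) (w + h)) := fun w =>
    MeromorphicAt.comp_analyticAt (f := uu L (3 * m)) (g := fun w : ℂ => w + h)
      (uu_mero L _ _) (by fun_prop)
  have hg : MeromorphicOn (fun w => uu L (3 * m) (w + h) - uu L (3 * m) w) Set.univ :=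
    fun w _ => (hsh w).sub (uu_mero L _ w)
  have key : ∀ w, meromorphicOrderAt (fun w => uu L (3 * m) (w + h) - uu L (3 * m) w) w = ⊤ →
      PM L w → PM L (w + h) := by
    intro w hw hpm
    rw [meromorphicOrderAt_eq_top_iff] at hw
    have e1 : meromorphicOrderAt (fun w => uu L (3 * m) (w + h)) w =
        meromorphicOrderAt (uu L (3 * m)) w := by
      apply meromorphicOrderAt_congr
      filter_upwards [hw] with x hx using sub_eq_zero.1 hx
    have e2 : meromorphicOrderAt (fun w => uu L (3 * m) (w + h)) w =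
        meromorphicOrderAt (uu L (3 * m)) (w + h) :=
      meromorphicOrderAt_comp_of_deriv_ne_zero (f := uu L (3 * m)) (g := fun w : ℂ => w + h)
        (x := w) (by fun_prop) (by simp)
    rw [e2, ord_uu L (by omega), ord_uu L (by omega), (ou_three_iff L m w).2 hpm] at e1
    exact (ou_three_iff L m (w + h)).1 (by exact_mod_cast e1)
  intro htop
  have hall : ∀ w, meromorphicOrderAt (fun w => uu L (3 * m) (w + h) - uu L (3 * m) w) w = ⊤ := by
    intro w
    by_contra hw
    exact hg.meromorphicOrderAt_ne_top_of_isPreconnected isPreconnected_univ (Set.mem_univ w)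
      (Set.mem_univ z) hw htop
  have p1 := key (cc L) (hall _) (Or.inl (by simp))
  have p2 := key (-cc L) (hall _) (Or.inr (by simp))
  rcases p1 with p1 | p1
  · exact hh (by convert p1 using 1; ring)
  rcases p2 with p2 | p2
  · apply cc_not_mem L
    have := L.lattice.sub_mem (L.lattice.sub_mem p1 p2) (three_cc_mem L)
    convert this using 1; ring
  · exact hh (by convert p2 using 1; ring)

theorem shift_finite {m : ℕ} (hm : 0 < m) {h : ℂ} (hh : h ∉ L.lattice) :
    {q : ℂ ⧸ L.lattice | ∃ a, TakesValue (uu L (3 * m)) q.out a ∧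
      TakesValue (uu L (3 * m)) (q.out + h) a}.Finite := by
  set g : ℂ → ℂ := fun w => uu L (3 * m) (w + h) - uu L (3 * m) w with hgdef
  have hsh : Meromorphic (fun w => uu L (3 * m) (w + h)) := fun w =>
    MeromorphicAt.comp_analyticAt (f := uu L (3 * m)) (g := fun w : ℂ => w + h)
      (uu_mero L _ _) (by fun_prop)
  have hg : Meromorphic g := fun w => (hsh w).sub (uu_mero L _ w)
  have hfin : {q : ℂ ⧸ L.lattice | q.out ∈ {z | meromorphicOrderAt g z ≠ 0}}.Finite := by
    apply finite_of_periodic L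
    · intro z hz l hl
      have e2 : meromorphicOrderAt (fun w => g (w + l)) z = meromorphicOrderAt g (z + l) :=
        meromorphicOrderAt_comp_of_deriv_ne_zero (f := g) (g := fun w : ℂ => w + l)
          (x := z) (by fun_prop) (by simp)
      have e3 : (fun w => g (w + l)) = g := by
        ext w
        simp only [hgdef]
        rw [show w + l + h = (w + h) + l by ring, uu_add L _ hl, uu_add L _ hl]
      rw [e3] at e2
      show meromorphicOrderAt g (z + l) ≠ 0
      rw [← e2]; exact hz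
    · exact finite_order_ne_zero hg (shift_ne_top L hm hh)
  refine ((PP_finite L hm).union hfin).subset ?_
  rintro q ⟨a, h1, h2⟩
  cases a with
  | infty =>
    left
    exact (ord_neg_iff L hm _).1 ((tv_infty_iff (uu_mero L _ _)).1 h1)
  | coe a =>
    right
    rw [tv_shift, tv_coe_iff] at h2
    rw [tv_coe_iff] at h1
    have h3 : Tendsto g (𝓝[≠] q.out) (𝓝 0) := by
      have := h2.sub h1
      simpa using this
    exact ((tendsto_zero_iff_meromorphicOrderAt_pos (hg _)).1 h3).ne'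

/-- the multiplier -/
def NN (m : ℕ) : ℕ := 3 * (3 * m) * (3 * m + 1)

theorem NN_pos {m : ℕ} (hm : 0 < m) : 0 < NN m := by unfold NN; positivity

noncomputable def curve (m : ℕ) (hm : 0 < m) : GenusOneCurve L where
  L' := L
  α := (NN m : ℂ)
  β := 0
  u := uu L (3 * m)
  α_ne := by exact_mod_cast (NN_pos hm).ne'
  α_mem := fun l hl => natMul_mem L _ hl
  meromorphic := uu_mero L _
  periodic := fun l hl z => uu_add L _ hl
  poles_finite := by
    simp only [ord_neg_iff L hm]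
    exact PP_finite L hm
  birational := by
    have hT : (tors L (NN m) \ {0}).Finite := (tors_finite L (NN_pos hm)).sdiff
    refine (hT.biUnion (t := fun h : ℂ ⧸ L.lattice => {q : ℂ ⧸ L.lattice |
      ∃ a, TakesValue (uu L (3 * m)) q.out a ∧
        TakesValue (uu L (3 * m)) (q.out + h.out) a}) ?_).subset ?_
    · rintro h ⟨_, h0⟩
      apply shift_finite L hm
      intro hc
      apply h0
      rw [Set.mem_singleton_iff, ← mk_out L h, Submodule.Quotient.mk_eq_zero]
      exact hc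
    · rintro q ⟨q', hne, hmem, a, h1, h2⟩
      simp only [Set.mem_iUnion]
      refine ⟨Submodule.Quotient.mk (q'.out - q.out), ⟨?_, ?_⟩, a, h1, ?_⟩
      · rw [mk_mem_tors]
        have := L.lattice.neg_mem hmem
        convert this using 1; ring
      · rw [Set.mem_singleton_iff, Submodule.Quotient.mk_eq_zero, ← Submodule.Quotient.eq,
          mk_out, mk_out]
        exact hne
      · have := out_sub_mem L (q'.out - q.out)
        rw [← tv_uu_add L _ this] at h2
        convert h2 using 1; ring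

theorem deg_curve {m : ℕ} (hm : 0 < m) : (curve L m hm).deg = (PP L m).ncard := by
  classical
  unfold GenusOneCurve.deg
  have : (fun q : ℂ ⧸ L.lattice => (-(meromorphicOrderAt (uu L (3 * m)) q.out).untop₀).toNat) =
      (PP L m).indicator (fun _ => 1) := by
    ext q
    rw [ord_uu L (by omega), WithTop.untop₀_coe, Set.indicator_apply]
    rcases ou_cases L m q.out with ⟨h1, h2⟩ | ⟨h1, h2⟩
    · rw [if_pos (show q ∈ PP L m from h1), h2]; rfl
    · rw [if_neg (show q ∉ PP L m from h1)]; omega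
  show ∑ᶠ q : ℂ ⧸ L.lattice, (-(meromorphicOrderAt (uu L (3 * m)) q.out).untop₀).toNat = _
  rw [this, ← finsum_mem_def, finsum_mem_eq_finite_toFinset_sum _ (PP_finite L hm),
    Set.ncard_eq_toFinset_card _ (PP_finite L hm)]
  simp

theorem mult_finite {m : ℕ} (hm : 0 < m) (a : OnePoint ℂ) :
    {q : ℂ ⧸ L.lattice | (NN m : ℂ) * q.out + 0 ∈ L.lattice ∧
      TakesValue (uu L (3 * m)) q.out a}.Finite :=
  (tors_finite L (NN_pos hm)).subset (fun q hq => by simpa [tors] using hq.1)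

theorem mult_infty {m : ℕ} (hm : 0 < m) : (curve L m hm).mult ∞ = (PP L m).ncard := by
  show {q : ℂ ⧸ L.lattice | (NN m : ℂ) * q.out + 0 ∈ L.lattice ∧
      TakesValue (uu L (3 * m)) q.out ∞}.ncard = _
  congr 1
  ext q
  show ((NN m : ℂ) * q.out + 0 ∈ L.lattice ∧ TakesValue (uu L (3 * m)) q.out ∞) ↔ _
  rw [tv_infty_iff (uu_mero L _ _), ord_neg_iff L hm]
  refine ⟨fun h => h.2, fun h => ⟨?_, h⟩⟩
  have := natMul_mem L (3 * m + 1) (PM_three_mem L h)
  convert this using 1
  unfold NN; push_cast; ring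

theorem ncard_tors_diff {k : ℕ} (hk : 0 < k) : (tors L k \ {0}).ncard = k ^ 2 - 1 := by
  rw [Set.ncard_sdiff_singleton_of_mem, tors_ncard L hk]
  have : (0 : ℂ ⧸ L.lattice) = Submodule.Quotient.mk 0 := rfl
  rw [this, mk_mem_tors]; simp

theorem out_not_mem {q : ℂ ⧸ L.lattice} (hq : q ∉ ({0} : Set (ℂ ⧸ L.lattice))) :
    q.out ∉ L.lattice := by
  intro hc
  apply hq
  rw [Set.mem_singleton_iff, ← mk_out L q, Submodule.Quotient.mk_eq_zero]
  exact hc

theorem mult_zero {m : ℕ} (hm : 0 < m) :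
    (3 * m) ^ 2 - 1 ≤ (curve L m hm).mult ((0 : ℂ) : OnePoint ℂ) := by
  rw [← ncard_tors_diff L (by omega)]
  refine Set.ncard_le_ncard ?_ (mult_finite L hm _)
  rintro q ⟨h1, h2⟩
  have h1' : ((3 * m : ℕ) : ℂ) * q.out ∈ L.lattice := h1
  have h3 := out_not_mem L h2
  refine ⟨?_, ?_⟩
  · have := natMul_mem L (3 * (3 * m + 1)) h1'
    show (NN m : ℂ) * q.out + 0 ∈ L.lattice
    convert this using 1
    unfold NN; push_cast; ring
  · show TakesValue (uu L (3 * m)) q.out _
    rw [tv_coe_iff]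
    apply tendsto_zero_of_meromorphicOrderAt_pos
    rw [ord_uu L (by omega)]
    have : 0 < oo L q.out - oo L (((3 * m : ℕ) : ℂ) * q.out) := by
      rcases oo_cases L (((3 * m : ℕ) : ℂ) * q.out) with ⟨b1, b2⟩ | ⟨b1, b2⟩ | ⟨b1, b2, b3⟩
      · rcases oo_cases L q.out with ⟨a1, a2⟩ | ⟨a1, a2⟩ | ⟨_, a1, a2⟩
        · exact absurd a1 h3
        · omega
        · omega
      · exact absurd h1' (PM_not_mem L b1)
      · exact absurd h1' b1
    exact_mod_cast this

theorem mult_one {m : ℕ} (hm : 0 < m) :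
    (3 * m + 1) ^ 2 - 1 ≤ (curve L m hm).mult ((1 : ℂ) : OnePoint ℂ) := by
  rw [← ncard_tors_diff L (by omega)]
  refine Set.ncard_le_ncard ?_ (mult_finite L hm _)
  rintro q ⟨h1, h2⟩
  have h1' : ((3 * m + 1 : ℕ) : ℂ) * q.out ∈ L.lattice := h1
  have h3 := out_not_mem L h2
  have e : ((3 * m : ℕ) : ℂ) * q.out = -q.out + ((3 * m + 1 : ℕ) : ℂ) * q.out := by
    push_cast; ring
  have h4 : ((3 * m : ℕ) : ℂ) * q.out ∉ L.lattice := by
    intro hc
    apply h3
    have := L.lattice.sub_mem h1' hc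
    convert this using 1; push_cast; ring
  have h5 : ff L (((3 * m : ℕ) : ℂ) * q.out) = ff L q.out := by
    rw [e, ff_add L h1', ff_neg]
  have h6 : ff L q.out ≠ 0 := fun hc => h4 (PM_mul_mem L ((ff_eq_zero_iff L h3).1 hc))
  refine ⟨?_, ?_⟩
  · have := natMul_mem L (3 * (3 * m)) h1'
    show (NN m : ℂ) * q.out + 0 ∈ L.lattice
    convert this using 1
    unfold NN; push_cast; ring
  · show TakesValue (uu L (3 * m)) q.out _
    rw [tv_coe_iff]
    have c1 : ContinuousAt (ff L) q.out := (ff_analytic L h3).continuousAt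
    have c2 : ContinuousAt (fun z : ℂ => ff L (((3 * m : ℕ) : ℂ) * z)) q.out :=
      ContinuousAt.comp (f := fun z : ℂ => ((3 * m : ℕ) : ℂ) * z) (ff_analytic L h4).continuousAt
        (by fun_prop)
    have c3 : ContinuousAt (uu L (3 * m)) q.out := c1.div c2 (by rw [h5]; exact h6)
    have v : uu L (3 * m) q.out = 1 := by unfold uu; rw [h5, div_self h6]
    rw [← v]
    exact c3.tendsto.mono_left nhdsWithin_le_nhds

theorem canonicalDegree_curve {m : ℕ} (hm : 0 < m) :
    6 * (m : ℤ) - 1 ≤ (curve L m hm).canonicalDegree := by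
  unfold GenusOneCurve.canonicalDegree
  have h0 := mult_zero L hm
  have h1 := mult_one L hm
  have h2 := PP_ncard L hm
  rw [mult_infty, deg_curve]
  have a0 : 1 ≤ (3 * m) ^ 2 := Nat.one_le_pow _ _ (by omega)
  have a1 : 1 ≤ (3 * m + 1) ^ 2 := Nat.one_le_pow _ _ (by omega)
  zify [a0, a1] at h0 h1 h2
  nlinarith

theorem unbounded (B : ℝ) : ∃ C : GenusOneCurve L, B < (C.canonicalDegree : ℝ) := by
  obtain ⟨k, hk⟩ := exists_nat_gt B
  refine ⟨curve L (k + 1) (by omega), ?_⟩
  have := canonicalDegree_curve L (m := k + 1) (by omega)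
  have h2 : (k : ℤ) ≤ (curve L (k + 1) (by omega)).canonicalDegree := by
    push_cast at this; omega
  exact hk.trans_le (by exact_mod_cast h2)

theorem not_linear_bound (A B : ℝ) :
    ∃ C : GenusOneCurve L, A * ((C.genus : ℝ) - 1) + B < (C.canonicalDegree : ℝ) := by
  obtain ⟨C, hC⟩ := unbounded L B
  exact ⟨C, by simpa [GenusOneCurve.genus] using hC⟩

end Pool.Agent.H530Z.Vojta
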